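import Pool.Agent.Lib.MP_f5d53e_lc.PDefs

/-! Row fd5-Cof: the cofinality of an exact upper bound. -/

namespace Pool.Agent.Lib.MP_f5d53e_lc

universe u

open Cardinal Set Filter

/-- For an exact upper bound: a choice of `s i n` with `f i n ≤ φ n (s i n)` almost everywhere. -/
private theorem cofP_choose (D : Ultrafilter ℕ) (c c' : ℕ → Cardinal.{u})
    (hc' : ∀ n, c' n ≠ 0) (y : ∀ n, (c n).ord.ToType) (h : ∀ n, (c n).ord.ToType)
    (h1 : ∀ᶠ n in (D : Filter ℕ), y n < h n)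
    (φ : ∀ n, (c' n).ord.ToType → (c n).ord.ToType)
    (hφ : ∀ᶠ n in (D : Filter ℕ), StrictMono (φ n) ∧ (∀ t, φ n t < h n) ∧ ∀ y < h n, ∃ t, y ≤ φ n t) :
    ∃ s : ∀ n, (c' n).ord.ToType, ∀ᶠ n in (D : Filter ℕ), y n ≤ φ n (s n) := by
  classical
  have hne : ∀ n, Nonempty (c' n).ord.ToType := by
    intro n
    rw [← Cardinal.mk_ne_zero_iff, Cardinal.mk_toType, Cardinal.card_ord]
    exact hc' n
  refine ⟨fun n => if hh : ∃ t, y n ≤ φ n t then hh.choose else (hne n).some, ?_⟩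
  filter_upwards [h1, hφ] with n hn1 hn2
  have hh : ∃ t, y n ≤ φ n t := hn2.2.2 _ hn1
  rw [dif_pos hh]
  exact hh.choose_spec

/-- Let `h` be an exact upper bound of the increasing sequence `f` of length `κ`, and let `φ n` be increasing and cofinal
below `h n` for `D`-almost all `n`. Then the ultraproduct of the `c' n` has cofinality `κ`. (`s i n` = the least `t` with
`f i n ≤ φ n t`: the `s i` are cofinal, and fewer than `κ` functions are not.) -/
theorem cofProd_of_eub {κ : Cardinal.{u}} (hκ : κ.IsRegular) (D : Ultrafilter ℕ) (c c' : ℕ → Cardinal.{u})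
    (hc' : ∀ n, c' n ≠ 0) (f : κ.ord.ToType → ∀ n, (c n).ord.ToType)
    (hf : ∀ i j, i < j → ∀ᶠ n in (D : Filter ℕ), f i n < f j n) (h : ∀ n, (c n).ord.ToType)
    (h1 : ∀ i, ∀ᶠ n in (D : Filter ℕ), f i n < h n)
    (h2 : ∀ g' : ∀ n, (c n).ord.ToType, (∀ᶠ n in (D : Filter ℕ), g' n < h n) →
      ∃ i, ∀ᶠ n in (D : Filter ℕ), g' n < f i n)
    (φ : ∀ n, (c' n).ord.ToType → (c n).ord.ToType)
    (hφ : ∀ᶠ n in (D : Filter ℕ), StrictMono (φ n) ∧ (∀ t, φ n t < h n) ∧ ∀ y < h n, ∃ t, y ≤ φ n t) :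
    cofProd D c' = κ := by
  classical
  have hs : ∀ i, ∃ s : ∀ n, (c' n).ord.ToType, ∀ᶠ n in (D : Filter ℕ), f i n ≤ φ n (s n) :=
    fun i => cofP_choose D c c' hc' (f i) h (h1 i) φ hφ
  choose s hs using hs
  have hg : ∀ g : ∀ n, (c' n).ord.ToType, ∃ i, ∀ᶠ n in (D : Filter ℕ), φ n (g n) < f i n := by
    intro g
    apply h2
    filter_upwards [hφ] with n hn
    exact hn.2.1 _
  apply le_antisymm
  · have h3 : cofProd D c' ≤ #(range s) := by
      refine csInf_le' ⟨range s, rfl, ?_⟩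
      intro g
      obtain ⟨i, hi⟩ := hg g
      refine ⟨s i, mem_range_self i, ?_⟩
      filter_upwards [hi, hs i, hφ] with n hn1 hn2 hn3
      exact (hn3.1.lt_iff_lt.1 (lt_of_lt_of_le hn1 hn2)).le
    refine h3.trans (mk_range_le.trans ?_)
    rw [Cardinal.mk_toType, Cardinal.card_ord]
  · by_contra hlt
    rw [not_le] at hlt
    obtain ⟨S, hS, hS2⟩ := exists_cofProd D c'
    have hi : ∀ s : S, ∃ i, ∀ᶠ n in (D : Filter ℕ), φ n (s.1 n) < f i n := fun s => hg s.1
    choose ι hι using hi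
    have hT : #(range ι) < κ := lt_of_le_of_lt mk_range_le (by rw [hS]; exact hlt)
    have hnc : ¬ IsCofinal (range ι) := by
      intro hc
      have h4 := Order.cof_le hc
      rw [Ordinal.cof_toType, hκ.cof_ord] at h4
      exact absurd hT (not_lt.2 h4)
    rw [not_isCofinal_iff] at hnc
    obtain ⟨i, hi⟩ := hnc
    obtain ⟨t, ht, ht2⟩ := hS2 (s i)
    have h5 := hf (ι ⟨t, ht⟩) i (hi _ (mem_range_self _))
    have h6 : ∀ᶠ n in (D : Filter ℕ), False := by
      filter_upwards [h5, hι ⟨t, ht⟩, hs i, ht2, hφ] with n e1 e2 e3 e4 e5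
      have e6 := e5.1.monotone e4
      exact absurd (lt_of_le_of_lt (e3.trans e6) (e2.trans e1)) (lt_irrefl _)
    exact h6.exists.choose_spec.elim

end Pool.Agent.Lib.MP_f5d53e_lc
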