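import Pool.Agent.Lib.MP_f5d53e_lc.PDefs

/-! Row fd5-Eub: exact upper bounds of increasing sequences modulo an ultrafilter. -/

namespace Pool.Agent.Lib.MP_f5d53e_lc

universe u

open Cardinal Set Filter

section

variable {L : ℕ → Type u} [∀ n, LinearOrder (L n)] [∀ n, WellFoundedLT (L n)]

open Classical in
/-- the least element of `S n` which is at least `f n` (`f n` if there is none) -/
noncomputable def up (S : ∀ n, Set (L n)) (f : ∀ n, L n) (n : ℕ) : L n :=
  if h : ({y | y ∈ S n ∧ f n ≤ y} : Set (L n)).Nonempty then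
    WellFounded.min (wellFounded_lt (α := L n)) _ h else f n

theorem le_up (S : ∀ n, Set (L n)) (f : ∀ n, L n) (n : ℕ) : f n ≤ up S f n := by
  unfold up
  split_ifs with h
  · exact (WellFounded.min_mem (wellFounded_lt (α := L n)) _ h).2
  · exact le_rfl

theorem up_le {S : ∀ n, Set (L n)} {f : ∀ n, L n} {n : ℕ} {y : L n} (hy : y ∈ S n) (h : f n ≤ y) :
    up S f n ≤ y := by
  have hne : ({y | y ∈ S n ∧ f n ≤ y} : Set (L n)).Nonempty := ⟨y, hy, h⟩
  unfold up
  rw [dif_pos hne]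
  exact not_lt.1 (WellFounded.not_lt_min (wellFounded_lt (α := L n)) {y | y ∈ S n ∧ f n ≤ y} ⟨hy, h⟩)

private theorem eub_up_mem {S : ∀ n, Set (L n)} {f : ∀ n, L n} {n : ℕ} (h : ∃ y ∈ S n, f n ≤ y) :
    up S f n ∈ S n := by
  obtain ⟨y, hy, hy2⟩ := h
  have hne : ({y | y ∈ S n ∧ f n ≤ y} : Set (L n)).Nonempty := ⟨y, hy, hy2⟩
  unfold up
  rw [dif_pos hne]
  exact (WellFounded.min_mem (wellFounded_lt (α := L n)) _ hne).1

theorem up_mono_left {S S' : ∀ n, Set (L n)} {f : ∀ n, L n} {n : ℕ} (hS : S n ⊆ S' n)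
    (h : ∃ y ∈ S n, f n ≤ y) : up S' f n ≤ up S f n :=
  up_le (hS (eub_up_mem h)) (le_up S f n)

private theorem eub_above {κ : Cardinal.{u}} (hκ : κ.IsRegular) (s : Set κ.ord.ToType) (hs : #s < κ) :
    ∃ x, ∀ y ∈ s, y < x := by
  rw [← not_isCofinal_iff]
  intro h
  have h2 := Order.cof_le h
  rw [Ordinal.cof_toType, hκ.cof_ord] at h2
  exact absurd hs (not_lt.2 h2)

/-- Let `g` be above all `f i` and let the `S n` be countable, `g n ∈ S n`. Then modulo `D` the functions `up S (f i)` are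
eventually constant: `f` is increasing, and the functions `up S (f i)` changed to `g` where `f i n > g n` take at most
`2 ^ ℵ₀ < κ` values. -/
theorem exists_up_const {κ : Cardinal.{u}} (hκ : κ.IsRegular) (h2 : (2 : Cardinal.{u}) ^ (ℵ₀ : Cardinal.{u}) < κ)
    (D : Ultrafilter ℕ) (f : κ.ord.ToType → ∀ n, L n)
    (hf : ∀ i j, i < j → ∀ᶠ n in (D : Filter ℕ), f i n < f j n) (S : ∀ n, Set (L n))
    (hS : ∀ n, (S n).Countable) (g : ∀ n, L n) (hgS : ∀ n, g n ∈ S n)
    (hg : ∀ i, ∀ᶠ n in (D : Filter ℕ), f i n < g n) :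
    ∃ i0, ∀ i, i0 ≤ i → ∀ᶠ n in (D : Filter ℕ), up S (f i) n = up S (f i0) n := by
  classical
  -- the modified functions
  set F : κ.ord.ToType → ∀ n, S n := fun i n =>
    if h : f i n ≤ g n then ⟨up S (f i) n, eub_up_mem ⟨g n, hgS n, h⟩⟩ else ⟨g n, hgS n⟩ with hF
  have hFval : ∀ i n, f i n ≤ g n → ((F i n : S n) : L n) = up S (f i) n := by
    intro i n h
    simp only [hF]
    rw [dif_pos h]
  have hmono : ∀ i j, i ≤ j → ∀ᶠ n in (D : Filter ℕ), ((F i n : S n) : L n) ≤ (F j n : L n) := by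
    intro i j hij
    rcases hij.eq_or_lt with rfl | hij
    · exact Filter.Eventually.of_forall fun n => le_rfl
    · filter_upwards [hf i j hij, hg i, hg j] with n h1 h2 h3
      rw [hFval i n h2.le, hFval j n h3.le]
      exact up_le (eub_up_mem ⟨g n, hgS n, h3.le⟩) (h1.le.trans (le_up S (f j) n))
  -- the number of values
  have hcard : #(∀ n, S n) < κ := by
    refine lt_of_le_of_lt ?_ h2
    have hinj : ∀ n, ∃ e : S n → ℕ, Function.Injective e := fun n => by
      have := (hS n).to_subtype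
      exact (countable_iff_exists_injective (S n)).1 this
    choose e he using hinj
    have h3 : Function.Injective (fun (x : ∀ n, S n) (n : ℕ) => e n (x n)) := by
      intro x y hxy
      funext n
      exact he n (congrFun hxy n)
    have h4 := Cardinal.lift_mk_le_lift_mk_of_injective h3
    have h5 : #(ℕ → ℕ) = Cardinal.continuum := by simp
    rw [h5, Cardinal.lift_continuum, Cardinal.lift_uzero, ← Cardinal.two_power_aleph0] at h4
    exact h4
  -- a value taken cofinally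
  have hex : ∃ φ : ∀ n, S n, ∀ i, ∃ j, i ≤ j ∧ F j = φ := by
    by_contra hno
    push Not at hno
    choose bd hbd using hno
    obtain ⟨x, hx⟩ := eub_above hκ (range bd) (lt_of_le_of_lt Cardinal.mk_range_le hcard)
    exact hbd (F x) x (hx _ ⟨F x, rfl⟩).le rfl
  obtain ⟨φ, hφ⟩ := hex
  obtain ⟨x0⟩ : Nonempty κ.ord.ToType := by
    rw [← Cardinal.mk_ne_zero_iff, Cardinal.mk_ord_toType]
    exact hκ.pos.ne'
  obtain ⟨i0, -, hi0⟩ := hφ x0
  refine ⟨i0, fun i hi => ?_⟩
  obtain ⟨j, hj1, hj2⟩ := hφ i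
  filter_upwards [hmono i0 i hi, hmono i j hj1, hg i, hg i0] with n h1 h2 h3 h4
  rw [← hFval i n h3.le, ← hFval i0 n h4.le]
  rw [hj2, ← hi0] at h2
  exact le_antisymm h2 h1

/-- Exact upper bounds. If every upper bound `b` had a smaller one `nx b`, define by well-founded recursion on `i : WW`:
`S i n = {g n} ∪ {G j n | j < i}`, `B i = up (S i) (f (ξ i))` with `ξ i` from `exists_up_const` (an upper bound, `B i ≤ G j` modulo
`D` for `j < i`) and `G i = nx (B i)`. Let `ξ` be above all `ξ i`. For almost all `n` the map `i ↦ up (S i) (f ξ) n` is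
nonincreasing, so constant from some `i_n` on; take `i` above all `i_n` (`ω₁` is regular) and compare `B i` and `B (i + 1)`:
`B (i+1) ≤ G i < B i` and `B (i+1) = B i` modulo `D`. -/
theorem exists_eub {κ : Cardinal.{u}} (hκ : κ.IsRegular) (h2 : (2 : Cardinal.{u}) ^ (ℵ₀ : Cardinal.{u}) < κ)
    (D : Ultrafilter ℕ) (f : κ.ord.ToType → ∀ n, L n)
    (hf : ∀ i j, i < j → ∀ᶠ n in (D : Filter ℕ), f i n < f j n) (g : ∀ n, L n)
    (hg : ∀ i, ∀ᶠ n in (D : Filter ℕ), f i n < g n) :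
    ∃ h : ∀ n, L n, (∀ i, ∀ᶠ n in (D : Filter ℕ), f i n < h n) ∧
      ∀ g' : ∀ n, L n, (∀ᶠ n in (D : Filter ℕ), g' n < h n) → ∃ i, ∀ᶠ n in (D : Filter ℕ), g' n < f i n := by
  classical
  have hsucc : ∀ i : κ.ord.ToType, ∃ j, i < j := by
    intro i
    obtain ⟨x, hx⟩ := eub_above hκ {i} (by
      rw [Cardinal.mk_singleton]
      exact Cardinal.one_lt_aleph0.trans_le hκ.aleph0_le)
    exact ⟨x, hx i rfl⟩
  obtain ⟨x0⟩ : Nonempty κ.ord.ToType := by
    rw [← Cardinal.mk_ne_zero_iff, Cardinal.mk_ord_toType]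
    exact hκ.pos.ne'
  by_contra hno
  -- every upper bound has a smaller one
  have hsm : ∀ h : ∀ n, L n, (∀ i, ∀ᶠ n in (D : Filter ℕ), f i n < h n) →
      ∃ g' : ∀ n, L n, (∀ᶠ n in (D : Filter ℕ), g' n < h n) ∧
        ∀ i, ∀ᶠ n in (D : Filter ℕ), f i n < g' n := by
    intro h hh
    by_contra hc
    refine hno ⟨h, hh, fun g' hg' => ?_⟩
    by_contra hc2
    push Not at hc2
    refine hc ⟨g', hg', fun i => ?_⟩
    obtain ⟨j, hj⟩ := hsucc i
    have h1 := hc2 j
    filter_upwards [hf i j hj, h1] with n h2 h3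
    exact lt_of_lt_of_le h2 h3
  let nx : (∀ n, L n) → ∀ n, L n := fun b =>
    if h : (∀ i, ∀ᶠ n in (D : Filter ℕ), f i n < b n) then (hsm b h).choose else g
  have nx1 : ∀ b : ∀ n, L n, (∀ i, ∀ᶠ n in (D : Filter ℕ), f i n < b n) →
      ∀ᶠ n in (D : Filter ℕ), nx b n < b n := by
    intro b hb
    simp only [nx]
    rw [dif_pos hb]
    exact (hsm b hb).choose_spec.1
  have nx2 : ∀ b : ∀ n, L n, ∀ i, ∀ᶠ n in (D : Filter ℕ), f i n < nx b n := by
    intro b
    simp only [nx]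
    split_ifs with hb
    · exact (hsm b hb).choose_spec.2
    · exact hg
  let xi : (∀ n, Set (L n)) → κ.ord.ToType := fun S =>
    if h : ((∀ n, (S n).Countable) ∧ ∀ n, g n ∈ S n) then
      (exists_up_const hκ h2 D f hf S h.1 g h.2 hg).choose else x0
  have hxi : ∀ S : ∀ n, Set (L n), (∀ n, (S n).Countable) → (∀ n, g n ∈ S n) →
      ∀ i, xi S ≤ i → ∀ᶠ n in (D : Filter ℕ), up S (f i) n = up S (f (xi S)) n := by
    intro S h1 h3
    have h4 : ((∀ n, (S n).Countable) ∧ ∀ n, g n ∈ S n) := ⟨h1, h3⟩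
    have h5 : xi S = (exists_up_const hκ h2 D f hf S h1 g h3 hg).choose := by
      simp only [xi]
      rw [dif_pos h4]
    rw [h5]
    exact (exists_up_const hκ h2 D f hf S h1 g h3 hg).choose_spec
  let G : WW.{u} → ∀ n, L n := WellFounded.fix (wellFounded_lt (α := WW.{u})) (fun i p =>
    nx (up (fun n => insert (g n) {y | ∃ j, ∃ h : j < i, p j h n = y})
      (f (xi (fun n => insert (g n) {y | ∃ j, ∃ h : j < i, p j h n = y})))))
  let S : WW.{u} → ∀ n, Set (L n) := fun i n => insert (g n) {y | ∃ j, ∃ _ : j < i, G j n = y}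
  have hG : ∀ i, G i = nx (up (S i) (f (xi (S i)))) := fun i => WellFounded.fix_eq _ _ i
  have hS1 : ∀ i n, (S i n).Countable := by
    intro i n
    refine Set.Countable.insert _ ?_
    have h1 : {y | ∃ j, ∃ _ : j < i, G j n = y} = (fun j => G j n) '' Iio i := by
      ext y
      simp
    rw [h1]
    refine Set.Countable.image ?_ _
    rw [Cardinal.countable_iff_lt_aleph_one]
    exact Cardinal.mk_Iio_ord_toType i
  have hS2 : ∀ i n, g n ∈ S i n := fun i n => Set.mem_insert _ _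
  have hS3 : ∀ i i', i ≤ i' → ∀ n, S i n ⊆ S i' n := by
    intro i i' hi n y hy
    rcases hy with hy | ⟨j, hj, hy⟩
    · exact Or.inl hy
    · exact Or.inr ⟨j, lt_of_lt_of_le hj hi, hy⟩
  have hS4 : ∀ i j, j < i → ∀ n, G j n ∈ S i n := fun i j hj n => Or.inr ⟨j, hj, rfl⟩
  have hBub : ∀ i a, ∀ᶠ n in (D : Filter ℕ), f a n < up (S i) (f (xi (S i))) n := by
    intro i a
    obtain ⟨ξ, hξ⟩ := hsucc (max a (xi (S i)))
    have ha : a < ξ := lt_of_le_of_lt (le_max_left _ _) hξ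
    have hb : xi (S i) ≤ ξ := (lt_of_le_of_lt (le_max_right _ _) hξ).le
    filter_upwards [hf a ξ ha, hxi (S i) (hS1 i) (hS2 i) ξ hb] with n h1 h3
    rw [← h3]
    exact lt_of_lt_of_le h1 (le_up _ _ _)
  have hGub : ∀ i a, ∀ᶠ n in (D : Filter ℕ), f a n < G i n := by
    intro i
    rw [hG i]
    exact nx2 _
  have hBG : ∀ i j, j < i → ∀ᶠ n in (D : Filter ℕ), up (S i) (f (xi (S i))) n ≤ G j n := by
    intro i j hj
    filter_upwards [hGub j (xi (S i))] with n h1
    exact up_le (hS4 i j hj n) h1.le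
  have hGB : ∀ i, ∀ᶠ n in (D : Filter ℕ), G i n < up (S i) (f (xi (S i))) n := by
    intro i
    rw [hG i]
    exact nx1 _ (hBub i)
  have hW : #WW.{u} < κ := by
    rw [Cardinal.mk_ord_toType]
    refine lt_of_le_of_lt ?_ h2
    rw [Cardinal.two_power_aleph0]
    exact Cardinal.aleph_one_le_continuum
  obtain ⟨ξ, hξ⟩ := eub_above hκ (range fun i : WW.{u} => xi (S i))
    (lt_of_le_of_lt Cardinal.mk_range_le hW)
  have hst : ∀ n, ∃ k : WW.{u}, ∀ i, k ≤ i → f ξ n ≤ g n → up (S i) (f ξ) n = up (S k) (f ξ) n := by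
    intro n
    have hne : (range fun i : WW.{u} => up (S i) (f ξ) n).Nonempty := by
      obtain ⟨w⟩ : Nonempty WW.{u} := by
        rw [← Cardinal.mk_ne_zero_iff, Cardinal.mk_ord_toType]
        exact (Cardinal.aleph_pos 1).ne'
      exact ⟨_, w, rfl⟩
    obtain ⟨k, hk⟩ := WellFounded.min_mem (wellFounded_lt (α := L n)) _ hne
    refine ⟨k, fun i hi hn => le_antisymm ?_ ?_⟩
    · exact up_mono_left (hS3 k i hi n) ⟨g n, hS2 k n, hn⟩
    · simp only at hk
      rw [hk]
      exact not_lt.1 (WellFounded.not_lt_min (wellFounded_lt (α := L n))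
        (range fun i : WW.{u} => up (S i) (f ξ) n) ⟨i, rfl⟩)
  choose k hk using hst
  obtain ⟨i, hi⟩ := eub_above Cardinal.isRegular_aleph_one (range k) (by
    rw [← Cardinal.countable_iff_lt_aleph_one]
    exact countable_range k)
  obtain ⟨i', hi'⟩ := eub_above Cardinal.isRegular_aleph_one {i} (by
    rw [Cardinal.mk_singleton]
    exact Cardinal.one_lt_aleph0.trans_le (Cardinal.aleph0_le_aleph 1))
  have hii : i < i' := hi' i rfl
  have h10 := hxi (S i) (hS1 i) (hS2 i) ξ (hξ _ ⟨i, rfl⟩).le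
  have h11 := hxi (S i') (hS1 i') (hS2 i') ξ (hξ _ ⟨i', rfl⟩).le
  have hfin : ∀ᶠ n in (D : Filter ℕ), False := by
    filter_upwards [h10, h11, hBG i' i hii, hGB i, hg ξ] with n a1 a2 a3 a4 a5
    have e1 := hk n i (hi _ ⟨n, rfl⟩).le a5.le
    have e2 := hk n i' ((hi _ ⟨n, rfl⟩).le.trans hii.le) a5.le
    rw [← a1] at a4
    rw [← a2] at a3
    rw [e1] at a4
    rw [e2] at a3
    exact absurd (lt_of_le_of_lt a3 a4) (lt_irrefl _)
  obtain ⟨_, hcon⟩ := hfin.exists
  exact hcon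

end

end Pool.Agent.Lib.MP_f5d53e_lc
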