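import Pool.Agent.Lib.MP_f5d53e_lc.PDefs

/-! Row fd5-Map: ultraproducts of small cardinals; cofinal maps. -/

namespace Pool.Agent.Lib.MP_f5d53e_lc

universe u

open Cardinal Set Filter

/-- The cofinality of an ultraproduct of cardinals at most `μ` is at most `μ ^ ℵ₀`. -/
theorem cofProd_le_power {D : Ultrafilter ℕ} {c : ℕ → Cardinal.{u}} {μ : Cardinal.{u}} (hc : ∀ n, c n ≠ 0)
    (h : ∀ᶠ n in (D : Filter ℕ), c n ≤ μ) : cofProd D c ≤ μ ^ (ℵ₀ : Cardinal.{u}) := by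
  classical
  obtain ⟨n0, hn0⟩ := h.exists
  have hμ : μ ≠ 0 := fun h0 => hc n0 (le_antisymm (h0 ▸ hn0) zero_le)
  have hne : ∀ n, Nonempty (c n).ord.ToType := fun n => by
    rw [← mk_ne_zero_iff, mk_ord_toType]; exact hc n
  have hneμ : Nonempty μ.ord.ToType := by
    rw [← mk_ne_zero_iff, mk_ord_toType]; exact hμ
  let f0 : ∀ n, (c n).ord.ToType := fun n => (hne n).some
  let S : Set (∀ n, (c n).ord.ToType) := {f | ∀ n, ¬ c n ≤ μ → f n = f0 n}
  have hS : ∀ f : ∀ n, (c n).ord.ToType, ∃ s ∈ S, ∀ᶠ n in (D : Filter ℕ), f n ≤ s n := by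
    intro f
    refine ⟨fun n => if c n ≤ μ then f n else f0 n, fun n hn => if_neg hn, ?_⟩
    filter_upwards [h] with n hn
    rw [if_pos hn]
  have h1 : cofProd D c ≤ #S := csInf_le' ⟨S, rfl, hS⟩
  refine h1.trans ?_
  have hemb : ∀ n, c n ≤ μ → Nonempty ((c n).ord.ToType ↪ μ.ord.ToType) := fun n hn => by
    rw [← Cardinal.le_def, mk_ord_toType, mk_ord_toType]; exact hn
  let e : ∀ n, (c n).ord.ToType → μ.ord.ToType := fun n x =>
    if hn : c n ≤ μ then (hemb n hn).some x else hneμ.some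
  have hinj : Function.Injective (fun (f : S) (n : ULift.{u} ℕ) => e n.down (f.1 n.down)) := by
    intro f g hfg
    apply Subtype.ext
    funext n
    have h2 := congrFun hfg ⟨n⟩
    by_cases hn : c n ≤ μ
    · simp only [e, dif_pos hn] at h2
      exact (hemb n hn).some.injective h2
    · rw [f.2 n hn, g.2 n hn]
  refine (mk_le_of_injective hinj).trans ?_
  rw [← power_def, mk_ord_toType]
  simp

/-- A strictly increasing cofinal map from the cofinality. -/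
theorem exists_cofinal_map {L : Type u} [LinearOrder L] [WellFoundedLT L] (h : L)
    (hlim : ∀ y < h, ∃ y', y < y' ∧ y' < h) (hne : ∃ y, y < h) :
    ∃ (c : Cardinal.{u}) (φ : c.ord.ToType → L), c.IsRegular ∧ c ≤ #(Iio h) ∧ StrictMono φ ∧
      (∀ t, φ t < h) ∧ ∀ y < h, ∃ t, y ≤ φ t := by
  obtain ⟨s, hs, hs'⟩ := Ordinal.exists_ord_cof_eq (Iio h)
  have : Nonempty (Iio h) := let ⟨y, hy⟩ := hne; ⟨⟨y, hy⟩⟩
  have : NoMaxOrder (Iio h) := ⟨fun y => by
    obtain ⟨y', h1, h2⟩ := hlim y.1 y.2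
    exact ⟨⟨y', h2⟩, h1⟩⟩
  have hreg : (Order.cof (Iio h)).IsRegular := ⟨Order.aleph0_le_cof, (Order.cof_ord_cof _).ge⟩
  have ht : Ordinal.type (α := s) (· < ·) =
      Ordinal.type (α := (Order.cof (Iio h)).ord.ToType) (· < ·) := by
    rw [hs', Ordinal.type_toType]
  obtain ⟨g⟩ := Ordinal.type_eq.1 ht
  refine ⟨Order.cof (Iio h), fun t => ((g.symm t : s) : Iio h).1, hreg, Order.cof_le_cardinalMk _, ?_,
    fun t => ((g.symm t : s) : Iio h).2, ?_⟩
  · intro a b hab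
    exact g.symm.map_rel_iff.2 hab
  · intro y hy
    obtain ⟨z, hz, hyz⟩ := hs ⟨y, hy⟩
    refine ⟨g ⟨z, hz⟩, ?_⟩
    have h3 : g.symm (g ⟨z, hz⟩) = ⟨z, hz⟩ := g.symm_apply_apply _
    change y ≤ ((g.symm (g ⟨z, hz⟩) : s) : Iio h).1
    rw [h3]
    exact hyz

end Pool.Agent.Lib.MP_f5d53e_lc
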