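import Pool.Agent.Lib.MP_f5d53e_lc.BInc
import Pool.Agent.Lib.MP_f5d53e_lc.BEub
import Pool.Agent.Lib.MP_f5d53e_lc.BCof
import Pool.Agent.Lib.MP_f5d53e_lc.BMap

/-! Row fd5-Hole: no holes. -/

namespace Pool.Agent.Lib.MP_f5d53e_lc

universe u

open Cardinal Set Filter

/-- No holes: `exists_increasing`, `exists_eub` (unless `κ = cofProd D c`); `h n` is a limit for `D`-almost all `n` because the
bound is exact; `exists_cofinal_map` and `cofProd_of_eub`; the new cardinals are above `μ0` by `cofProd_le_power`. -/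
theorem no_hole {l μ0 κ : Cardinal.{u}} (hl : l.IsStrongLimit) (h0 : ℵ₀ < l) (hμ0 : μ0 < l)
    (hκ : κ.IsRegular) (hlκ : l < κ) (D : Ultrafilter ℕ) (c : ℕ → Cardinal.{u})
    (hc : ∀ n, (c n).IsRegular ∧ μ0 < c n ∧ c n < l) (h : κ ≤ cofProd D c) :
    ∃ c' : ℕ → Cardinal.{u}, (∀ n, (c' n).IsRegular ∧ μ0 < c' n ∧ c' n < l) ∧ cofProd D c' = κ := by
  rcases h.eq_or_lt with h | h
  · exact ⟨c, hc, h.symm⟩
  have hne : ∀ n, c n ≠ 0 := fun n => (aleph0_pos.trans_le (hc n).1.aleph0_le).ne'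
  obtain ⟨f, g, hf, hg⟩ := exists_increasing hκ.aleph0_le D c hne h
  have h2 : (2 : Cardinal.{u}) ^ (ℵ₀ : Cardinal.{u}) < κ :=
    (power_lt_of_strongLimit hl ((nat_lt_aleph0 2).trans h0) h0).trans hlκ
  obtain ⟨b, hb1, hb2⟩ := exists_eub hκ h2 D f hf g hg
  have hκne : Nonempty κ.ord.ToType := by
    rw [← mk_ne_zero_iff, mk_toType, card_ord]
    exact (aleph0_pos.trans_le hκ.aleph0_le).ne'
  obtain ⟨i0⟩ := hκne
  -- almost all `b n` are limits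
  have hlim : ∀ᶠ n in (D : Filter ℕ), (∀ y < b n, ∃ y', y < y' ∧ y' < b n) ∧ ∃ y, y < b n := by
    have hA : ∀ᶠ n in (D : Filter ℕ), ∃ y, y < b n := (hb1 i0).mono fun n hn => ⟨_, hn⟩
    have hB : ∀ᶠ n in (D : Filter ℕ), ∀ y < b n, ∃ y', y < y' ∧ y' < b n := by
      by_contra hcon
      rw [← Ultrafilter.eventually_not] at hcon
      have hex : ∀ n, ∃ z : (c n).ord.ToType, (¬ ∀ y < b n, ∃ y', y < y' ∧ y' < b n) →
          z < b n ∧ ∀ y', z < y' → ¬ y' < b n := by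
        intro n
        by_cases hn : ∀ y < b n, ∃ y', y < y' ∧ y' < b n
        · exact ⟨b n, fun h => absurd hn h⟩
        · have hn' := hn
          push Not at hn'
          obtain ⟨z, hz1, hz2⟩ := hn'
          exact ⟨z, fun _ => ⟨hz1, fun y' hy' => not_lt.2 (hz2 y' hy')⟩⟩
      choose z hz using hex
      obtain ⟨i, hi⟩ := hb2 z (hcon.mono fun n hn => (hz n hn).1)
      obtain ⟨n, hn1, hn2, hn3⟩ := (hcon.and (hi.and (hb1 i))).exists
      exact (hz n hn1).2 _ hn2 hn3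
    exact hB.and hA
  -- first choice
  have hex1 : ∀ n, ∃ (c1 : Cardinal.{u}) (φ : c1.ord.ToType → (c n).ord.ToType),
      c1.IsRegular ∧ c1 < l ∧ (((∀ y < b n, ∃ y', y < y' ∧ y' < b n) ∧ ∃ y, y < b n) →
        StrictMono φ ∧ (∀ t, φ t < b n) ∧ ∀ y < b n, ∃ t, y ≤ φ t) := by
    intro n
    by_cases hn : (∀ y < b n, ∃ y', y < y' ∧ y' < b n) ∧ ∃ y, y < b n
    · obtain ⟨c1, φ, hr, hle, hs1, hs2, hs3⟩ := exists_cofinal_map (b n) hn.1 hn.2
      refine ⟨c1, φ, hr, ?_, fun _ => ⟨hs1, hs2, hs3⟩⟩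
      refine (hle.trans_lt ?_).trans (hc n).2.2
      exact mk_Iio_ord_toType (b n)
    · exact ⟨c n, fun _ => b n, (hc n).1, (hc n).2.2, fun h => absurd h hn⟩
  choose c1 φ1 hr1 hl1 hs1 using hex1
  have hne1 : ∀ n, c1 n ≠ 0 := fun n => (aleph0_pos.trans_le (hr1 n).aleph0_le).ne'
  have hcof1 : cofProd D c1 = κ :=
    cofProd_of_eub hκ D c c1 hne1 f hf b hb1 hb2 φ1 (hlim.mono fun n hn => hs1 n hn)
  have hbig : ∀ᶠ n in (D : Filter ℕ), μ0 < c1 n := by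
    by_contra hcon
    rw [← Ultrafilter.eventually_not] at hcon
    have h3 : cofProd D c1 ≤ μ0 ^ (ℵ₀ : Cardinal.{u}) :=
      cofProd_le_power hne1 (hcon.mono fun n hn => not_lt.1 hn)
    rw [hcof1] at h3
    exact absurd (hlκ.trans_le h3) (not_lt.2 (power_lt_of_strongLimit hl hμ0 h0).le)
  -- second choice
  have hex2 : ∀ n, ∃ (c2 : Cardinal.{u}) (φ : c2.ord.ToType → (c n).ord.ToType),
      (c2.IsRegular ∧ μ0 < c2 ∧ c2 < l) ∧ (((∀ y < b n, ∃ y', y < y' ∧ y' < b n) ∧ ∃ y, y < b n) →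
        μ0 < c1 n → StrictMono φ ∧ (∀ t, φ t < b n) ∧ ∀ y < b n, ∃ t, y ≤ φ t) := by
    intro n
    by_cases hn : μ0 < c1 n
    · exact ⟨c1 n, φ1 n, ⟨hr1 n, hn, hl1 n⟩, fun h _ => hs1 n h⟩
    · exact ⟨c n, fun _ => b n, hc n, fun _ h => absurd h hn⟩
  choose c2 φ2 hr2 hs2 using hex2
  have hne2 : ∀ n, c2 n ≠ 0 := fun n => (aleph0_pos.trans_le (hr2 n).1.aleph0_le).ne'
  exact ⟨c2, hr2, cofProd_of_eub hκ D c c2 hne2 f hf b hb1 hb2 φ2
    ((hlim.and hbig).mono fun n hn => hs2 n hn.1 hn.2)⟩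

end Pool.Agent.Lib.MP_f5d53e_lc
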