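import Pool.Agent.Lib.MP_f5d53e_lc.PDefs

/-! Row fd5-Inc: increasing sequences modulo an ultrafilter. -/

namespace Pool.Agent.Lib.MP_f5d53e_lc

universe u

open Cardinal Set Filter

/-- Fewer than `cofProd D c` functions are bounded modulo `D`. -/
theorem fd5Inc_bound (D : Ultrafilter ℕ) (c : ℕ → Cardinal.{u})
    (B : Set (∀ n, (c n).ord.ToType)) (hB : #B < cofProd D c) :
    ∃ g : ∀ n, (c n).ord.ToType, ∀ b ∈ B, ∀ᶠ n in (D : Filter ℕ), b n < g n := by
  by_contra hcon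
  push Not at hcon
  refine absurd (csInf_le' (?_ : #B ∈ {k | ∃ S : Set (∀ n, (c n).ord.ToType), #S = k ∧
    ∀ f : ∀ n, (c n).ord.ToType, ∃ s ∈ S, ∀ᶠ n in (D : Filter ℕ), f n ≤ s n})) (not_le.2 hB)
  refine ⟨B, rfl, fun f => ?_⟩
  obtain ⟨b, hb, h⟩ := hcon f
  exact ⟨b, hb, h⟩

/-- Recursion on `i : κ.ord.ToType`: fewer than `cofProd D c` functions are not cofinal, so there is `g` with
`f j < g` modulo `D` for all `j < i`. -/
theorem exists_increasing {κ : Cardinal.{u}} (hκ : ℵ₀ ≤ κ) (D : Ultrafilter ℕ) (c : ℕ → Cardinal.{u})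
    (hc : ∀ n, c n ≠ 0) (h : κ < cofProd D c) :
    ∃ (f : κ.ord.ToType → ∀ n, (c n).ord.ToType) (g : ∀ n, (c n).ord.ToType),
      (∀ i j, i < j → ∀ᶠ n in (D : Filter ℕ), f i n < f j n) ∧
        ∀ i, ∀ᶠ n in (D : Filter ℕ), f i n < g n := by
  have hsmall : ∀ (i : κ.ord.ToType) (ih : Iio i → ∀ n, (c n).ord.ToType),
      #(range ih) < cofProd D c := by
    intro i ih
    refine (mk_range_le (f := ih)).trans_lt ?_
    exact (mk_Iio_toType_ord_lt i).trans h
  let step : ∀ i : κ.ord.ToType, (∀ j, j < i → ∀ n, (c n).ord.ToType) →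
      ∀ n, (c n).ord.ToType := fun i ih =>
    (fd5Inc_bound D c (range fun j : Iio i => ih j.1 j.2)
      (hsmall i fun j => ih j.1 j.2)).choose
  have hstep : ∀ i ih j (hj : j < i), ∀ᶠ n in (D : Filter ℕ), ih j hj n < step i ih n :=
    fun i ih j hj => (fd5Inc_bound D c (range fun j : Iio i => ih j.1 j.2)
      (hsmall i fun j => ih j.1 j.2)).choose_spec (ih j hj) ⟨⟨j, hj⟩, rfl⟩
  let f : κ.ord.ToType → ∀ n, (c n).ord.ToType :=
    WellFounded.fix (wellFounded_lt (α := κ.ord.ToType)) step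
  have hf : ∀ i, f i = step i fun j _ => f j := fun i =>
    WellFounded.fix_eq (wellFounded_lt (α := κ.ord.ToType)) step i
  have hrange : #(range f) < cofProd D c := by
    refine (mk_range_le (f := f)).trans_lt ?_
    rwa [mk_ord_toType]
  obtain ⟨g, hg⟩ := fd5Inc_bound D c (range f) hrange
  refine ⟨f, g, fun i j hij => ?_, fun i => hg (f i) ⟨i, rfl⟩⟩
  have h1 := hstep j (fun j' _ => f j') i hij
  rw [← hf j] at h1
  exact h1

end Pool.Agent.Lib.MP_f5d53e_lc
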