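import Mathlib

/-!
Characters of uniform ultrafilters and Galvin's property: basic definitions and lemmas.
-/

namespace Pool.Agent.Lib.MP_f5d53e_lc

universe u v

open Cardinal Set Filter

/-- An ultrafilter on `X` is uniform if all its members have the cardinality of `X`. -/
def Uniform {X : Type u} (U : Ultrafilter X) : Prop := ∀ A ∈ U, #A = #X

/-- `B` is a base of `U`. -/
def IsBase {X : Type u} (U : Ultrafilter X) (B : Set (Set X)) : Prop :=
  (∀ b ∈ B, b ∈ U) ∧ ∀ A ∈ U, ∃ b ∈ B, b ⊆ A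

/-- The character of `U`: the least cardinality of a base. -/
noncomputable def Ch {X : Type u} (U : Ultrafilter X) : Cardinal.{u} :=
  sInf {c | ∃ B : Set (Set X), IsBase U B ∧ #B = c}

/-- The character spectrum of `l`. -/
def Sp (l : Cardinal.{u}) : Set Cardinal.{u} :=
  {c | ∃ (X : Type u) (U : Ultrafilter X), #X = l ∧ Uniform U ∧ Ch U = c}

/-- Galvin's property `Gal(U, t, m)`: in every family of `m` members of `U` there are `t` of them
whose intersection is in `U`. -/
def Gal {X : Type u} (U : Ultrafilter X) (t m : Cardinal.{u}) : Prop :=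
  ∀ (L : Type u) (A : L → Set X), #L = m → (∀ i, A i ∈ U) →
    ∃ S : Set L, #S = t ∧ (⋂ i ∈ S, A i) ∈ U

theorem exists_base {X : Type u} (U : Ultrafilter X) :
    ∃ B : Set (Set X), IsBase U B ∧ #B = Ch U := by
  have h : ({c | ∃ B : Set (Set X), IsBase U B ∧ #B = c} : Set Cardinal.{u}).Nonempty :=
    ⟨_, {A | A ∈ U}, ⟨fun b hb => hb, fun A hA => ⟨A, hA, subset_rfl⟩⟩, rfl⟩
  exact csInf_mem h

theorem Ch_le {X : Type u} {U : Ultrafilter X} {B : Set (Set X)} (h : IsBase U B) :
    Ch U ≤ #B := csInf_le' ⟨B, h, rfl⟩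

/-- The negation of Galvin's property in terms of bases. -/
theorem exists_of_not_gal {X : Type u} {U : Ultrafilter X} {t m : Cardinal.{u}}
    (h : ¬ Gal U t m) : ∃ (L : Type u) (A : L → Set X), #L = m ∧ (∀ i, A i ∈ U) ∧
      ∀ b ∈ U, #{i | b ⊆ A i} < t := by
  unfold Gal at h
  push Not at h
  obtain ⟨L, A, hL, hA, hS⟩ := h
  refine ⟨L, A, hL, hA, fun b hb => ?_⟩
  by_contra hcon
  rw [not_lt] at hcon
  obtain ⟨S, hS1, hS2⟩ := le_mk_iff_exists_subset.1 hcon
  refine hS S hS2 (mem_of_superset hb ?_)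
  intro x hx
  simp only [mem_iInter]
  intro i hi
  exact hS1 hi hx

/-- A total relation all of whose principal final segments have size at most `c`. -/
theorem card_le_succ_of_total {F : Type v} (r : F → F → Prop) (tot : ∀ f g, r f g ∨ r g f)
    (c : Cardinal.{v}) (hc : ℵ₀ ≤ c) (h : ∀ f, #{g | r f g} ≤ c) : #F ≤ Order.succ c := by
  by_contra hcon
  rw [not_le] at hcon
  obtain ⟨S, hS⟩ := le_mk_iff_exists_set.1 hcon.le
  have key : ∀ f, ∃ s ∈ S, r s f := by
    intro f
    by_contra hno
    push Not at hno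
    have hsub : S ⊆ {g | r f g} := fun s hs => (tot f s).resolve_right (hno s hs)
    have := (mk_le_mk_of_subset hsub).trans (h f)
    rw [hS] at this
    exact absurd this (not_le.2 (Order.lt_succ c))
  have huniv : (univ : Set F) ⊆ ⋃ s : S, {g | r s g} := by
    intro f _
    obtain ⟨s, hs, hr⟩ := key f
    exact mem_iUnion.2 ⟨⟨s, hs⟩, hr⟩
  have h1 : #F ≤ #S * c := by
    calc #F = #(univ : Set F) := mk_univ.symm
      _ ≤ #(⋃ s : S, {g | r s g}) := mk_le_mk_of_subset huniv
      _ ≤ #S * ⨆ s : S, #{g | r s g} := mk_iUnion_le _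
      _ ≤ #S * c := by
        gcongr
        exact ciSup_le' fun s => h s
  rw [hS] at h1
  have h2 : Order.succ c * c ≤ Order.succ c := by
    refine (mul_le_max_of_aleph0_le_left (hc.trans (Order.le_succ c))).trans ?_
    simp [Order.le_succ]
  exact absurd (h1.trans h2) (not_le.2 hcon)

/-- If a set is covered by the members of a family indexed by `J`, each of size at most `c`. -/
theorem mk_le_mul_of_cover {F : Type u} {J : Type u} (G : Set F) (S : J → Set F) (c : Cardinal.{u})
    (h : ∀ g ∈ G, ∃ j, g ∈ S j) (hc : ∀ j, #(S j) ≤ c) : #G ≤ #J * c := by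
  have hsub : G ⊆ ⋃ j, S j := fun g hg => mem_iUnion.2 (h g hg)
  refine (mk_le_mk_of_subset hsub).trans ((mk_iUnion_le _).trans ?_)
  exact mul_le_mul_right (ciSup_le' hc) _

/-- Powers below a strong limit. -/
theorem power_lt_of_strongLimit {l a b : Cardinal.{u}} (hl : l.IsStrongLimit) (ha : a < l)
    (hb : b < l) : a ^ b < l := by
  have h1 : a ^ b ≤ (2 ^ a) ^ b := power_le_power_right (cantor a).le
  rw [← power_mul] at h1
  exact h1.trans_lt (hl.isStrongPrelimit (mul_lt_of_lt hl.aleph0_le ha hb))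

/-- Closed initial segments are small. -/
theorem mk_Iic_lt {W : Type u} [LinearOrder W] [WellFoundedLT W] (h0 : ℵ₀ ≤ #W)
    (h : ord #W = Ordinal.type (α := W) (· < ·)) (i : W) : #(Iic i) < #W := by
  have h1 : #(Iio i) < #W := mk_Iio_lt i h
  have h2 : Iic i = insert i (Iio i) := by
    ext j; simp [le_iff_eq_or_lt]
  rw [h2]
  refine (mk_insert_le).trans_lt ?_
  exact add_lt_of_lt h0 h1 (one_lt_aleph0.trans_le h0)

end Pool.Agent.Lib.MP_f5d53e_lc
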