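import Pool.Agent.Lib.MP_f5d53e_lc.Basic

namespace Pool.Agent.Lib.MP_f5d53e_lc

universe u v

open Cardinal Set Filter

set_option maxHeartbeats 200000

/-- Functions `g` captured by one set `b`. -/
theorem count_one {X : Type u} {I : Type u} {L : I → Type u} (A : ∀ i, L i → Set X)
    (t : Cardinal.{u}) (P : I → Set X) (hP : ∀ i, #{ξ | P i ⊆ A i ξ} ≤ t)
    (S : Set (∀ i, L i)) (hS : ∀ g ∈ S, ∀ i, P i ⊆ A i (g i)) : #S ≤ t ^ #I := by
  have hinj : #S ≤ #(∀ i, {ξ | P i ⊆ A i ξ}) := by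
    refine mk_le_of_injective
      (f := fun (g : S) (i : I) => (⟨g.1 i, hS g.1 g.2 i⟩ : {ξ | P i ⊆ A i ξ})) ?_
    intro g g' h
    apply Subtype.ext
    funext i
    exact congrArg Subtype.val (congrFun h i)
  refine hinj.trans ?_
  rw [mk_pi]
  exact (prod_le_prod _ _ fun i => hP i).trans (prod_const' I t).le

/-- Counting lemma: functions `g` which are captured along sets `P i` of the ultrafilter. -/
theorem count_capture {X : Type u} {I : Type u} {L : I → Type u} (A : ∀ i, L i → Set X)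
    (t : Cardinal.{u}) (U : Ultrafilter X) (hA : ∀ i, ∀ b ∈ U, #{ξ | b ⊆ A i ξ} ≤ t)
    (B : Set (Set X)) (hB : IsBase U B)
    (P : I → Set X) (hP : ∀ i, P i ∈ U)
    (G : Set (∀ i, L i)) (hG : ∀ g ∈ G, {x | ∀ i, x ∈ P i → x ∈ A i (g i)} ∈ U) :
    #G ≤ #B * t ^ #I := by
  refine mk_le_mul_of_cover G
    (fun b : B => {g | ∀ x ∈ (b : Set X), ∀ i, x ∈ P i → x ∈ A i (g i)}) _ ?_ ?_
  · intro g hg
    obtain ⟨b, hb, hb'⟩ := hB.2 _ (hG g hg)
    exact ⟨⟨b, hb⟩, fun x hx => hb' hx⟩
  · intro b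
    refine count_one A t (fun i => (b : Set X) ∩ P i)
      (fun i => hA i _ (Filter.inter_mem (hB.1 _ b.2) (hP i))) _ ?_
    intro g hg i x hx
    exact hg x hx.1 i hx.2

/-- The main counting theorem. -/
theorem card_pi_le {X : Type u} {I : Type u} [LinearOrder I] {L : I → Type u}
    (A : ∀ i, L i → Set X) (t : Cardinal.{u})
    (U : Ultrafilter X) (hA : ∀ i, ∀ b ∈ U, #{ξ | b ⊆ A i ξ} ≤ t)
    (B : Set (Set X)) (hB : IsBase U B)
    (hcomp : ∀ (f : ∀ i, L i) (i : I), {x | ∀ j ≤ i, x ∈ A j (f j)} ∈ U)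
    (hinf : ℵ₀ ≤ #B * t ^ #I) :
    #(∀ i, L i) ≤ Order.succ (#B * t ^ #I) := by
  let T : (∀ i, L i) → X → Set I := fun f x => {i | ∀ j ≤ i, x ∈ A j (f j)}
  have hlow : ∀ f x, IsLowerSet (T f x) := by
    intro f x i j hji hi k hk
    exact hi k (hk.trans hji)
  refine card_le_succ_of_total (fun f g => {x | T f x ⊆ T g x} ∈ U) ?_ _ hinf ?_
  · intro f g
    by_cases h : {x | T f x ⊆ T g x} ∈ U
    · exact Or.inl h
    · right
      have h' : {x | T f x ⊆ T g x}ᶜ ∈ U := Ultrafilter.compl_mem_iff_notMem.2 h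
      refine mem_of_superset h' ?_
      intro x hx
      exact ((hlow f x).total (hlow g x)).resolve_left hx
  · intro f
    refine count_capture A t U hA B hB (fun i => {x | i ∈ T f x}) (fun i => hcomp f i) _ ?_
    intro g hg
    refine mem_of_superset hg ?_
    intro x hx i hi
    exact hx hi i le_rfl

/-- If Galvin's property fails for `t, m` then a base has at least `m` members up to `t`. -/
theorem le_mul_of_not_gal {X : Type u} (U : Ultrafilter X) {t m : Cardinal.{u}}
    (h : ¬ Gal U t m) (B : Set (Set X)) (hB : IsBase U B) : m ≤ #B * t := by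
  obtain ⟨L, A, hL, hA, hx⟩ := exists_of_not_gal h
  rw [← hL, ← mk_univ (α := L)]
  refine mk_le_mul_of_cover univ (fun b : B => {i | (b : Set X) ⊆ A i}) _ ?_ ?_
  · intro i _
    obtain ⟨b, hb, hb'⟩ := hB.2 _ (hA i)
    exact ⟨⟨b, hb⟩, hb'⟩
  · intro b
    exact (hx b (hB.1 _ b.2)).le

theorem le_mk_base {X : Type u} (U : Ultrafilter X) {l t : Cardinal.{u}}
    (hl : l.IsStrongLimit) (ht : t < l) (hreg : ∀ m < l, ¬ Gal U t m)
    (B : Set (Set X)) (hB : IsBase U B) : l ≤ #B := by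
  by_contra hcon
  rw [not_le] at hcon
  have hlim := hl.isSuccLimit
  have hmul : #B * t < l := mul_lt_of_lt hl.aleph0_le hcon ht
  have h1 := le_mul_of_not_gal U (hreg _ (hlim.succ_lt hmul)) B hB
  exact absurd h1 (not_le.2 (Order.lt_succ _))

/-- If Galvin's property fails for all `m` below a strong limit singular cardinal. -/
theorem two_power_le_succ_base {X : Type u} (U : Ultrafilter X) {l t : Cardinal.{u}}
    (hl : l.IsStrongLimit) (hs : l.ord.cof < l)
    (hU : CardinalInterFilter (U : Filter X) l.ord.cof)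
    (ht : t < l) (hreg : ∀ m < l, ¬ Gal U t m)
    (B : Set (Set X)) (hB : IsBase U B) : 2 ^ l ≤ Order.succ #B := by
  have hal := hl.aleph0_le
  have hlB := le_mk_base U hl ht hreg B hB
  -- a cofinal sequence
  obtain ⟨s, hs1, hs2⟩ := Ordinal.exists_ord_cof_eq l.ord.ToType
  rw [Ordinal.cof_toType] at hs2
  have hcard : #s = l.ord.cof := by
    have := congrArg Ordinal.card hs2
    simpa using this
  have hcofinf : ℵ₀ ≤ l.ord.cof :=
    Ordinal.aleph0_le_cof_iff.2 (Ordinal.one_lt_cof_iff.2 (isSuccLimit_ord hal))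
  have hini : ∀ i : s, #(Iic i) < l.ord.cof := by
    intro i
    have := mk_Iic_lt (W := s) (by rw [hcard]; exact hcofinf) (by rw [hcard, hs2]) i
    rwa [hcard] at this
  have hini' : ∀ a : l.ord.ToType, #(Iic a) < l := by
    intro a
    have := mk_Iic_lt (W := l.ord.ToType) (by simpa using hal) (by simp) a
    simpa using this
  -- the index types
  have hidx : ∀ i : s, ∃ (L : Type u) (A : L → Set X), #L = #(Set (Iic (i : l.ord.ToType))) ∧
      (∀ j, A j ∈ U) ∧ ∀ b ∈ U, #{j | b ⊆ A j} < t := by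
    intro i
    refine exists_of_not_gal (hreg _ ?_)
    rw [mk_set]
    exact hl.isStrongPrelimit (hini' i)
  choose L A hL hA hx using hidx
  have e : ∀ i : s, Nonempty (Set (Iic (i : l.ord.ToType)) ≃ L i) := fun i =>
    Cardinal.eq.1 (hL i).symm
  replace e : ∀ i : s, Set (Iic (i : l.ord.ToType)) ≃ L i := fun i => Classical.choice (e i)
  have hpi : #(Set l.ord.ToType) ≤ #(∀ i, L i) := by
    refine mk_le_of_injective
      (f := fun (S : Set l.ord.ToType) (i : s) => e i {a | (a : l.ord.ToType) ∈ S}) ?_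
    intro S S' h
    ext a
    obtain ⟨b, hb, hab⟩ := hs1 a
    have h1 := (e ⟨b, hb⟩).injective (congrFun h ⟨b, hb⟩)
    have h2 := Set.ext_iff.1 h1 ⟨a, hab⟩
    exact h2
  have hpow : t ^ #s < l := by
    rw [hcard]
    exact power_lt_of_strongLimit hl ht hs
  have hprod : #B * t ^ #s ≤ #B := by
    refine (mul_le_max_of_aleph0_le_left (hal.trans hlB)).trans ?_
    exact max_le le_rfl (hpow.le.trans hlB)
  have htne : t ^ #s ≠ 0 := by
    obtain ⟨L0, A0, -, -, h0⟩ := exists_of_not_gal (hreg 0 (aleph0_pos.trans_le hal))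
    exact power_ne_zero _ (pos_of_gt (h0 univ Filter.univ_mem)).ne'
  have hmain := card_pi_le A t U (fun i b hb => (hx i b hb).le) B hB ?_ ?_
  · have h2 : (2 : Cardinal.{u}) ^ l = #(Set l.ord.ToType) := by simp
    rw [h2]
    exact (hpi.trans hmain).trans (Order.succ_le_succ hprod)
  · intro f i
    have h3 : {x | ∀ j ≤ i, x ∈ A j (f j)} = ⋂ j, ⋂ _ : j ∈ Iic i, A j (f j) := by
      ext x; simp
    rw [h3]
    have := hU
    exact (Filter.cardinal_bInter_mem (hini i)).2 fun j _ => hA j (f j)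
  · refine (hal.trans hlB).trans ?_
    exact le_mul_right htne

end Pool.Agent.Lib.MP_f5d53e_lc
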