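import Pool.Agent.Lib.MP_f5d53e_lc.PDefs

/-! Row fd5-KP: the theorem of Kunen and Prikry. -/

namespace Pool.Agent.Lib.MP_f5d53e_lc

universe u

open Cardinal Set Filter

/-- Let `e α` be an injection of `Iio α` into `κ.ord.ToType`, for `α` in `(succ κ).ord.ToType`. If all functions to
`κ.ord.ToType` are bounded modulo `U`, there is for every `β` a `ξ β` with `β < f x`, `e (f x) β < ξ β` for almost all `x`. Take
`κ` many `β i` with the same `ξ`, and `g x` a strict bound of all `i` with `β i < f x`, `e (f x) (β i) < ξ` (fewer than `κ`). -/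
theorem kunen_prikry {X : Type u} (U : Ultrafilter X) {κ : Cardinal.{u}} (hκ : κ.IsRegular)
    (f : X → (Order.succ κ).ord.ToType) (hf : ∀ η, ∀ᶠ x in (U : Filter X), η < f x) :
    ∃ g : X → κ.ord.ToType, ∀ η, ∀ᶠ x in (U : Filter X), η < g x := by
  classical
  by_contra hcon
  push Not at hcon
  have hK : #κ.ord.ToType = κ := mk_ord_toType κ
  have hW : #(Order.succ κ).ord.ToType = Order.succ κ := mk_ord_toType _
  have hκ0 : ℵ₀ ≤ κ := hκ.aleph0_le
  have hne : Nonempty κ.ord.ToType := by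
    rw [← Cardinal.mk_ne_zero_iff, hK]
    exact (aleph0_pos.trans_le hκ0).ne'
  -- injections
  have he : ∀ α : (Order.succ κ).ord.ToType, ∃ e : Iio α → κ.ord.ToType, Function.Injective e := by
    intro α
    have h1 : #(Iio α) < Order.succ κ := by simpa using mk_Iio_lt α
    have h2 : #(Iio α) ≤ #κ.ord.ToType := by
      rw [hK]
      exact Order.lt_succ_iff.1 h1
    obtain ⟨e⟩ := Cardinal.le_def _ _ |>.1 h2
    exact ⟨e, e.injective⟩
  choose e he using he
  obtain ⟨k0⟩ := hne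
  have hξ : ∀ β : (Order.succ κ).ord.ToType, ∃ ξ : κ.ord.ToType, ∀ᶠ x in (U : Filter X),
      ∃ hx : β < f x, e (f x) ⟨β, hx⟩ ≤ ξ := by
    intro β
    obtain ⟨η, hη⟩ := hcon (fun x => if hx : β < f x then e (f x) ⟨β, hx⟩ else k0)
    refine ⟨η, ?_⟩
    filter_upwards [hη, hf β] with x h1 h2
    rw [dif_pos h2] at h1
    exact ⟨h2, h1⟩
  choose ξ hξ using hξ
  obtain ⟨ξ0, h0⟩ := Cardinal.infinite_pigeonhole_card_lt ξ (by
    rw [hK, hW]
    exact Order.lt_succ κ) (by
    rw [hW]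
    exact hκ0.trans (Order.le_succ κ))
  obtain ⟨j⟩ := Cardinal.le_def _ _ |>.1 h0.le
  -- the bounds
  have hb : ∀ x : X, ∃ b : κ.ord.ToType, ∀ i : κ.ord.ToType,
      (∃ hx : (j i : (Order.succ κ).ord.ToType) < f x, e (f x) ⟨j i, hx⟩ ≤ ξ0) → i < b := by
    intro x
    by_contra hno
    push Not at hno
    have hcof : IsCofinal {i : κ.ord.ToType |
        ∃ hx : (j i : (Order.succ κ).ord.ToType) < f x, e (f x) ⟨j i, hx⟩ ≤ ξ0} := by
      intro b
      obtain ⟨i, hi, hbi⟩ := hno b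
      exact ⟨i, hi, hbi⟩
    have h1 := Order.cof_le hcof
    rw [Ordinal.cof_toType, hκ.cof_ord] at h1
    have h2 : #{i : κ.ord.ToType |
        ∃ hx : (j i : (Order.succ κ).ord.ToType) < f x, e (f x) ⟨j i, hx⟩ ≤ ξ0} ≤ #(Iic ξ0) := by
      refine Cardinal.mk_le_of_injective (f := fun i => ⟨e (f x) ⟨j i.1, i.2.choose⟩,
        i.2.choose_spec⟩) ?_
      intro a b hab
      have h3 := he (f x) (congrArg Subtype.val hab)
      have h4 : (j a.1).1 = (j b.1).1 := congrArg (fun z : Iio (f x) => z.1) h3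
      exact Subtype.ext (j.injective (Subtype.ext h4))
    have h5 : #(Iic ξ0) < κ := by
      have h6 : #(Iic ξ0) ≤ #(Iio ξ0) + 1 := by
        rw [← Set.Iio_union_right]
        refine (Cardinal.mk_union_le _ _).trans ?_
        simp
      have h7 : #(Iio ξ0) < κ := by simpa using mk_Iio_lt ξ0
      exact h6.trans_lt (Cardinal.add_lt_of_lt hκ0 h7 (one_lt_aleph0.trans_le hκ0))
    exact absurd (h1.trans h2) (not_le.2 h5)
  choose g hg using hb
  obtain ⟨η, hη⟩ := hcon g
  have h8 : ξ (j η) = ξ0 := (j η).2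
  obtain ⟨x, h9, h10⟩ := ((hξ (j η)).and hη).exists
  rw [h8] at h9
  exact absurd (hg x η h9) (not_lt.2 h10)

end Pool.Agent.Lib.MP_f5d53e_lc
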