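import Pool.Agent.Lib.MP_f5d53e_lc.PDefs

/-! Row fd5-Unb: unbounded functions. -/

namespace Pool.Agent.Lib.MP_f5d53e_lc

universe u

open Cardinal Set Filter

/-- The sets `{x | ξ < f x}` witness the failure of Galvin's property. -/
theorem not_gal_of_unbounded {X : Type u} (U : Ultrafilter X) {c : Cardinal.{u}} (hc : c.IsRegular)
    (f : X → c.ord.ToType) (hf : ∀ η, ∀ᶠ x in (U : Filter X), η < f x) : ¬ Gal U c c := by
  intro hG
  obtain ⟨S, hS, hSU⟩ := hG c.ord.ToType (fun ξ => {x | ξ < f x}) (mk_ord_toType c) hf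
  obtain ⟨x, hx⟩ := U.nonempty_of_mem hSU
  have hsub : S ⊆ Iio (f x) := by
    intro ξ hξ
    exact (mem_iInter₂.1 hx) ξ hξ
  have h1 : #S ≤ #(Iio (f x)) := mk_le_mk_of_subset hsub
  have h2 : #(Iio (f x)) < c := mk_Iio_ord_toType (f x)
  rw [hS] at h1
  exact absurd (h1.trans_lt h2) (lt_irrefl c)

/-- The least size `η` of an image `f '' A`, `A ∈ U`. -/
theorem exists_unbounded {X : Type u} (U : Ultrafilter X) {θ l : Cardinal.{u}} (hθ : ℵ₀ ≤ θ) {Z : Type u}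
    (hZ : #Z < l) (f : X → Z) (h : ∀ A ∈ U, θ < #(f '' A)) :
    ∃ η, θ < η ∧ η < l ∧ ∃ g : X → η.ord.ToType, ∀ ξ, ∀ᶠ x in (U : Filter X), ξ < g x := by
  have hne : ({c | ∃ A ∈ U, #(f '' A) = c} : Set Cardinal.{u}).Nonempty :=
    ⟨_, univ, univ_mem, rfl⟩
  obtain ⟨A, hA, hAη⟩ := csInf_mem hne
  set η : Cardinal.{u} := sInf {c | ∃ A ∈ U, #(f '' A) = c} with hη
  have hmin : ∀ B ∈ U, η ≤ #(f '' B) := fun B hB => csInf_le' ⟨B, hB, rfl⟩
  have hθη : θ < η := by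
    rw [← hAη]
    exact h A hA
  have hη0 : ℵ₀ ≤ η := hθ.trans hθη.le
  refine ⟨η, hθη, ?_, ?_⟩
  · rw [← hAη]
    exact (mk_set_le _).trans_lt hZ
  have hcard : #(f '' A) = #(η.ord.ToType) := by rw [hAη, mk_ord_toType]
  obtain ⟨e⟩ := Cardinal.eq.1 hcard
  haveI : NoMaxOrder η.ord.ToType := Cardinal.noMaxOrder hη0
  have hnz : #(η.ord.ToType) ≠ 0 := by
    rw [mk_ord_toType]
    exact (aleph0_pos.trans_le hη0).ne'
  haveI : Nonempty η.ord.ToType := mk_ne_zero_iff.1 hnz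
  classical
  refine ⟨fun x => if hx : f x ∈ f '' A then e ⟨f x, hx⟩ else Classical.arbitrary _, fun ξ => ?_⟩
  by_contra hcon
  have hcon2 : ∀ᶠ x in (U : Filter X), ¬ ξ <
      (if hx : f x ∈ f '' A then e ⟨f x, hx⟩ else Classical.arbitrary _) :=
    Ultrafilter.eventually_not.2 hcon
  have hB : A ∩ {x | ¬ ξ < (if hx : f x ∈ f '' A then e ⟨f x, hx⟩ else Classical.arbitrary _)} ∈ U :=
    Filter.inter_mem hA hcon2
  have h1 := hmin _ hB
  obtain ⟨ξ', hξ'⟩ := exists_gt ξ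
  have h2 : #(f '' (A ∩ {x | ¬ ξ < (if hx : f x ∈ f '' A then e ⟨f x, hx⟩ else
      Classical.arbitrary _)})) ≤ #(Iio ξ') := by
    refine mk_le_of_injective (f := fun z => ⟨e ⟨z.1, ?_⟩, ?_⟩) ?_
    · obtain ⟨x, hx, hxz⟩ := z.2
      exact ⟨x, hx.1, hxz⟩
    · obtain ⟨x, hx, hxz⟩ := z.2
      have hxA : f x ∈ f '' A := ⟨x, hx.1, rfl⟩
      have h3 := hx.2
      rw [mem_setOf_eq, dif_pos hxA, not_lt] at h3
      have h4 : (⟨z.1, ⟨x, hx.1, hxz⟩⟩ : f '' A) = ⟨f x, hxA⟩ := Subtype.ext hxz.symm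
      rw [mem_Iio, h4]
      exact h3.trans_lt hξ'
    · intro z w hzw
      have h5 := congrArg Subtype.val hzw
      have h6 := e.injective h5
      have h7 := congrArg Subtype.val h6
      exact Subtype.ext h7
  exact absurd ((h1.trans h2).trans_lt (mk_Iio_ord_toType ξ')) (lt_irrefl η)

end Pool.Agent.Lib.MP_f5d53e_lc
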