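import Pool.Agent.Lib.MP_f5d53e_lc.PDefs

/-! Row fd5-Silver: the finest partition of an indecomposable ultrafilter. -/

namespace Pool.Agent.Lib.MP_f5d53e_lc

universe u

open Cardinal Set Filter

private theorem silver_small {X : Type u} (U : Ultrafilter X) {l θ : Cardinal.{u}}
    (h0 : ℵ₀ ≤ θ) {T : Type u} (hT : #T = θ)
    (h : ∀ (Z : Type u), #Z < l → ∀ f : X → Z, ∃ A ∈ U, #(f '' A) ≤ θ)
    {Y : Type u} (π : X → Y)
    (hno : ¬ ∀ (Z : Type u), #Z < l → ∀ f : X → Z, ∃ g : Y → Z,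
      ∀ᶠ x in (U : Filter X), f x = g (π x)) :
    ∃ f' : X → T, ∀ g : Y → T, ¬ ∀ᶠ x in (U : Filter X), f' x = g (π x) := by
  classical
  push Not at hno
  obtain ⟨Z, hZ, f, hf⟩ := hno
  obtain ⟨A, hA, hAc⟩ := h Z hZ f
  rw [← hT, Cardinal.le_def] at hAc
  obtain ⟨e⟩ := hAc
  have hTne : Nonempty T := by
    rw [← mk_ne_zero_iff, hT]
    exact (aleph0_pos.trans_le h0).ne'
  obtain ⟨t0⟩ := hTne
  obtain ⟨x0⟩ : Nonempty X := U.nonempty_of_mem hA |>.to_type
  refine ⟨fun x => if hx : x ∈ A then e ⟨f x, mem_image_of_mem f hx⟩ else t0, ?_⟩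
  intro g' hg'
  let g : Y → Z := fun y => if hy : ∃ z : (f '' A : Set Z), e z = g' y then (hy.choose : Z) else f x0
  suffices hs : ∀ᶠ x in (U : Filter X), f x = g (π x) by
    obtain ⟨x, hx1, hx2⟩ := (hs.and (hf g)).exists
    exact hx2 hx1
  filter_upwards [hg', hA] with x hx hxA
  have hx' : e ⟨f x, mem_image_of_mem f hxA⟩ = g' (π x) := by
    simpa [hxA] using hx
  have hy : ∃ z : (f '' A : Set Z), e z = g' (π x) := ⟨_, hx'⟩
  have h1 : g (π x) = (hy.choose : Z) := by
    simp only [g]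
    rw [dif_pos hy]
  have h2 : hy.choose = ⟨f x, mem_image_of_mem f hxA⟩ := by
    apply e.injective
    rw [hy.choose_spec, hx']
  rw [h1, h2]

/-- If every function from `X` to a set of size `< l` has at most `θ < l` values on a set of `U`, then all such functions are
functions of one `π : X → Y`, `#Y < l`, modulo `U`. Proof: otherwise there are `F i : X → θ`, `i < θ⁺` (well-founded
recursion) such that `F i` is not a function of `(F j) (j < i)` modulo `U` (a set with at most `θ ^ θ = 2 ^ θ < l` elements). The map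
`Φ = (F i) (i < θ⁺)` has at most `θ` values on some `A ∈ U`; there is `i < θ⁺` above indices where these values
differ, so on `A` the map `(F j) (j < i)` determines `Φ`, in particular `F i`. -/
theorem exists_finest {X : Type u} (U : Ultrafilter X) {l θ : Cardinal.{u}} (hl : l.IsStrongLimit)
    (hθ : θ < l) (h0 : ℵ₀ ≤ θ)
    (h : ∀ (Z : Type u), #Z < l → ∀ f : X → Z, ∃ A ∈ U, #(f '' A) ≤ θ) :
    ∃ (Y : Type u) (π : X → Y), #Y < l ∧
      ∀ (Z : Type u), #Z < l → ∀ f : X → Z, ∃ g : Y → Z, ∀ᶠ x in (U : Filter X), f x = g (π x) := by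
  classical
  by_contra hno
  push Not at hno
  have hno' : ∀ (Y : Type u) (π : X → Y), #Y < l → ¬ ∀ (Z : Type u), #Z < l → ∀ f : X → Z,
      ∃ g : Y → Z, ∀ᶠ x in (U : Filter X), f x = g (π x) := by
    intro Y π hY hcon
    obtain ⟨Z, hZ, f, hf⟩ := hno Y π hY
    obtain ⟨g, hg⟩ := hcon Z hZ f
    obtain ⟨x, hx1, hx2⟩ := (hg.and (hf g)).exists
    exact hx2 hx1
  obtain ⟨T, hT⟩ : ∃ T : Type u, #T = θ := ⟨θ.out, mk_out θ⟩
  let W : Type u := (Order.succ θ).ord.ToType
  have hWc : #W = Order.succ θ := mk_ord_toType _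
  have hW0 : ℵ₀ ≤ #W := by rw [hWc]; exact h0.trans (Order.le_succ θ)
  have hWt : ord #W = Ordinal.type (α := W) (· < ·) := by
    rw [hWc, Ordinal.type_toType]
  have hsl : Order.succ θ < l := by
    refine lt_of_le_of_lt (Order.succ_le_of_lt (cantor θ)) (hl.isStrongPrelimit hθ)
  have hIic : ∀ i : W, #(Iic i) ≤ θ := by
    intro i
    have := mk_Iic_lt hW0 hWt i
    rw [hWc] at this
    exact Order.lt_succ_iff.1 this
  have hIio : ∀ i : W, #(Iio i) ≤ θ := fun i =>
    (mk_le_mk_of_subset Iio_subset_Iic_self).trans (hIic i)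
  have hstep : ∀ (i : W) (prev : ∀ j, j < i → X → T), ∃ f' : X → T,
      ∀ g : (Iio i → T) → T, ¬ ∀ᶠ x in (U : Filter X), f' x = g (fun j => prev j.1 j.2 x) := by
    intro i prev
    refine silver_small U h0 hT h (Y := (Iio i → T)) (fun x j => prev j.1 j.2 x) (hno' _ _ ?_)
    have h1 : #(Iio i → T) = #T ^ #(Iio i) := by simp
    rw [h1, hT]
    exact power_lt_of_strongLimit hl hθ ((hIio i).trans_lt hθ)
  let F : W → X → T := WellFounded.fix (wellFounded_lt : WellFounded ((· < ·) : W → W → Prop))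
    (fun i prev => Classical.choose (hstep i prev))
  have hF : ∀ (i : W) (g : (Iio i → T) → T),
      ¬ ∀ᶠ x in (U : Filter X), F i x = g (fun j => F j.1 x) := by
    intro i
    have h1 : F i = Classical.choose (hstep i (fun j _ => F j)) :=
      WellFounded.fix_eq _ _ i
    intro g
    have h2 := Classical.choose_spec (hstep i (fun j _ => F j)) g
    rw [← h1] at h2
    exact h2
  let Φ : X → (W → T) := fun x i => F i x
  have hΦc : #(W → T) < l := by
    have h1 : #(W → T) = #T ^ #W := by simp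
    rw [h1, hT, hWc]
    exact power_lt_of_strongLimit hl hθ hsl
  obtain ⟨A, hA, hAc⟩ := h (W → T) hΦc Φ
  have hWne : Nonempty W := by
    rw [← mk_ne_zero_iff, hWc]
    exact (aleph0_pos.trans_le (h0.trans (Order.le_succ θ))).ne'
  obtain ⟨w0⟩ := hWne
  have hk : ∀ p : (Φ '' A) × (Φ '' A), ∃ j : W, p.1.1 ≠ p.2.1 → p.1.1 j ≠ p.2.1 j := by
    intro p
    by_cases hp : p.1.1 = p.2.1
    · exact ⟨w0, fun hh => absurd hp hh⟩
    · obtain ⟨j, hj⟩ := Function.ne_iff.1 hp
      exact ⟨j, fun _ => hj⟩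
  choose k hk using hk
  obtain ⟨i, hi⟩ : ∃ i : W, ∀ p, k p < i := by
    by_contra hcon
    push Not at hcon
    have h1 := mk_le_mul_of_cover (univ : Set W) (fun p => Iic (k p)) θ
      (fun i _ => by obtain ⟨p, hp⟩ := hcon i; exact ⟨p, hp⟩) (fun p => hIic (k p))
    rw [mk_univ, hWc] at h1
    have h2 : #((Φ '' A) × (Φ '' A)) ≤ θ * θ := by
      rw [mk_prod, lift_id]
      exact mul_le_mul' hAc hAc
    have h3 : #((Φ '' A) × (Φ '' A)) * θ ≤ θ := by
      refine (mul_le_mul' h2 le_rfl).trans ?_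
      rw [mul_eq_self h0, mul_eq_self h0]
    exact absurd (h1.trans h3) (not_le.2 (Order.lt_succ θ))
  have hTne : Nonempty T := by
    rw [← mk_ne_zero_iff, hT]
    exact (aleph0_pos.trans_le h0).ne'
  obtain ⟨t0⟩ := hTne
  let g : (Iio i → T) → T := fun q =>
    if hq : ∃ v : (Φ '' A : Set (W → T)), (fun j : Iio i => v.1 j.1) = q then hq.choose.1 i else t0
  refine hF i g ?_
  filter_upwards [hA] with x hx
  let v : (Φ '' A : Set (W → T)) := ⟨Φ x, mem_image_of_mem Φ hx⟩
  have hq : ∃ v : (Φ '' A : Set (W → T)), (fun j : Iio i => v.1 j.1) = (fun j : Iio i => F j.1 x) :=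
    ⟨v, rfl⟩
  have h1 : g (fun j => F j.1 x) = hq.choose.1 i := by
    simp only [g]
    rw [dif_pos hq]
  have h2 : hq.choose.1 = v.1 := by
    by_contra hne
    have h3 := hk (hq.choose, v) hne
    have h4 := congrFun hq.choose_spec ⟨k (hq.choose, v), hi _⟩
    exact h3 h4
  rw [h1, h2]

end Pool.Agent.Lib.MP_f5d53e_lc
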