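import Pool.Agent.Lib.MP_f5d53e_lc.PMain
import Pool.Agent.Lib.MP_f5d53e_lc.BHole
import Pool.Agent.Lib.MP_f5d53e_lc.KPr
import Pool.Agent.Lib.MP_f5d53e_lc.KUnb
import Pool.Agent.Lib.MP_f5d53e_lc.Silver

/-! Row fd5-Fin: the theorem. -/

namespace Pool.Agent.Lib.MP_f5d53e_lc

universe u

open Cardinal Set Filter

/-- every regular cardinal between `l` and `2 ^ l` is the cofinality of an ultraproduct of regular cardinals
between `μ0` and `l` -/
theorem exists_cofProd_eq {l μ0 κ : Cardinal.{u}} {o : Ordinal.{u}} (hl : l.IsStrongLimit) (h0 : ℵ₀ < l)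
    (hcof : l.ord.cof = ℵ₀) (ho : l = Cardinal.aleph o) (hoc : o.card < l) (hμ0 : μ0 < l) (hκ : κ.IsRegular)
    (hlκ : l < κ) (hκl : κ ≤ 2 ^ l) :
    ∃ (D : Ultrafilter ℕ) (c : ℕ → Cardinal.{u}), (∀ n, (c n).IsRegular ∧ μ0 < c n ∧ c n < l) ∧
      cofProd D c = κ := by
  obtain ⟨D, c, hc, h⟩ := exists_le_cofProd hl h0 ho hoc hμ0 hκ hlκ
    (hκl.trans (two_power_le_power_aleph0 hl hcof))
  obtain ⟨c', hc', h'⟩ := no_hole hl h0 hμ0 hκ hlκ D c hc h
  exact ⟨D, c', hc', h'⟩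

private theorem Fin_eq_lcf {X : Type u} (U : Ultrafilter X) (q : X → ℕ) (hq : Tendsto q U atTop)
    (D : Ultrafilter ℕ) (c : ℕ → Cardinal.{u}) (hc : ∀ n, (c n).IsRegular)
    (hg : ∀ n, ¬ Gal U (c n) (c n)) (hlt : Ch U < cofProd D c) : cofProd D c = lcf U := by
  have hfam : ∀ n, ∃ A : (c n).ord.ToType → Set X, (∀ ξ, A ξ ∈ U) ∧
      ∀ b ∈ U, ∃ η : (c n).ord.ToType, ∀ ξ, b ⊆ A ξ → ξ < η := fun n =>
    exists_family U (c n) (hc n) (hg n)
  choose A hA hb using hfam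
  have hne : ∀ n, Nonempty (c n).ord.ToType := by
    intro n
    rw [← mk_ne_zero_iff]
    simpa using (hc n).ne_zero
  exact cofProd_eq_lcf U A D hA (Eventually.of_forall fun n => hb n) hne q hq hlt

/-- Otherwise `cofProd_eq_lcf` (see the proof of GalvinScale) gives `lcf U = succ (Ch U)` and
`lcf U = succ (succ (Ch U))`. -/
theorem exists_gal {X : Type u} {o : Ordinal.{u}} (hl : (#X).IsStrongLimit) (h0 : ℵ₀ < #X)
    (hcof : (#X).ord.cof = ℵ₀) (ho : #X = Cardinal.aleph o) (hoc : o.card < #X)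
    (U : Ultrafilter X) (hU : Uniform U) (hch : Order.succ (Ch U) < 2 ^ #X) (μ0 : Cardinal.{u})
    (hμ0 : μ0 < #X) : ∃ c : Cardinal.{u}, c.IsRegular ∧ μ0 < c ∧ c < #X ∧ Gal U c c := by
  by_contra hcon
  push Not at hcon
  obtain ⟨q, hq⟩ := exists_tendsto U hU h0.le hcof
  have hX : #X ≤ Ch U := by
    obtain ⟨B, hB, hBc⟩ := exists_base U
    rw [← hBc]
    exact le_base_of_uniform U hl hU B hB
  have hinf : ℵ₀ ≤ Ch U := h0.le.trans hX
  have key : ∀ κ : Cardinal.{u}, κ.IsRegular → Ch U < κ → κ ≤ 2 ^ #X → κ = lcf U := by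
    intro κ hκ h1 h2
    obtain ⟨D, c, hc, h⟩ := exists_cofProd_eq hl h0 hcof ho hoc hμ0 hκ (hX.trans_lt h1) h2
    rw [← h]
    exact Fin_eq_lcf U q hq D c (fun n => (hc n).1)
      (fun n => hcon (c n) (hc n).1 (hc n).2.1 (hc n).2.2) (by rw [h]; exact h1)
  have e1 := key (Order.succ (Ch U)) (isRegular_succ hinf) (Order.lt_succ _) hch.le
  have e2 := key (Order.succ (Order.succ (Ch U))) (isRegular_succ (hinf.trans (Order.le_succ _)))
    ((Order.lt_succ _).trans (Order.lt_succ _)) (Order.succ_le_of_lt hch)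
  have e3 : Order.succ (Ch U) < Order.succ (Order.succ (Ch U)) := Order.lt_succ _
  rw [e2, ← e1] at e3
  exact lt_irrefl _ e3

private theorem Fin_aleph {o' : Ordinal.{u}} {c : Cardinal.{u}} (h1 : Cardinal.aleph o' < c)
    (h2 : c < Cardinal.aleph (o' + Ordinal.omega0)) : ∃ k : ℕ, c = Cardinal.aleph (o' + ((k + 1 : ℕ) : Ordinal.{u})) := by
  obtain ⟨β, rfl⟩ := mem_range_aleph_iff.mpr ((aleph0_le_aleph o').trans h1.le)
  rw [aleph_lt_aleph] at h1 h2
  obtain ⟨γ, rfl⟩ : ∃ γ, β = o' + γ := ⟨β - o', (Ordinal.add_sub_cancel_of_le h1.le).symm⟩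
  have h3 : γ < Ordinal.omega0 := (add_lt_add_iff_left o').mp h2
  obtain ⟨n, rfl⟩ := Ordinal.lt_omega0.mp h3
  cases n with
  | zero =>
    rw [Nat.cast_zero, add_zero] at h1
    exact absurd h1 (lt_irrefl _)
  | succ k => exact ⟨k, rfl⟩

private theorem Fin_succ (o' : Ordinal.{u}) (k : ℕ) : Cardinal.aleph (o' + ((k + 1 : ℕ) : Ordinal.{u})) =
    Order.succ (Cardinal.aleph (o' + (k : Ordinal.{u}))) := by
  rw [Nat.cast_add, Nat.cast_one, ← add_assoc, succ_aleph]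

private def Fin_Q {X : Type u} (U : Ultrafilter X) (c : Cardinal.{u}) : Prop :=
  ∃ g : X → c.ord.ToType, ∀ η, ∀ᶠ x in (U : Filter X), η < g x

/-- If the image sizes are unbounded in `#X`, there are unbounded functions to `ℵ_ (o' + m)` for infinitely many `m`
(`exists_unbounded`), so for all `m ≥ 1` (`kunen_prikry`), contradicting `exists_gal` (`not_gal_of_unbounded`). -/
theorem exists_bound {X : Type u} {o' : Ordinal.{u}} (hl : (#X).IsStrongLimit) (h0 : ℵ₀ < #X)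
    (hcof : (#X).ord.cof = ℵ₀) (ho : #X = Cardinal.aleph (o' + Ordinal.omega0))
    (U : Ultrafilter X) (hU : Uniform U) (hch : Order.succ (Ch U) < 2 ^ #X) :
    ∃ θ : Cardinal.{u}, ℵ₀ ≤ θ ∧ θ < #X ∧
      ∀ (Z : Type u), #Z < #X → ∀ f : X → Z, ∃ A ∈ U, #(f '' A) ≤ θ := by
  by_contra hcon
  push Not at hcon
  have hoc : (o' + Ordinal.omega0).card < #X := by
    rw [Ordinal.card_add, Ordinal.card_omega0]
    refine add_lt_of_lt hl.aleph0_le ?_ h0
    rw [ho]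
    refine lt_of_le_of_lt ?_ (aleph_lt_aleph.mpr (lt_add_of_pos_right o' Ordinal.omega0_pos))
    rw [← card_ord (Cardinal.aleph o')]
    exact Ordinal.card_le_card ((Ordinal.le_omega_self o').trans (le_of_eq (ord_aleph o').symm))
  have hlt : ∀ k : ℕ, Cardinal.aleph (o' + (k : Ordinal.{u})) < #X := by
    intro k
    rw [ho]
    exact aleph_lt_aleph.mpr ((add_lt_add_iff_left o').mpr (Ordinal.natCast_lt_omega0 k))
  have hQ : ∀ m : ℕ, ∃ k : ℕ, m ≤ k ∧ Fin_Q U (Cardinal.aleph (o' + ((k + 1 : ℕ) : Ordinal.{u}))) := by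
    intro m
    obtain ⟨Z, hZ, f, hf⟩ := hcon (Cardinal.aleph (o' + (m : Ordinal.{u}))) (aleph0_le_aleph _) (hlt m)
    obtain ⟨η, hη1, hη2, g, hg⟩ := exists_unbounded U (aleph0_le_aleph _) hZ f hf
    obtain ⟨k, hk⟩ := Fin_aleph (o' := o') (c := η)
      (lt_of_le_of_lt (aleph_le_aleph.mpr (le_self_add)) hη1) (by rw [← ho]; exact hη2)
    subst hk
    refine ⟨k, ?_, g, hg⟩
    rw [aleph_lt_aleph] at hη1
    have h2 := (add_lt_add_iff_left o').mp hη1
    rw [Nat.cast_lt] at h2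
    omega
  have hdown : ∀ k : ℕ, Fin_Q U (Cardinal.aleph (o' + ((k + 1 + 1 : ℕ) : Ordinal.{u}))) →
      Fin_Q U (Cardinal.aleph (o' + ((k + 1 : ℕ) : Ordinal.{u}))) := by
    rintro k ⟨g, hg⟩
    have hreg : (Cardinal.aleph (o' + ((k + 1 : ℕ) : Ordinal.{u}))).IsRegular := by
      rw [Fin_succ]
      exact isRegular_succ (aleph0_le_aleph _)
    revert g hg
    rw [Fin_succ o' (k + 1)]
    intro g hg
    exact kunen_prikry U hreg g hg
  have hall : ∀ (j k : ℕ), Fin_Q U (Cardinal.aleph (o' + ((k + j + 1 : ℕ) : Ordinal.{u}))) →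
      Fin_Q U (Cardinal.aleph (o' + ((k + 1 : ℕ) : Ordinal.{u}))) := by
    intro j
    induction j with
    | zero => intro k h; exact h
    | succ j ih => intro k h; exact ih k (hdown (k + j) h)
  obtain ⟨c, hc, hc1, hc2, hG⟩ := exists_gal hl h0 hcof ho hoc U hU hch (Cardinal.aleph o') (by
    have := hlt 0
    rwa [Nat.cast_zero, add_zero] at this)
  obtain ⟨k, rfl⟩ := Fin_aleph hc1 (by rw [← ho]; exact hc2)
  obtain ⟨k', hk', h⟩ := hQ k
  obtain ⟨j, rfl⟩ := Nat.exists_eq_add_of_le hk'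
  obtain ⟨g, hg⟩ := hall j k h
  exact not_gal_of_unbounded U hc g hg hG

end Pool.Agent.Lib.MP_f5d53e_lc
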