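import Pool.Agent.Lib.MP_f5d53e_lc.Count

namespace Pool.Agent.Lib.MP_f5d53e_lc

universe u v

open Cardinal Set Filter

set_option maxHeartbeats 400000

/-- The cofinality of the ultraproduct of the cardinals `c n` modulo `D`. -/
noncomputable def cofProd (D : Ultrafilter ℕ) (c : ℕ → Cardinal.{u}) : Cardinal.{u} :=
  sInf {k | ∃ S : Set (∀ n, (c n).ord.ToType), #S = k ∧
    ∀ f : ∀ n, (c n).ord.ToType, ∃ s ∈ S, ∀ᶠ n in (D : Filter ℕ), f n ≤ s n}

/-- `lcf(ω, U)`: the coinitiality of the set of nonstandard elements of the ultrapower of the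
natural numbers by `U`. -/
noncomputable def lcf {X : Type u} (U : Ultrafilter X) : Cardinal.{u} :=
  sInf {k | ∃ S : Set (X → ℕ), #S = k ∧ (∀ s ∈ S, Tendsto s U atTop) ∧
    ∀ h : X → ℕ, Tendsto h U atTop → ∃ s ∈ S, ∀ᶠ x in (U : Filter X), s x ≤ h x}

theorem exists_cofProd (D : Ultrafilter ℕ) (c : ℕ → Cardinal.{u}) :
    ∃ S : Set (∀ n, (c n).ord.ToType), #S = cofProd D c ∧
    ∀ f : ∀ n, (c n).ord.ToType, ∃ s ∈ S, ∀ᶠ n in (D : Filter ℕ), f n ≤ s n := by
  have h : ({k | ∃ S : Set (∀ n, (c n).ord.ToType), #S = k ∧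
    ∀ f : ∀ n, (c n).ord.ToType, ∃ s ∈ S, ∀ᶠ n in (D : Filter ℕ), f n ≤ s n} : Set Cardinal.{u}).Nonempty :=
    ⟨_, univ, rfl, fun f => ⟨f, mem_univ _, Eventually.of_forall fun n => le_rfl⟩⟩
  exact csInf_mem h

theorem exists_lcf {X : Type u} (U : Ultrafilter X) :
    ∃ S : Set (X → ℕ), #S = lcf U ∧ (∀ s ∈ S, Tendsto s U atTop) ∧
    ∀ h : X → ℕ, Tendsto h U atTop → ∃ s ∈ S, ∀ᶠ x in (U : Filter X), s x ≤ h x := by
  have h : ({k | ∃ S : Set (X → ℕ), #S = k ∧ (∀ s ∈ S, Tendsto s U atTop) ∧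
    ∀ h : X → ℕ, Tendsto h U atTop → ∃ s ∈ S, ∀ᶠ x in (U : Filter X), s x ≤ h x} :
      Set Cardinal.{u}).Nonempty :=
    ⟨_, {s | Tendsto s U atTop}, rfl, fun s hs => hs,
      fun h hh => ⟨h, hh, Eventually.of_forall fun n => le_rfl⟩⟩
  exact csInf_mem h

/-- The canonical rank of a function below a sequence of maps, cut off by `q`. -/
noncomputable def rk {X : Type u} (Q : ℕ → X → Prop) (q : X → ℕ) (x : X) : ℕ :=
  open Classical in Nat.findGreatest (fun n => ∀ m < n, Q m x) (q x)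

theorem rk_spec {X : Type u} (Q : ℕ → X → Prop) (q : X → ℕ) (x : X) :
    ∀ m < rk Q q x, Q m x := by
  classical
  have h := Nat.findGreatest_spec (P := fun n => ∀ m < n, Q m x) (n := q x) (Nat.zero_le _)
    (by simp)
  intro m hm
  have : rk Q q x = Nat.findGreatest (fun n => ∀ m < n, Q m x) (q x) := by
    unfold rk
    congr
  rw [this] at hm
  exact h m hm

theorem le_rk {X : Type u} (Q : ℕ → X → Prop) (q : X → ℕ) (x : X) (N : ℕ) (h1 : N ≤ q x)
    (h2 : ∀ m < N, Q m x) : N ≤ rk Q q x := by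
  classical
  have : rk Q q x = Nat.findGreatest (fun n => ∀ m < n, Q m x) (q x) := by
    unfold rk
    congr
  rw [this]
  exact Nat.le_findGreatest h1 h2

theorem tendsto_rk {X : Type u} (U : Ultrafilter X) (Q : ℕ → X → Prop) (q : X → ℕ)
    (hq : Tendsto q U atTop) (hQ : ∀ m, ∀ᶠ x in (U : Filter X), Q m x) :
    Tendsto (rk Q q) U atTop := by
  rw [tendsto_atTop]
  intro N
  have h1 : ∀ᶠ x in (U : Filter X), ∀ m < N, Q m x := by
    have := (Filter.eventually_all_finite (finite_lt_nat N) (l := (U : Filter X))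
      (p := fun m x => Q m x)).2 (fun m _ => hQ m)
    simpa using this
  filter_upwards [h1, (tendsto_atTop.1 hq) N] with x hx hx'
  exact le_rk Q q x N hx' hx

section

variable {X : Type u} (U : Ultrafilter X) {c : ℕ → Cardinal.{u}}
  (A : ∀ n, (c n).ord.ToType → Set X)

/-- Functions captured at level `h` are dominated modulo `D`. -/
theorem bounded_capture (D : Ultrafilter ℕ)
    (hA : ∀ᶠ n in (D : Filter ℕ), ∀ b ∈ U, ∃ η : (c n).ord.ToType, ∀ ξ, b ⊆ A n ξ → ξ < η)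
    (hne : ∀ n, Nonempty (c n).ord.ToType)
    (B : Set (Set X)) (hB : IsBase U B)
    (hlt : #B < cofProd D c) (h : X → ℕ) (hh : Tendsto h U atTop) :
    ∃ g : ∀ n, (c n).ord.ToType, ∀ f : ∀ n, (c n).ord.ToType,
      (∀ᶠ x in (U : Filter X), ∀ m < h x, x ∈ A m (f m)) → ∀ᶠ n in (D : Filter ℕ), f n < g n := by
  have hy : ∀ b : B, ∀ n, ∃ η : (c n).ord.ToType,
      (∀ b ∈ U, ∃ η : (c n).ord.ToType, ∀ ξ, b ⊆ A n ξ → ξ < η) →
        ∀ ξ, ((b : Set X) ∩ {x | n < h x}) ⊆ A n ξ → ξ < η := by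
    intro b n
    by_cases hn : ∀ b ∈ U, ∃ η : (c n).ord.ToType, ∀ ξ, b ⊆ A n ξ → ξ < η
    · have h1 : {x | n < h x} ∈ U := (tendsto_atTop.1 hh) (n + 1)
      obtain ⟨η, hη⟩ := hn _ (Filter.inter_mem (hB.1 _ b.2) h1)
      exact ⟨η, fun _ => hη⟩
    · exact ⟨Classical.choice (hne n), fun h0 => absurd h0 hn⟩
  choose y hy using hy
  by_contra hcon
  push Not at hcon
  have hle : cofProd D c ≤ #(range y) := by
    refine csInf_le' ⟨_, rfl, fun g => ?_⟩
    obtain ⟨f, hf, hfg⟩ := hcon g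
    obtain ⟨b, hb, hb'⟩ := hB.2 _ hf
    refine ⟨_, ⟨⟨b, hb⟩, rfl⟩, ?_⟩
    filter_upwards [hfg, hA] with n hn hn'
    refine hn.trans (hy ⟨b, hb⟩ n hn' (f n) ?_).le
    intro x hx
    exact hb' hx.1 n hx.2
  exact absurd (hle.trans mk_range_le) (not_le.2 hlt)

/-- If the character is below the cofinality of the ultraproduct then that cofinality is
`lcf(ω, U)`. -/
theorem cofProd_eq_lcf (D : Ultrafilter ℕ) (hA0 : ∀ n ξ, A n ξ ∈ U)
    (hA : ∀ᶠ n in (D : Filter ℕ), ∀ b ∈ U, ∃ η : (c n).ord.ToType, ∀ ξ, b ⊆ A n ξ → ξ < η)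
    (hne : ∀ n, Nonempty (c n).ord.ToType)
    (q : X → ℕ) (hq : Tendsto q U atTop) (hlt : Ch U < cofProd D c) :
    cofProd D c = lcf U := by
  obtain ⟨B, hB, hBc⟩ := exists_base U
  rw [← hBc] at hlt
  have hb := fun h hh => bounded_capture U A D hA hne B hB hlt h hh
  let Q : (∀ n, (c n).ord.ToType) → ℕ → X → Prop := fun f m x => x ∈ A m (f m)
  have ht : ∀ f, Tendsto (rk (Q f) q) U atTop := fun f =>
    tendsto_rk U (Q f) q hq fun m => hA0 m (f m)
  apply le_antisymm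
  · -- cofinal family of bounds
    obtain ⟨S, hS, hS1, hS2⟩ := exists_lcf U
    have hg : ∀ s : S, ∃ g : ∀ n, (c n).ord.ToType, ∀ f : ∀ n, (c n).ord.ToType,
        (∀ᶠ x in (U : Filter X), ∀ m < (s : X → ℕ) x, x ∈ A m (f m)) →
          ∀ᶠ n in (D : Filter ℕ), f n < g n := fun s => hb s (hS1 s s.2)
    choose g hg using hg
    have hle : cofProd D c ≤ #(range g) := by
      refine csInf_le' ⟨_, rfl, fun f => ?_⟩
      obtain ⟨s, hs, hs'⟩ := hS2 _ (ht f)
      refine ⟨g ⟨s, hs⟩, ⟨_, rfl⟩, ?_⟩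
      have := hg ⟨s, hs⟩ f (by
        filter_upwards [hs'] with x hx m hm
        exact rk_spec (Q f) q x m (hm.trans_le hx))
      filter_upwards [this] with n hn
      exact hn.le
    exact (hle.trans mk_range_le).trans hS.le
  · obtain ⟨S, hS, hS2⟩ := exists_cofProd D c
    rw [← hS]
    have hle : lcf U ≤ #(range fun s : S => rk (Q s) q) := by
      refine csInf_le' ⟨_, rfl, ?_, ?_⟩
      · rintro _ ⟨s, rfl⟩
        exact ht s
      · intro h hh
        by_contra hno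
        obtain ⟨g, hg⟩ := hb h hh
        obtain ⟨s, hs, hs'⟩ := hS2 g
        have h1 : ¬ ∀ᶠ x in (U : Filter X), rk (Q s) q x ≤ h x := fun h1 =>
          hno ⟨_, ⟨⟨s, hs⟩, rfl⟩, h1⟩
        rw [← Ultrafilter.eventually_not] at h1
        have h2 := hg s (by
          filter_upwards [h1] with x hx m hm
          exact rk_spec (Q s) q x m (hm.trans (not_le.1 hx)))
        obtain ⟨n, hn1, hn2⟩ := (h2.and hs').exists
        exact absurd hn1 (not_lt.2 hn2)
    exact hle.trans mk_range_le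

end

/-- A failure of `Gal(U, c, c)` for a regular `c`, as a family indexed by `c` whose sets of
captured indices are bounded. -/
theorem exists_family {X : Type u} (U : Ultrafilter X) (c : Cardinal.{u}) (hc : c.IsRegular)
    (h : ¬ Gal U c c) : ∃ A : c.ord.ToType → Set X, (∀ ξ, A ξ ∈ U) ∧
      ∀ b ∈ U, ∃ η : c.ord.ToType, ∀ ξ, b ⊆ A ξ → ξ < η := by
  obtain ⟨L, A, hL, hA, hb⟩ := exists_of_not_gal h
  have e : Nonempty (c.ord.ToType ≃ L) := Cardinal.eq.1 (by simp [hL])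
  obtain ⟨e⟩ := e
  refine ⟨fun ξ => A (e ξ), fun ξ => hA _, fun b hbU => ?_⟩
  have h1 : #{ξ | b ⊆ A (e ξ)} < c := by
    refine lt_of_le_of_lt ?_ (hb b hbU)
    refine mk_le_of_injective
      (f := fun ξ : {ξ | b ⊆ A (e ξ)} => (⟨e ξ.1, ξ.2⟩ : {i | b ⊆ A i})) ?_
    intro x y h
    apply Subtype.ext
    exact e.injective (congrArg Subtype.val h)
  by_contra hcon
  push Not at hcon
  have h2 : Order.cof c.ord.ToType ≤ #{ξ | b ⊆ A (e ξ)} := by
    refine Order.cof_le (s := {ξ | b ⊆ A (e ξ)}) ?_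
    intro η
    obtain ⟨ξ, hξ, hη⟩ := hcon η
    exact ⟨ξ, hξ, hη⟩
  rw [Ordinal.cof_toType, hc.cof_ord] at h2
  exact absurd h1 (not_lt.2 h2)

end Pool.Agent.Lib.MP_f5d53e_lc
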