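import Pool.Agent.Lib.MP_f5d53e_lc.PDefs

/-! Row fd5-Chain: the chain of length `ω₁`. -/

namespace Pool.Agent.Lib.MP_f5d53e_lc

universe u

open Cardinal Set Filter

private theorem Chain_mk : #WW.{u} = Cardinal.aleph 1 := Cardinal.mk_ord_toType _

private theorem Chain_Iic (x : WW.{u}) : #(Iic x) ≤ ℵ₀ := by
  have h : #(Iic x) < #WW.{u} := by
    refine mk_Iic_lt ?_ ?_ x
    · rw [Chain_mk]; exact aleph0_le_aleph 1
    · rw [Chain_mk]; exact (Ordinal.type_toType _).symm
  have h' : #(Iic x) < Order.succ ℵ₀ := by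
    rw [succ_aleph0]
    exact h.trans_eq Chain_mk
  exact Order.lt_succ_iff.1 h'

/-- Countably many elements of `WW` have a strict upper bound (`ω₁` is regular). -/
theorem WW_bound (s : ℕ → WW.{u}) : ∃ w, ∀ n, s n < w := by
  have hc : (⋃ n, Iic (s n)).Countable :=
    countable_iUnion fun n => le_aleph0_iff_set_countable.1 (Chain_Iic (s n))
  by_contra hcon
  have hcon' : ∀ w, ∃ n, w ≤ s n := by
    intro w
    by_contra h
    exact hcon ⟨w, fun n => lt_of_not_ge fun h' => h ⟨n, h'⟩⟩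
  have huniv : (univ : Set WW.{u}) ⊆ ⋃ n, Iic (s n) := fun w _ => by
    obtain ⟨n, hn⟩ := hcon' w
    exact mem_iUnion.2 ⟨n, hn⟩
  have h1 : #(univ : Set WW.{u}) ≤ ℵ₀ := le_aleph0_iff_set_countable.2 (hc.mono huniv)
  rw [mk_univ, Chain_mk, ← succ_aleph0] at h1
  exact absurd h1 (not_le.2 (Order.lt_succ _))

/-- The supremum of a strictly increasing sequence of `WW`. -/
theorem WW_sup (s : ℕ → WW.{u}) (hs : StrictMono s) :
    ∃ i, (∀ n, s n < i) ∧ ∀ j < i, ∃ n, j < s n := by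
  have hne : ({w | ∀ n, s n < w} : Set WW.{u}).Nonempty := WW_bound s
  refine ⟨WellFounded.min (wellFounded_lt (α := WW.{u})) _ hne,
    WellFounded.min_mem (wellFounded_lt (α := WW.{u})) _ hne, fun j hj => ?_⟩
  by_contra h
  refine WellFounded.not_lt_min (wellFounded_lt (α := WW.{u})) (x := j)
    ({w | ∀ n, s n < w} : Set WW.{u}) (fun n => ?_) hj
  have h1 : s (n + 1) ≤ j := not_lt.1 fun h' => h ⟨n + 1, h'⟩
  exact (hs (Nat.lt_succ_self n)).trans_le h1

theorem WW_nonempty : Nonempty WW.{u} := by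
  obtain ⟨w, _⟩ : ∃ w : WW.{u}, True := by
    have h : #WW.{u} ≠ 0 := by
      rw [Chain_mk]; exact (aleph_pos 1).ne'
    obtain ⟨w⟩ := mk_ne_zero_iff.1 h
    exact ⟨w, trivial⟩
  exact ⟨w⟩

theorem mk_WW : #WW.{u} = Cardinal.aleph 1 := Chain_mk

namespace PData

variable {L : Type u} [LinearOrder L] [WellFoundedLT L] {μ : Cardinal.{u}} (T : PData L μ)

/-- the recursion equation (`WellFounded.fix_eq`) -/
theorem chain_eq (S0 : Set L) (i : WW.{u}) :
    T.chain S0 i = S0 ∪ ⋃ j : Iio i, T.step (T.chain S0 j) := by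
  unfold chain
  rw [WellFounded.fix_eq]

theorem subset_chain (S0 : Set L) (i : WW.{u}) : S0 ⊆ T.chain S0 i := by
  rw [T.chain_eq]
  exact subset_union_left

theorem step_subset_chain (S0 : Set L) {i j : WW.{u}} (h : j < i) :
    T.step (T.chain S0 j) ⊆ T.chain S0 i := by
  rw [T.chain_eq S0 i]
  exact (subset_iUnion (fun j : Iio i => T.step (T.chain S0 j)) ⟨j, h⟩).trans subset_union_right

private theorem Chain_subset_step (P : Set L) : P ⊆ T.step P := by
  intro x hx
  exact Or.inl (Or.inl (Or.inl hx))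

theorem chain_mono (S0 : Set L) {i j : WW.{u}} (h : j ≤ i) : T.chain S0 j ⊆ T.chain S0 i := by
  rcases h.eq_or_lt with rfl | h
  · exact subset_rfl
  · exact (T.Chain_subset_step _).trans (T.step_subset_chain S0 h)

theorem chain_subset_model (S0 : Set L) (i : WW.{u}) : T.chain S0 i ⊆ T.model S0 :=
  subset_iUnion (fun i => T.chain S0 i) i

/-- `e` is a function of two variables of the model: use the maximum of two stages. -/
theorem e_mem_model (S0 : Set L) {d α : L} (hd : d ∈ T.model S0) (hα : α ∈ T.model S0) :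
    T.e d α ∈ T.model S0 := by
  obtain ⟨i, hi⟩ := mem_iUnion.1 hd
  obtain ⟨j, hj⟩ := mem_iUnion.1 hα
  obtain ⟨w, hw⟩ := WW_bound (fun _ : ℕ => max i j)
  have h1 : d ∈ T.chain S0 (max i j) := T.chain_mono S0 (le_max_left i j) hi
  have h2 : α ∈ T.chain S0 (max i j) := T.chain_mono S0 (le_max_right i j) hj
  refine T.chain_subset_model S0 w (T.step_subset_chain S0 (hw 0) ?_)
  exact Or.inl (Or.inl (Or.inr ⟨(d, α), ⟨h1, h2⟩, rfl⟩))

/-- at a limit stage nothing new appears -/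
theorem exists_mem_chain (S0 : Set L) {i : WW.{u}} {s : ℕ → WW.{u}} (hs : ∀ j < i, ∃ n, j < s n)
    {x : L} (hx : x ∈ T.chain S0 i) : ∃ n, x ∈ T.chain S0 (s n) := by
  rw [T.chain_eq] at hx
  rcases hx with hx | hx
  · exact ⟨0, T.subset_chain S0 _ hx⟩
  · obtain ⟨⟨j, hj⟩, hx⟩ := mem_iUnion.1 hx
    obtain ⟨n, hn⟩ := hs j hj
    exact ⟨n, T.step_subset_chain S0 hn hx⟩

theorem mk_step_le {P : Set L} (hP : #P ≤ μ) : #(T.step P) ≤ μ := by
  have h0 : ℵ₀ ≤ μ := (aleph0_le_aleph 1).trans T.one_le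
  have hadd : ∀ {a b : Cardinal.{u}}, a ≤ μ → b ≤ μ → a + b ≤ μ := fun ha hb => by
    refine (add_le_add ha hb).trans ?_
    rw [add_eq_self h0]
  have hmul : ∀ {a b : Cardinal.{u}}, a ≤ μ → b ≤ μ → a * b ≤ μ := fun ha hb => by
    refine (mul_le_mul' ha hb).trans ?_
    rw [mul_eq_self h0]
  have h1 : #((fun p : L × L => T.e p.1 p.2) '' (P ×ˢ P) : Set L) ≤ μ := by
    refine mk_image_le.trans ?_
    have h2 : #(P ×ˢ P : Set (L × L)) = #P * #P := by
      rw [mk_congr (Equiv.Set.prod P P), mk_prod]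
      simp only [lift_id]
    rw [h2]
    exact hmul hP hP
  have h3 : #(chi P '' T.A : Set L) ≤ μ := by
    refine mk_image_le.trans (le_trans ?_ T.mk_A)
    exact mk_le_of_injective (f := fun a : T.A => fun _ : ℕ => a) fun a b h => congrFun h 0
  have h4 : #({x | ∃ (D : Ultrafilter ℕ) (b : ℕ → T.A) (n : ℕ),
      x = gam D (T.F D b) (fun m => chi P (b m)) n} : Set L) ≤ μ := by
    have h5 : ({x | ∃ (D : Ultrafilter ℕ) (b : ℕ → T.A) (n : ℕ),
        x = gam D (T.F D b) (fun m => chi P (b m)) n} : Set L) ⊆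
        range (fun q : (Ultrafilter ℕ × (ℕ → T.A)) × ℕ =>
          gam q.1.1 (T.F q.1.1 q.1.2) (fun m => chi P (q.1.2 m)) q.2) := by
      rintro x ⟨D, b, n, rfl⟩
      exact ⟨((D, b), n), rfl⟩
    refine (mk_le_mk_of_subset h5).trans (mk_range_le.trans ?_)
    rw [mk_prod, mk_prod]
    refine hmul ?_ ?_
    · simp only [lift_uzero]
      refine hmul ?_ ?_
      · exact T.mk_U
      · exact T.mk_A
    · rw [mk_eq_aleph0, lift_aleph0]
      exact h0
  unfold step
  refine (mk_union_le _ _).trans (hadd ((mk_union_le _ _).trans (hadd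
    ((mk_union_le _ _).trans (hadd hP h1)) h3)) h4)

/-- induction on `i` -/
theorem mk_chain_le {S0 : Set L} (h0 : #S0 ≤ μ) (i : WW.{u}) : #(T.chain S0 i) ≤ μ := by
  have h1 : ℵ₀ ≤ μ := (aleph0_le_aleph 1).trans T.one_le
  induction i using WellFoundedLT.induction with
  | _ i ih =>
    rw [T.chain_eq]
    refine (mk_union_le _ _).trans ?_
    have h2 : #(⋃ j : Iio i, T.step (T.chain S0 j) : Set L) ≤ μ := by
      refine (mk_iUnion_le _).trans ?_
      have h3 : #(Iio i) ≤ μ := by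
        refine (mk_le_mk_of_subset (Iio_subset_Iic_self)).trans ((Chain_Iic i).trans h1)
      have h4 : (⨆ j : Iio i, #(T.step (T.chain S0 j))) ≤ μ := by
        refine ciSup_le' fun j => ?_
        exact T.mk_step_le (ih j.1 j.2)
      refine (mul_le_mul' h3 h4).trans ?_
      rw [mul_eq_self h1]
    refine (add_le_add h0 h2).trans ?_
    rw [add_eq_self h1]

end PData

end Pool.Agent.Lib.MP_f5d53e_lc
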