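import Pool.Agent.Lib.MP_f5d53e_lc.PDefs

/-! Row fd5-Chi: the least strict upper bound `chi P z`; the first member `gam` above `a`. -/

namespace Pool.Agent.Lib.MP_f5d53e_lc

universe u

open Cardinal Set Filter

section

variable {L : Type u} [LinearOrder L] [WellFoundedLT L]

theorem lt_chi {P : Set L} {z α : L} (h : α ∈ P) (hz : α < z) : α < chi P z :=
  WellFounded.min_mem (wellFounded_lt (α := L)) {y | ∀ α ∈ P, α < z → α < y}
    ⟨z, fun _ _ h => h⟩ α h hz

theorem chi_le {P : Set L} {z y : L} (h : ∀ α ∈ P, α < z → α < y) : chi P z ≤ y :=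
  not_lt.1 (WellFounded.not_lt_min (wellFounded_lt (α := L))
    {y | ∀ α ∈ P, α < z → α < y} (x := y) h)

theorem chi_le_self (P : Set L) (z : L) : chi P z ≤ z :=
  chi_le fun _ _ h => h

theorem chi_mono {P Q : Set L} (h : P ⊆ Q) (z : L) : chi P z ≤ chi Q z :=
  chi_le fun _ hα hz => lt_chi (h hα) hz

/-- an element below the least strict upper bound is at most some member of `P` -/
theorem exists_of_lt_chi {P : Set L} {z y : L} (h : y < chi P z) : ∃ α ∈ P, α < z ∧ y ≤ α := by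
  by_contra hcon
  push Not at hcon
  exact absurd (chi_le (P := P) (z := z) (y := y) hcon) (not_le.2 h)

theorem chi_lt {μ : Cardinal.{u}} {P : Set L} {z : L} (hz : RegPt μ z) (hP : #P ≤ μ) :
    chi P z < z := by
  obtain ⟨y, hy, hy'⟩ := hz (P ∩ Iio z) ((mk_le_mk_of_subset inter_subset_left).trans hP)
    (fun α hα => hα.2)
  exact lt_of_le_of_lt (chi_le fun α hα hz' => hy' α ⟨hα, hz'⟩) hy

/-- If `a` is below `b` and the points `b n` have large cofinality, then a cofinal family has a member strictly above `a`: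
take `a n < y n < b n` (`RegPt` for the set `{a n}`). -/
theorem exists_gt_of_cofF {μ : Cardinal.{u}} (hμ : 1 ≤ μ) {D : Ultrafilter ℕ} {b : ℕ → L} {F : Set (ℕ → L)}
    (hF : CofF D b F) (hb : ∀ n, RegPt μ (b n)) {a : ℕ → L} (ha : ∀ n, a n < b n) :
    ∃ s ∈ F, ∀ᶠ n in (D : Filter ℕ), a n < s n := by
  have h1 : ∀ n, ∃ y < b n, a n < y := by
    intro n
    obtain ⟨y, hy, hy'⟩ := hb n {a n} (by rw [mk_singleton]; exact hμ)
      (fun α hα => by rw [mem_singleton_iff.1 hα]; exact ha n)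
    exact ⟨y, hy, hy' _ (mem_singleton _)⟩
  choose y hy hay using h1
  obtain ⟨s, hs, hys⟩ := hF.2 y hy
  exact ⟨s, hs, hys.mono fun n hn => lt_of_lt_of_le (hay n) hn⟩

theorem gam_spec {D : Ultrafilter ℕ} {F : Set (ℕ → L)} {a : ℕ → L}
    (h : ∃ s ∈ F, ∀ᶠ n in (D : Filter ℕ), a n < s n) :
    gam D F a ∈ F ∧ ∀ᶠ n in (D : Filter ℕ), a n < gam D F a n := by
  have h' : ({s | s ∈ F ∧ ∀ᶠ n in (D : Filter ℕ), a n < s n} : Set (ℕ → L)).Nonempty := h
  unfold gam
  rw [dif_pos h']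
  exact WellFounded.min_mem (IsWellFounded.wf (r := WellOrderingRel (α := ℕ → L))) _ h'

/-- `gam` is the first such member. -/
theorem not_wor_gam {D : Ultrafilter ℕ} {F : Set (ℕ → L)} {a s : ℕ → L} (hs : s ∈ F)
    (h : ∀ᶠ n in (D : Filter ℕ), a n < s n) : ¬ WellOrderingRel s (gam D F a) := by
  have h0 : s ∈ ({s | s ∈ F ∧ ∀ᶠ n in (D : Filter ℕ), a n < s n} : Set (ℕ → L)) := ⟨hs, h⟩
  have h' : ({s | s ∈ F ∧ ∀ᶠ n in (D : Filter ℕ), a n < s n} : Set (ℕ → L)).Nonempty := ⟨s, h0⟩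
  unfold gam
  rw [dif_pos h']
  exact WellFounded.not_lt_min (IsWellFounded.wf (r := WellOrderingRel (α := ℕ → L))) _ h0

end

end Pool.Agent.Lib.MP_f5d53e_lc
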