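import Pool.Agent.Lib.MP_f5d53e_lc.PDefs

/-! Row fd5-Comp: a counting lemma from the compactness of the space of ultrafilters. -/

namespace Pool.Agent.Lib.MP_f5d53e_lc

universe u

open Cardinal Set Filter

/-- If every ultrafilter contains one of the sets `X D`, finitely many of the `X D` cover. -/
theorem exists_finite_cover (X : Ultrafilter ℕ → Set ℕ) (h : ∀ D, X D ∈ D) :
    ∃ l : List (Ultrafilter ℕ), ∀ n, ∃ D ∈ l, n ∈ X D := by
  classical
  obtain ⟨t, ht⟩ := isCompact_univ.elim_finite_subcover (fun D => {D' : Ultrafilter ℕ | X D ∈ D'})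
    (fun D => ultrafilter_isOpen_basic (X D)) (fun D _ => mem_iUnion.2 ⟨D, h D⟩)
  refine ⟨t.toList, fun n => ?_⟩
  have h1 := ht (mem_univ (pure n : Ultrafilter ℕ))
  simp only [mem_iUnion, mem_setOf_eq] at h1
  obtain ⟨D, hD, hn⟩ := h1
  exact ⟨D, Finset.mem_toList.2 hD, Ultrafilter.mem_pure.1 hn⟩

/-- Let `H` be a set of functions, and let every function of `H` have, for every ultrafilter `D`, a label in a set of
fewer than `κ` labels, such that functions with the same label are equal modulo `D`. Then `H` has fewer than `κ`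
elements: choose for every `D` and every label a function `r` of `H` with that label; a function `h` is determined by a
list of triples (`D`, label of `h`, the set where `h` and `r` agree) such that the sets cover. -/
theorem mk_lt_of_labels {L : Type u} (H : Set (ℕ → L)) {κ : Cardinal.{u}} (hκ : κ.IsRegular)
    (h1 : Cardinal.lift.{u} #(Ultrafilter ℕ) < κ) (h2 : (2 : Cardinal.{u}) ^ (ℵ₀ : Cardinal.{u}) < κ)
    (Lab : Ultrafilter ℕ → Type u) (hLab : ∀ D, #(Lab D) < κ) (lab : ∀ D, H → Lab D)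
    (hl : ∀ D (g h : H), lab D g = lab D h → ∀ᶠ n in (D : Filter ℕ), g.1 n = h.1 n) : #H < κ := by
  classical
  have hω : ℵ₀ < κ := (Cardinal.cantor ℵ₀).trans h2
  rcases isEmpty_or_nonempty H with hE | hE
  · rw [Cardinal.mk_eq_zero]
    exact Cardinal.aleph0_pos.trans hω
  let rep : ∀ D, Lab D → H := fun D x => if hx : ∃ g, lab D g = x then hx.choose else hE.some
  have hrep : ∀ D (h : H), lab D (rep D (lab D h)) = lab D h := by
    intro D h
    have hx : ∃ g, lab D g = lab D h := ⟨h, rfl⟩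
    have e : rep D (lab D h) = hx.choose := dif_pos hx
    rw [e]
    exact hx.choose_spec
  let X : H → Ultrafilter ℕ → Set ℕ := fun h D => {n | (rep D (lab D h)).1 n = h.1 n}
  have hX : ∀ h D, X h D ∈ D := fun h D => hl D _ _ (hrep D h)
  have hex := fun h => exists_finite_cover (X h) (hX h)
  choose l hlc using hex
  let code : H → List (Σ D : Ultrafilter ℕ, Lab D × Set ℕ) :=
    fun h => (l h).map fun D => ⟨D, lab D h, X h D⟩
  have hc1 : ∀ h n, ∃ t ∈ code h, n ∈ t.2.2 := by
    intro h n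
    obtain ⟨D, hD, hn⟩ := hlc h n
    exact ⟨⟨D, lab D h, X h D⟩, List.mem_map.2 ⟨D, hD, rfl⟩, hn⟩
  have hc2 : ∀ h n, ∀ t ∈ code h, n ∈ t.2.2 → (rep t.1 t.2.1).1 n = h.1 n := by
    intro h n t ht hn
    obtain ⟨D, _, rfl⟩ := List.mem_map.1 ht
    exact hn
  have hinj : Function.Injective code := by
    intro g h hgh
    apply Subtype.ext
    funext n
    obtain ⟨t, ht, hn⟩ := hc1 g n
    rw [← hc2 g n t ht hn, hc2 h n t (hgh ▸ ht) hn]
  have hset : #(Set ℕ) = 2 ^ (ℵ₀ : Cardinal.{0}) := by
    rw [Cardinal.mk_set, Cardinal.mk_nat]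
  have hS : #(Σ D : Ultrafilter ℕ, Lab D × Set ℕ) < κ := by
    rw [Cardinal.mk_sigma]
    refine Cardinal.sum_lt_lift_of_isRegular hκ h1 fun D => ?_
    rw [Cardinal.mk_prod]
    refine Cardinal.mul_lt_of_lt hω.le ?_ ?_
    · rw [Cardinal.lift_id']
      exact hLab D
    · rw [hset, Cardinal.lift_power]
      simpa using h2
  have hL : #(List (Σ D : Ultrafilter ℕ, Lab D × Set ℕ)) < κ :=
    (Cardinal.mk_list_le_max _).trans_lt (max_lt hω hS)
  exact (Cardinal.mk_le_of_injective hinj).trans_lt hL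

end Pool.Agent.Lib.MP_f5d53e_lc
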