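import Pool.Agent.Lib.MP_f5d53e_lc.PSup

/-! Row fd5-Dec: decoding of the elements of the model. -/

namespace Pool.Agent.Lib.MP_f5d53e_lc

universe u

open Cardinal Set Filter

namespace PData

variable {L : Type u} [LinearOrder L] [WellFoundedLT L] {μ : Cardinal.{u}} (T : PData L μ)

theorem rr_e {d α : L} (h : α < d) : T.rr d (T.e d α) = α := by
  have hex : ∃ α', α' < d ∧ T.e d α' = T.e d α := ⟨α, h, rfl⟩
  unfold rr
  rw [dif_pos hex]
  exact T.e_inj d hex.choose_spec.1 h hex.choose_spec.2

/-- `dec` depends only on the values of `h` at the points of the list. -/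
theorem dec_congr {h h' : T.A → L} (l : List (T.A × (ℕ → WW.{u}))) (hl : ∀ p ∈ l, h p.1 = h' p.1) (x : L) :
    T.dec h l x = T.dec h' l x := by
  induction l with
  | nil => rfl
  | cons p l ih =>
    have h1 : h p.1 = h' p.1 := hl p List.mem_cons_self
    have h2 := ih (fun q hq => hl q (List.mem_cons_of_mem _ hq))
    simp only [dec]
    rw [h1, h2]

/-- Well-founded induction on `α`: if `#(Iio α) < μ` take the empty list. Otherwise take `z` from `A_next` and `w` from
`exists_cpt`, `d = cpt .. w`. Then `#(Iio d) = #(Iio α)`, `α' = e d α` has fewer predecessors than `α`, so `α' < α`; it is in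
the model, and `rr d α' = α`. -/
theorem exists_dec {S0 : Set L} (h0 : #S0 ≤ μ) (α : L) (hα : α ∈ T.model S0) :
    ∃ (l : List (T.A × (ℕ → WW.{u}))) (x : L), #(Iio x) < μ ∧
      T.dec (fun z => chi (T.model S0) z) l x = α := by
  induction α using WellFoundedLT.induction with
  | ind α ih =>
    by_cases hs : #(Iio α) < μ
    · exact ⟨[], α, hs, rfl⟩
    · obtain ⟨z, hzA, hαz, hz⟩ := T.A_next α (not_lt.mp hs)
      obtain ⟨w, hw1, hw2, hw3⟩ := T.exists_cpt h0 ⟨z, hzA⟩ hα hαz
      have hlt : #(Iio (T.e (cpt (chi (T.model S0) z) w) α)) < #(Iio α) :=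
        lt_of_lt_of_le (T.e_lt _ _ hw2) (hz _ hw3)
      have hα' : T.e (cpt (chi (T.model S0) z) w) α < α := by
        by_contra hcon
        have hle : α ≤ T.e (cpt (chi (T.model S0) z) w) α := not_lt.mp hcon
        exact absurd (mk_le_mk_of_subset (Iio_subset_Iio hle)) (not_le.mpr hlt)
      obtain ⟨l, x, hx, hdec⟩ := ih _ hα' (T.e_mem_model S0 hw1 hα)
      refine ⟨(⟨z, hzA⟩, w) :: l, x, hx, ?_⟩
      simp only [dec]
      rw [hdec]
      exact T.rr_e hw2

end PData

end Pool.Agent.Lib.MP_f5d53e_lc
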