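import Pool.Agent.Lib.MP_f5d53e_lc.PSup

/-! Row fd5-Lab: the label determines the suprema modulo `D`. -/

namespace Pool.Agent.Lib.MP_f5d53e_lc

universe u

open Cardinal Set Filter

namespace PData

variable {L : Type u} [LinearOrder L] [WellFoundedLT L] {μ : Cardinal.{u}} (T : PData L μ)

private theorem Lab_ex {S0 : Set L} (h0 : #S0 ≤ μ) (D : Ultrafilter ℕ) (b : ℕ → T.A) (i : WW.{u}) :
    ∃ s ∈ T.F D b, ∀ᶠ n in (D : Filter ℕ), T.aa S0 b i n < s n := by
  have hμ : (1 : Cardinal.{u}) ≤ μ :=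
    le_trans (le_trans (le_of_lt (lt_of_lt_of_le one_lt_aleph0 (aleph0_le_aleph 1))) le_rfl) T.one_le
  exact exists_gt_of_cofF hμ (T.F_cof D b) (fun n => T.A_reg _ (b n).2)
    (fun n => T.chi_chain_lt h0 (b n) i)

theorem gg_mem {S0 : Set L} (h0 : #S0 ≤ μ) (D : Ultrafilter ℕ) (b : ℕ → T.A) (i : WW.{u}) :
    T.gg S0 D b i ∈ T.F D b :=
  (gam_spec (T.Lab_ex h0 D b i)).1

theorem aa_lt_gg {S0 : Set L} (h0 : #S0 ≤ μ) (D : Ultrafilter ℕ) (b : ℕ → T.A) (i : WW.{u}) :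
    ∀ᶠ n in (D : Filter ℕ), T.aa S0 b i n < T.gg S0 D b i n :=
  (gam_spec (T.Lab_ex h0 D b i)).2

/-- the values of `gg i` are in the next stage -/
theorem gg_lt_aa {S0 : Set L} (h0 : #S0 ≤ μ) (D : Ultrafilter ℕ) (b : ℕ → T.A) {i j : WW.{u}} (h : i < j)
    (n : ℕ) : T.gg S0 D b i n < T.aa S0 b j n := by
  have hm : T.gg S0 D b i n ∈ T.chain S0 j := by
    apply T.step_subset_chain S0 h
    right
    exact ⟨D, b, n, rfl⟩
  exact lt_chi hm ((T.F_cof D b).1 _ (T.gg_mem h0 D b i) n)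

/-- `gg j` is one of the functions among which `gg i` is the first, and they are different. -/
theorem gg_wor {S0 : Set L} (h0 : #S0 ≤ μ) (D : Ultrafilter ℕ) (b : ℕ → T.A) {i j : WW.{u}} (h : i < j) :
    WellOrderingRel (T.gg S0 D b i) (T.gg S0 D b j) := by
  have h1 : ¬ WellOrderingRel (T.gg S0 D b j) (T.gg S0 D b i) := by
    apply not_wor_gam (T.gg_mem h0 D b j)
    filter_upwards [T.aa_lt_gg h0 D b j] with n hn
    exact lt_trans (T.chi_chain_strict h0 (b n) h) hn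
  have h2 : T.gg S0 D b i ≠ T.gg S0 D b j := by
    intro he
    obtain ⟨n, hn⟩ := (T.aa_lt_gg h0 D b j).exists
    have h3 := T.gg_lt_aa h0 D b h n
    rw [he] at h3
    exact lt_irrefl _ (lt_trans h3 hn)
  rcases trichotomous_of (WellOrderingRel (α := ℕ → L)) (T.gg S0 D b i) (T.gg S0 D b j) with h3 | h3 | h3
  · exact h3
  · exact absurd h3 h2
  · exact absurd h3 h1

private theorem Lab_exists_gt (i : WW.{u}) : ∃ j : WW.{u}, i < j := by
  obtain ⟨w, hw⟩ := WW_bound (fun _ => i)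
  exact ⟨w, hw 0⟩

/-- If the labels agree then every `gg i` of the first chain comes strictly before some `gg j` of the second. -/
theorem exists_wor {S0 S1 : Set L} (h0 : #S0 ≤ μ) (h1 : #S1 ≤ μ) (D : Ultrafilter ℕ) (b : ℕ → T.A)
    (h : T.lab S0 D b = T.lab S1 D b) (i : WW.{u}) :
    ∃ j, WellOrderingRel (T.gg S0 D b i) (T.gg S1 D b j) := by
  by_contra hcon
  push Not at hcon
  have hall : ∀ j, WellOrderingRel (T.gg S1 D b j) (T.gg S0 D b i) := by
    intro j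
    obtain ⟨j', hj'⟩ := Lab_exists_gt j
    have h2 := T.gg_wor h1 D b hj'
    rcases trichotomous_of (WellOrderingRel (α := ℕ → L)) (T.gg S0 D b i) (T.gg S1 D b j') with h3 | h3 | h3
    · exact absurd h3 (hcon j')
    · rw [h3]; exact h2
    · exact _root_.trans h2 h3
  have hne : ({s | s ∈ T.F D b ∧ ∀ i, WellOrderingRel (T.gg S1 D b i) s} : Set (ℕ → L)).Nonempty :=
    ⟨_, T.gg_mem h0 D b i, hall⟩
  have hl1 : T.lab S1 D b = some ⟨WellFounded.min (IsWellFounded.wf (r := WellOrderingRel (α := ℕ → L))) _ hne,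
      (WellFounded.min_mem (IsWellFounded.wf (r := WellOrderingRel (α := ℕ → L))) _ hne).1⟩ := by
    unfold lab
    rw [dif_pos hne]
  by_cases hne0 : ({s | s ∈ T.F D b ∧ ∀ i, WellOrderingRel (T.gg S0 D b i) s} : Set (ℕ → L)).Nonempty
  · have hl0 : T.lab S0 D b = some ⟨WellFounded.min (IsWellFounded.wf (r := WellOrderingRel (α := ℕ → L))) _ hne0,
        (WellFounded.min_mem (IsWellFounded.wf (r := WellOrderingRel (α := ℕ → L))) _ hne0).1⟩ := by
      unfold lab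
      rw [dif_pos hne0]
    rw [hl0, hl1] at h
    have he := congrArg Subtype.val (Option.some.inj h)
    simp only at he
    have h5 := (WellFounded.min_mem (IsWellFounded.wf (r := WellOrderingRel (α := ℕ → L))) _ hne0).2 i
    rw [he] at h5
    exact WellFounded.not_lt_min (IsWellFounded.wf (r := WellOrderingRel (α := ℕ → L))) 
      (s := {s | s ∈ T.F D b ∧ ∀ i, WellOrderingRel (T.gg S1 D b i) s}) ⟨T.gg_mem h0 D b i, hall⟩ h5
  · have hl0 : T.lab S0 D b = none := by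
      unfold lab
      rw [dif_neg hne0]
    rw [hl0, hl1] at h
    exact absurd h (by simp)

/-- So `gg i` is at most `aa j` modulo `D` (otherwise `gg j` would not be the first function above `aa j`). -/
theorem exists_aa_lt {S0 S1 : Set L} (h0 : #S0 ≤ μ) (h1 : #S1 ≤ μ) (D : Ultrafilter ℕ) (b : ℕ → T.A)
    (h : T.lab S0 D b = T.lab S1 D b) (i : WW.{u}) :
    ∃ j, ∀ᶠ n in (D : Filter ℕ), T.aa S0 b i n < T.aa S1 b j n := by
  obtain ⟨j, hj⟩ := T.exists_wor h0 h1 D b h i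
  refine ⟨j, ?_⟩
  by_contra hcon
  rw [← Ultrafilter.eventually_not] at hcon
  refine absurd hj (not_wor_gam (T.gg_mem h0 D b i) ?_)
  filter_upwards [hcon, T.aa_lt_gg h0 D b i] with n h2 h3
  exact lt_of_le_of_lt (not_lt.1 h2) h3

theorem chi_le_of_lab {S0 S1 : Set L} (h0 : #S0 ≤ μ) (h1 : #S1 ≤ μ) (D : Ultrafilter ℕ) (b : ℕ → T.A)
    (h : T.lab S0 D b = T.lab S1 D b) :
    ∀ᶠ n in (D : Filter ℕ), chi (T.model S0) (b n) ≤ chi (T.model S1) (b n) := by
  by_contra hcon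
  rw [← Ultrafilter.eventually_not] at hcon
  have hch : ∀ n, ∃ i : WW.{u}, ¬ (chi (T.model S0) (b n) ≤ chi (T.model S1) (b n)) →
      chi (T.model S1) (b n) < chi (T.chain S0 i) (b n) := by
    intro n
    by_cases hn : chi (T.model S0) (b n) ≤ chi (T.model S1) (b n)
    · obtain ⟨w⟩ := WW_nonempty.{u}
      exact ⟨w, fun h' => absurd hn h'⟩
    · obtain ⟨i, hi⟩ := T.exists_lt_chi_chain (b n) (not_le.1 hn)
      exact ⟨i, fun _ => hi⟩
  choose s hs using hch
  obtain ⟨w, hw⟩ := WW_bound s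
  obtain ⟨j, hj⟩ := T.exists_aa_lt h0 h1 D b h w
  obtain ⟨n, hn1, hn2⟩ := (hcon.and hj).exists
  have h3 : chi (T.chain S0 (s n)) (b n) ≤ chi (T.chain S0 w) (b n) :=
    chi_mono (T.chain_mono S0 (hw n).le) _
  have h4 : chi (T.chain S1 j) (b n) < chi (T.model S1) (b n) := T.chi_chain_lt_model h1 (b n) j
  exact lt_irrefl _ (lt_trans (lt_of_lt_of_le (hs n hn1) h3) (lt_trans hn2 h4))

theorem chi_eq_of_lab {S0 S1 : Set L} (h0 : #S0 ≤ μ) (h1 : #S1 ≤ μ) (D : Ultrafilter ℕ) (b : ℕ → T.A)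
    (h : T.lab S0 D b = T.lab S1 D b) :
    ∀ᶠ n in (D : Filter ℕ), chi (T.model S0) (b n) = chi (T.model S1) (b n) := by
  filter_upwards [T.chi_le_of_lab h0 h1 D b h, T.chi_le_of_lab h1 h0 D b h.symm] with n h2 h3
  exact le_antisymm h2 h3

end PData

end Pool.Agent.Lib.MP_f5d53e_lc
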