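import Pool.Agent.Lib.MP_f5d53e_lc.PRank
import Pool.Agent.Lib.MP_f5d53e_lc.PDec
import Pool.Agent.Lib.MP_f5d53e_lc.PLab
import Pool.Agent.Lib.MP_f5d53e_lc.PComp

/-! Row fd5-Count: the number of all functions. -/

namespace Pool.Agent.Lib.MP_f5d53e_lc

universe u

open Cardinal Set Filter

private theorem count_arrow_le {μ : Cardinal.{u}} (hpow : μ ^ (ℵ₀ : Cardinal.{u}) = μ) {X : Type u}
    (h : #X ≤ μ) : #(ℕ → X) ≤ μ := by
  have h1 : #(ℕ → X) = #X ^ (ℵ₀ : Cardinal.{u}) := by
    rw [mk_arrow]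
    simp
  rw [h1]
  calc #X ^ (ℵ₀ : Cardinal.{u}) ≤ μ ^ (ℵ₀ : Cardinal.{u}) := power_le_power_right h
    _ = μ := hpow

namespace PData

variable {L : Type u} [LinearOrder L] [WellFoundedLT L] {μ : Cardinal.{u}} (T : PData L μ)

include T in
private theorem count_aleph0_le : (ℵ₀ : Cardinal.{u}) ≤ μ :=
  (aleph0_le_aleph 1).trans T.one_le

include T in
private theorem count_mk_range_le (g : ℕ → L) : #(range g) ≤ μ :=
  (Set.countable_range g).le_aleph0.trans T.count_aleph0_le

/-- The functions `n ↦ chi (model) (b n)`: `mk_lt_of_labels`, `chi_eq_of_lab` (the label type is `Option (T.F D b)`). -/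
theorem mk_traces_lt {κ : Cardinal.{u}} (hκ : κ.IsRegular) (hμ : μ < κ) (hpow : μ ^ (ℵ₀ : Cardinal.{u}) = μ)
    (hF : ∀ D b, #(T.F D b) < κ) (b : ℕ → T.A) :
    #{h : ℕ → L | ∃ S0 : Set L, #S0 ≤ μ ∧ h = fun n => chi (T.model S0) (b n)} < κ := by
  have h0 := T.count_aleph0_le
  refine mk_lt_of_labels _ hκ (T.mk_U.trans_lt hμ) ?_ (fun D => Option (T.F D b)) ?_
    (fun D h => T.lab h.2.choose D b) ?_
  · refine lt_of_le_of_lt ?_ hμ
    calc (2 : Cardinal.{u}) ^ (ℵ₀ : Cardinal.{u}) ≤ μ ^ (ℵ₀ : Cardinal.{u}) :=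
          power_le_power_right ((natCast_lt_aleph0 (n := 2)).le.trans h0)
      _ = μ := hpow
  · intro D
    rw [mk_option]
    exact add_lt_of_lt hκ.aleph0_le (hF D b) (one_lt_aleph0.trans_le hκ.aleph0_le)
  · intro D g h hgh
    have h1 := T.chi_eq_of_lab g.2.choose_spec.1 h.2.choose_spec.1 D b hgh
    have hg := g.2.choose_spec.2
    have hh := h.2.choose_spec.2
    filter_upwards [h1] with n hn
    rw [hg, hh]
    exact hn

/-- There are at most `μ` sequences of codes. -/
theorem mk_codes_le (hpow : μ ^ (ℵ₀ : Cardinal.{u}) = μ) :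
    #(ℕ → List (T.A × (ℕ → WW.{u})) × {x : L | #(Iio x) < μ}) ≤ μ := by
  have h0 := T.count_aleph0_le
  have hA : #T.A ≤ μ := by
    refine le_trans ?_ T.mk_A
    refine mk_le_of_injective (f := fun (a : T.A) (_ : ℕ) => a) ?_
    intro a a' h
    exact congrFun h 0
  have hW : #(ℕ → WW.{u}) ≤ μ := count_arrow_le hpow (by rw [mk_WW]; exact T.one_le)
  have hAW : #(T.A × (ℕ → WW.{u})) ≤ μ := by
    rw [mk_prod, lift_id, lift_id]
    exact (mul_le_mul' hA hW).trans (mul_eq_self h0).le
  have hL : #(List (T.A × (ℕ → WW.{u}))) ≤ μ := (mk_list_le_max _).trans (max_le h0 hAW)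
  refine count_arrow_le hpow ?_
  rw [mk_prod, lift_id, lift_id]
  exact (mul_le_mul' hL (mk_small_le μ)).trans (mul_eq_self h0).le

/-- A function `g : ℕ → L` is given by a sequence of codes of the `g n` in the model of `S0 = range g` and by
`n ↦ chi (model) (b n)`, where `b` enumerates the points of `A` in the lists of the codes (if `A` is empty all lists are
empty). -/
theorem mk_fun_lt {κ : Cardinal.{u}} (hκ : κ.IsRegular) (hμ : μ < κ) (hpow : μ ^ (ℵ₀ : Cardinal.{u}) = μ)
    (hF : ∀ D b, #(T.F D b) < κ) : #(ℕ → L) < κ := by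
  have hmem : ∀ (g : ℕ → L) (n : ℕ), g n ∈ T.model (range g) := by
    intro g n
    obtain ⟨w⟩ := WW_nonempty.{u}
    exact T.chain_subset_model _ w (T.subset_chain _ w ⟨n, rfl⟩)
  have hex : ∀ g : ℕ → L, ∃ c : ℕ → List (T.A × (ℕ → WW.{u})) × {x : L | #(Iio x) < μ},
      ∀ n, T.dec (fun z => chi (T.model (range g)) z) (c n).1 (c n).2 = g n := by
    intro g
    have h1 : ∀ n, ∃ c : List (T.A × (ℕ → WW.{u})) × {x : L | #(Iio x) < μ},
        T.dec (fun z => chi (T.model (range g)) z) c.1 c.2 = g n := by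
      intro n
      obtain ⟨l, x, hx, h⟩ := T.exists_dec (T.count_mk_range_le g) (g n) (hmem g n)
      exact ⟨⟨l, ⟨x, hx⟩⟩, h⟩
    choose c hc using h1
    exact ⟨c, hc⟩
  choose code hcode using hex
  have hU : (⋃ c, {g : ℕ → L | code g = c}) = Set.univ := by
    refine eq_univ_of_forall fun g => ?_
    exact mem_iUnion.2 ⟨code g, rfl⟩
  rw [← mk_univ, ← hU]
  refine (card_iUnion_lt_iff_forall_of_isRegular hκ ((T.mk_codes_le hpow).trans_lt hμ)).2 ?_
  intro c
  by_cases hA : Nonempty T.A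
  · obtain ⟨a0⟩ := hA
    have hcount : ({a0} ∪ ⋃ n, {a : T.A | ∃ p ∈ (c n).1, p.1 = a} : Set T.A).Countable := by
      refine (countable_singleton a0).union (countable_iUnion fun n => ?_)
      have h2 : {a : T.A | ∃ p ∈ (c n).1, p.1 = a} = Prod.fst '' {p | p ∈ (c n).1} := by
        ext a
        exact Iff.rfl
      rw [h2]
      exact ((List.finite_toSet (c n).1).image _).countable
    obtain ⟨b, hb⟩ := hcount.exists_eq_range ⟨a0, Or.inl rfl⟩
    have hb' : ∀ n, ∀ p ∈ (c n).1, ∃ m, b m = p.1 := by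
      intro n p hp
      have h3 : p.1 ∈ range b := by
        rw [← hb]
        exact Or.inr (mem_iUnion.2 ⟨n, p, hp, rfl⟩)
      exact h3
    refine lt_of_le_of_lt ?_ (T.mk_traces_lt hκ hμ hpow hF b)
    refine mk_le_of_injective (f := fun g : {g : ℕ → L | code g = c} =>
      (⟨fun n => chi (T.model (range g.1)) (b n), range g.1, T.count_mk_range_le g.1, rfl⟩ :
        {h : ℕ → L | ∃ S0 : Set L, #S0 ≤ μ ∧ h = fun n => chi (T.model S0) (b n)})) ?_
    rintro ⟨g, hg⟩ ⟨g', hg'⟩ h
    have h4 : (fun n => chi (T.model (range g)) (b n)) = fun n => chi (T.model (range g')) (b n) :=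
      congrArg Subtype.val h
    apply Subtype.ext
    funext n
    have e1 := hcode g n
    have e2 := hcode g' n
    rw [show code g = c from hg] at e1
    rw [show code g' = c from hg'] at e2
    refine e1.symm.trans (Eq.trans ?_ e2)
    refine T.dec_congr _ ?_ _
    intro p hp
    obtain ⟨m, hm⟩ := hb' n p hp
    rw [← hm]
    exact congrFun h4 m
  · have hsub : #{g : ℕ → L | code g = c} ≤ 1 := by
      rw [mk_le_one_iff_set_subsingleton]
      intro g hg g' hg'
      funext n
      have e1 := hcode g n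
      have e2 := hcode g' n
      rw [show code g = c from hg] at e1
      rw [show code g' = c from hg'] at e2
      rw [← e1, ← e2]
      refine T.dec_congr _ ?_ _
      intro p _
      exact absurd ⟨p.1⟩ hA
    exact hsub.trans_lt (one_lt_aleph0.trans_le hκ.aleph0_le)

end PData

end Pool.Agent.Lib.MP_f5d53e_lc
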