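import Pool.Agent.Lib.MP_f5d53e_lc.Spectrum

/-!
Definitions for the covering argument: products of initial segments of a well-ordered set modulo an
ultrafilter on the natural numbers, and increasing chains of length `ω₁` of small subsets.
-/

namespace Pool.Agent.Lib.MP_f5d53e_lc

universe u

open Cardinal Set Filter

/-- The well-ordered set of order type `ω₁`. -/
abbrev WW : Type u := (Cardinal.aleph 1 : Cardinal.{u}).ord.ToType

section Defs

variable {L : Type u} [LinearOrder L] [WellFoundedLT L]

/-- `S` is a set of functions below `b` which is cofinal modulo `D` in the product of the initial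
segments below the `b n`. -/
def CofF (D : Ultrafilter ℕ) (b : ℕ → L) (S : Set (ℕ → L)) : Prop :=
  (∀ s ∈ S, ∀ n, s n < b n) ∧
    ∀ f : ℕ → L, (∀ n, f n < b n) → ∃ s ∈ S, ∀ᶠ n in (D : Filter ℕ), f n ≤ s n

/-- The least strict upper bound of the elements of `P` below `z`. -/
noncomputable def chi (P : Set L) (z : L) : L :=
  WellFounded.min (wellFounded_lt (α := L)) {y | ∀ α ∈ P, α < z → α < y} ⟨z, fun _ _ h => h⟩

/-- The cofinality of `z` is above `μ`. -/
def RegPt (μ : Cardinal.{u}) (z : L) : Prop :=
  ∀ P : Set L, #P ≤ μ → (∀ α ∈ P, α < z) → ∃ y < z, ∀ α ∈ P, α < y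

open Classical in
/-- The first member of `F` (for the fixed well-ordering `WellOrderingRel` of all functions) which is
strictly above `a` modulo `D`. -/
noncomputable def gam (D : Ultrafilter ℕ) (F : Set (ℕ → L)) (a : ℕ → L) : ℕ → L :=
  if h : ({s | s ∈ F ∧ ∀ᶠ n in (D : Filter ℕ), a n < s n} : Set (ℕ → L)).Nonempty then
    WellFounded.min (IsWellFounded.wf (r := WellOrderingRel (α := ℕ → L))) _ h else a

open Classical in
/-- A cofinal map from `ω₁` to the initial segment below `δ`, if there is one. -/
noncomputable def cfb (δ : L) : WW.{u} → L :=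
  if h : ∃ φ : WW.{u} → L, (∀ w, φ w < δ) ∧ ∀ y < δ, ∃ w, y < φ w then h.choose else fun _ => δ

open Classical in
/-- The supremum of countably many values of `cfb δ`. -/
noncomputable def cpt (δ : L) (s : ℕ → WW.{u}) : L :=
  if h : ({y | ∀ k, cfb δ (s k) ≤ y} : Set L).Nonempty then
    WellFounded.min (wellFounded_lt (α := L)) _ h else δ

end Defs

/-- The data of the covering argument. `e d` maps the initial segment below `d` injectively into the
elements with fewer predecessors than `d`; `A` is a set of points of large cofinality; `F D b` is a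
cofinal family of the product of the `b n` modulo `D`. -/
structure PData (L : Type u) [LinearOrder L] [WellFoundedLT L] (μ : Cardinal.{u}) where
  e : L → L → L
  e_lt : ∀ d α, α < d → #(Iio (e d α)) < #(Iio d)
  e_inj : ∀ d, InjOn (e d) (Iio d)
  A : Set L
  A_reg : ∀ z ∈ A, RegPt μ z
  A_next : ∀ α : L, μ ≤ #(Iio α) → ∃ z ∈ A, α < z ∧ ∀ d < z, #(Iio d) ≤ #(Iio α)
  F : Ultrafilter ℕ → (ℕ → A) → Set (ℕ → L)
  F_cof : ∀ D (b : ℕ → A), CofF D (fun n => (b n : L)) (F D b)
  one_le : Cardinal.aleph 1 ≤ μ
  mk_A : #(ℕ → A) ≤ μ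
  mk_U : Cardinal.lift.{u} #(Ultrafilter ℕ) ≤ μ

namespace PData

variable {L : Type u} [LinearOrder L] [WellFoundedLT L] {μ : Cardinal.{u}} (T : PData L μ)

/-- One step of the closure. -/
def step (P : Set L) : Set L :=
  P ∪ (fun p : L × L => T.e p.1 p.2) '' (P ×ˢ P) ∪ chi P '' T.A ∪
    {x | ∃ (D : Ultrafilter ℕ) (b : ℕ → T.A) (n : ℕ),
      x = gam D (T.F D b) (fun m => chi P (b m)) n}

/-- The chain of length `ω₁` which begins with `S0`. -/
noncomputable def chain (S0 : Set L) : WW.{u} → Set L :=
  WellFounded.fix (wellFounded_lt (α := WW.{u})) fun i ih =>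
    S0 ∪ ⋃ j : Iio i, T.step (ih j.1 j.2)

/-- The union of the chain. -/
noncomputable def model (S0 : Set L) : Set L := ⋃ i, T.chain S0 i

/-- The suprema of the stages of the chain below the points `b n`. -/
noncomputable def aa (S0 : Set L) (b : ℕ → T.A) (i : WW.{u}) : ℕ → L :=
  fun n => chi (T.chain S0 i) (b n)

/-- The first member of the cofinal family above the suprema of the stage `i`. -/
noncomputable def gg (S0 : Set L) (D : Ultrafilter ℕ) (b : ℕ → T.A) (i : WW.{u}) : ℕ → L :=
  gam D (T.F D b) (T.aa S0 b i)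

open Classical in
/-- The label: the first member of the cofinal family which comes after all `gg i`, if there is
one. -/
noncomputable def lab (S0 : Set L) (D : Ultrafilter ℕ) (b : ℕ → T.A) : Option (T.F D b) :=
  if h : ({s | s ∈ T.F D b ∧ ∀ i, WellOrderingRel (T.gg S0 D b i) s} : Set (ℕ → L)).Nonempty then
    some ⟨WellFounded.min (IsWellFounded.wf (r := WellOrderingRel (α := ℕ → L))) _ h,
      (WellFounded.min_mem (IsWellFounded.wf (r := WellOrderingRel (α := ℕ → L))) _ h).1⟩
  else none

open Classical in
/-- The inverse of `e d`. -/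
noncomputable def rr (d y : L) : L :=
  if h : ∃ α, α < d ∧ T.e d α = y then h.choose else y

/-- Decoding. -/
noncomputable def dec (h : T.A → L) : List (T.A × (ℕ → WW.{u})) → L → L
  | [], x => x
  | (p :: l), x => T.rr (cpt (h p.1) p.2) (dec h l x)

end PData

end Pool.Agent.Lib.MP_f5d53e_lc
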