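import Pool.Agent.Lib.MP_f5d53e_lc.PDefs

/-! Row fd5-Tr: points whose order type is a cardinal. -/

namespace Pool.Agent.Lib.MP_f5d53e_lc

universe u

open Cardinal Set Filter

/-- the initial segment below a point of order type `o` is order isomorphic to `o` -/
private theorem Tr_iso {L : Type u} [LinearOrder L] [WellFoundedLT L] {z : L} {o : Ordinal.{u}}
    (hz : Ordinal.typein (α := L) (· < ·) z = o) : Nonempty (o.ToType ≃o Iio z) := by
  have h1 : Ordinal.type (α := o.ToType) (· < ·) = Ordinal.type (α := Iio z) (· < ·) := by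
    rw [Ordinal.type_toType, ← hz]
    rfl
  obtain ⟨f⟩ := Ordinal.type_eq.1 h1
  exact ⟨OrderIso.ofRelIsoLT f⟩

/-- transport of a cofinal family of `∏ (c n).ord.ToType` to functions below the points of order type `(c n).ord` -/
theorem exists_cofF {L : Type u} [LinearOrder L] [WellFoundedLT L] (D : Ultrafilter ℕ) (c : ℕ → Cardinal.{u})
    (b : ℕ → L) (hb : ∀ n, Ordinal.typein (α := L) (· < ·) (b n) = (c n).ord) :
    ∃ S : Set (ℕ → L), CofF D b S ∧ #S ≤ cofProd D c := by
  obtain ⟨S0, hS0, hS1⟩ := exists_cofProd D c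
  let e : ∀ n, (c n).ord.ToType ≃o Iio (b n) := fun n => Classical.choice (Tr_iso (hb n))
  refine ⟨(fun s : ∀ n, (c n).ord.ToType => fun n => ((e n (s n) : Iio (b n)) : L)) '' S0,
    ⟨?_, ?_⟩, ?_⟩
  · rintro _ ⟨s, _, rfl⟩ n
    exact (e n (s n)).2
  · intro f hf
    obtain ⟨s, hs, hsf⟩ := hS1 fun n => (e n).symm ⟨f n, hf n⟩
    refine ⟨_, ⟨s, hs, rfl⟩, ?_⟩
    filter_upwards [hsf] with n hn
    have h1 : (⟨f n, hf n⟩ : Iio (b n)) ≤ e n (s n) := (OrderIso.symm_apply_le (e n)).1 hn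
    exact h1
  · rw [← hS0]
    exact mk_image_le

/-- a point whose order type is a successor cardinal `succ ρ`, `μ ≤ ρ`, has cofinality above `μ` -/
theorem regPt_of_typein {L : Type u} [LinearOrder L] [WellFoundedLT L] {μ ρ : Cardinal.{u}} (h0 : ℵ₀ ≤ ρ) (h : μ ≤ ρ) {z : L}
    (hz : Ordinal.typein (α := L) (· < ·) z = (Order.succ ρ).ord) : RegPt μ z := by
  intro P hP hPz
  by_contra hcon
  push Not at hcon
  have hcz : #(Iio z) = Order.succ ρ := by
    have h1 : #(Iio z) = (Ordinal.typein (α := L) (· < ·) z).card :=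
      Ordinal.card_typein (r := ((· < ·) : L → L → Prop)) z
    rw [h1, hz, card_ord]
  have hca : ∀ α : L, α < z → #(Iic α) ≤ ρ := by
    intro α hα
    have h1 : #(Iio α) = (Ordinal.typein (α := L) (· < ·) α).card :=
      Ordinal.card_typein (r := ((· < ·) : L → L → Prop)) α
    have h2 : Ordinal.typein (α := L) (· < ·) α < (Order.succ ρ).ord := by
      rw [← hz]
      exact (Ordinal.typein_lt_typein (· < ·)).2 hα
    have h3 : #(Iio α) ≤ ρ := by
      rw [h1]
      exact Order.lt_succ_iff.1 (lt_ord.1 h2)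
    rw [← Iio_insert]
    exact (mk_insert_le).trans ((add_le_add h3 (one_le_aleph0.trans h0)).trans
      (add_eq_self h0).le)
  have hsub : Iio z ⊆ ⋃ α ∈ P, Iic α := by
    intro y hy
    obtain ⟨α, hα, hyα⟩ := hcon y hy
    exact mem_biUnion hα hyα
  have h1 : #(Iio z) ≤ ρ := by
    refine (mk_le_mk_of_subset hsub).trans ((mk_biUnion_le _ _).trans ?_)
    have h2 : ⨆ α : P, #(Iic (α : L)) ≤ ρ := ciSup_le' fun α => hca α (hPz α α.2)
    exact (mul_le_mul' (hP.trans h) h2).trans (mul_eq_self h0).le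
  rw [hcz] at h1
  exact absurd (Order.lt_succ ρ) (not_lt.2 h1)

end Pool.Agent.Lib.MP_f5d53e_lc
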