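import Pool.Agent.Lib.MP_f5d53e_lc.PRank
import Pool.Agent.Lib.MP_f5d53e_lc.PTr

/-! Row fd5-Exist: the data exist if all ultraproducts have small cofinality. -/

namespace Pool.Agent.Lib.MP_f5d53e_lc

universe u

open Cardinal Set Filter

private theorem exist_mk_Iio {L : Type u} [LinearOrder L] [WellFoundedLT L] (z : L) :
    #(Iio z) = (Ordinal.typein (α := L) (· < ·) z).card := rfl

/-- Take `μ = 2 ^ ν`, `ν < l` a bound of `μ0`, `o.card`, `#(Ultrafilter ℕ)`, `ℵ₁`; `A` = the points of order type `(succ ρ).ord`,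
`μ ≤ ρ`; there are at most `o.card` of them, since `succ ρ = ℵ_ β` with `β < o`. -/
theorem exists_PData {l μ0 κ : Cardinal.{u}} {o : Ordinal.{u}} (hl : l.IsStrongLimit) (h0 : ℵ₀ < l)
    (ho : l = Cardinal.aleph o) (hoc : o.card < l) (hμ0 : μ0 < l)
    (hc : ∀ (D : Ultrafilter ℕ) (c : ℕ → Cardinal.{u}), (∀ n, (c n).IsRegular ∧ μ0 < c n ∧ c n < l) →
      cofProd D c < κ) :
    ∃ μ : Cardinal.{u}, μ < l ∧ μ ^ (ℵ₀ : Cardinal.{u}) = μ ∧ ∃ T : PData l.ord.ToType μ, ∀ D b, #(T.F D b) < κ := by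
  classical
  have hpow : ∀ x < l, (2 : Cardinal.{u}) ^ x < l := fun x hx => hl.isStrongPrelimit hx
  have hU : Cardinal.lift.{u} #(Ultrafilter ℕ) < l := by
    have h1 : #(Ultrafilter ℕ) ≤ 2 ^ (2 ^ (ℵ₀ : Cardinal.{0}) : Cardinal.{0}) := by
      have : #(Ultrafilter ℕ) ≤ #(Set (Set ℕ)) := by
        refine mk_le_of_injective (f := fun U : Ultrafilter ℕ => (U : Filter ℕ).sets) ?_
        intro U V h
        exact Ultrafilter.coe_injective (Filter.filter_eq h)
      refine this.trans (le_of_eq ?_)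
      rw [mk_set, mk_set, mk_nat]
    have h2 : Cardinal.lift.{u} #(Ultrafilter ℕ) ≤ 2 ^ (2 ^ (ℵ₀ : Cardinal.{u}) : Cardinal.{u}) := by
      have := Cardinal.lift_le.{u}.2 h1
      simpa using this
    exact h2.trans_lt (hpow _ (hpow _ h0))
  have h1 : Cardinal.aleph 1 < l := by
    have : Cardinal.aleph.{u} 1 ≤ 2 ^ (ℵ₀ : Cardinal.{u}) := by
      rw [← Cardinal.succ_aleph0]
      exact Order.succ_le_of_lt (Cardinal.cantor _)
    exact this.trans_lt (hpow _ h0)
  obtain ⟨ν, hνl, hν0, hνμ0, hνo, hνU, hν1⟩ : ∃ ν : Cardinal.{u}, ν < l ∧ ℵ₀ ≤ ν ∧ μ0 ≤ ν ∧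
      o.card ≤ ν ∧ Cardinal.lift.{u} #(Ultrafilter ℕ) ≤ ν ∧ Cardinal.aleph 1 ≤ ν := by
    refine ⟨max (max μ0 o.card) (max (Cardinal.lift.{u} #(Ultrafilter ℕ)) (Cardinal.aleph 1)),
      max_lt (max_lt hμ0 hoc) (max_lt hU h1), ?_, ?_, ?_, ?_, ?_⟩
    · exact (Cardinal.aleph0_le_aleph 1).trans ((le_max_right _ _).trans (le_max_right _ _))
    · exact (le_max_left _ _).trans (le_max_left _ _)
    · exact (le_max_right _ _).trans (le_max_left _ _)
    · exact (le_max_left _ _).trans (le_max_right _ _)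
    · exact (le_max_right _ _).trans (le_max_right _ _)
  have hνlt : ν < 2 ^ ν := Cardinal.cantor ν
  have hμℵ : (2 ^ ν : Cardinal.{u}) ^ (ℵ₀ : Cardinal.{u}) = 2 ^ ν := by
    rw [← Cardinal.power_mul, Cardinal.mul_aleph0_eq hν0]
  have hμl : (2 ^ ν : Cardinal.{u}) < l := hpow _ hνl
  have htl : ∀ z : l.ord.ToType, Ordinal.typein (α := l.ord.ToType) (· < ·) z < l.ord := by
    intro z
    have := Ordinal.typein_lt_type (α := l.ord.ToType) (· < ·) z
    rwa [Ordinal.type_toType] at this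
  set A : Set l.ord.ToType := {z | ∃ ρ : Cardinal.{u}, 2 ^ ν ≤ ρ ∧
    Ordinal.typein (α := l.ord.ToType) (· < ·) z = (Order.succ ρ).ord} with hA
  have hsl : ∀ z : l.ord.ToType, ∀ ρ : Cardinal.{u},
      Ordinal.typein (α := l.ord.ToType) (· < ·) z = (Order.succ ρ).ord → Order.succ ρ < l := by
    intro z ρ h
    have := htl z
    rw [h] at this
    exact Cardinal.ord_lt_ord.1 this
  have hmkA : #A ≤ o.card := by
    have h2 : ∀ z : A, ∃ β : Iio o, Order.succ z.2.choose = Cardinal.aleph β := by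
      intro z
      have h3 := z.2.choose_spec
      have h4 : ℵ₀ ≤ Order.succ z.2.choose :=
        (hν0.trans (hνlt.le.trans h3.1)).trans (Order.le_succ _)
      obtain ⟨β, hβ⟩ := Cardinal.mem_range_aleph_iff.2 h4
      have h5 := hsl z _ h3.2
      rw [← hβ, ho, Cardinal.aleph_lt_aleph] at h5
      exact ⟨⟨β, h5⟩, hβ.symm⟩
    choose f hf using h2
    have hinj : Function.Injective f := by
      intro z w h
      have e1 := z.2.choose_spec.2
      have e2 := w.2.choose_spec.2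
      rw [hf z] at e1
      rw [hf w, ← h, ← e1] at e2
      exact Subtype.ext (Ordinal.typein_injective (α := l.ord.ToType) (· < ·) e2).symm
    have h3 := Cardinal.lift_mk_le_lift_mk_of_injective hinj
    rw [Cardinal.mk_Iio_ordinal, Cardinal.lift_lift] at h3
    have h4 : Cardinal.lift.{u + 1, u} #A ≤ Cardinal.lift.{u + 1, u} o.card := by
      simpa using h3
    exact Cardinal.lift_le.1 h4
  obtain ⟨e, he1, he2⟩ := exists_rank_map (L := l.ord.ToType)
  have hF : ∀ (D : Ultrafilter ℕ) (b : ℕ → A), ∃ S : Set (ℕ → l.ord.ToType),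
      CofF D (fun n => (b n : l.ord.ToType)) S ∧ #S < κ := by
    intro D b
    obtain ⟨S, hS1, hS2⟩ := exists_cofF D (fun n => Order.succ (b n).2.choose)
      (fun n => (b n : l.ord.ToType)) (fun n => (b n).2.choose_spec.2)
    refine ⟨S, hS1, hS2.trans_lt (hc D _ fun n => ?_)⟩
    have h3 := (b n).2.choose_spec
    refine ⟨Cardinal.isRegular_succ (hν0.trans (hνlt.le.trans h3.1)), ?_, hsl _ _ h3.2⟩
    exact (hνμ0.trans (hνlt.le.trans h3.1)).trans_lt (Order.lt_succ _)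
  choose F hF1 hF2 using hF
  refine ⟨2 ^ ν, hμl, hμℵ, ⟨e, he1, he2, A, ?_, ?_, F, hF1, hν1.trans hνlt.le, ?_,
    hνU.trans hνlt.le⟩, hF2⟩
  · rintro z ⟨ρ, hρ1, hρ2⟩
    exact regPt_of_typein (hν0.trans (hνlt.le.trans hρ1)) hρ1 hρ2
  · intro α hα
    have h3 : Order.succ #(Iio α) < l := by
      apply hl.isSuccLimit.succ_lt
      rw [exist_mk_Iio]
      exact Cardinal.lt_ord.1 (htl α)
    have h4 : (Order.succ #(Iio α)).ord <
        Ordinal.type (α := l.ord.ToType) (· < ·) := by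
      rw [Ordinal.type_toType]
      exact Cardinal.ord_lt_ord.2 h3
    set z : l.ord.ToType := Ordinal.enum (α := l.ord.ToType) (· < ·)
      ⟨(Order.succ #(Iio α)).ord, h4⟩ with hz
    have hzt : Ordinal.typein (α := l.ord.ToType) (· < ·) z = (Order.succ #(Iio α)).ord := by
      rw [hz, Ordinal.typein_enum]
    refine ⟨z, ⟨#(Iio α), hα, hzt⟩, ?_, ?_⟩
    · rw [← Ordinal.typein_lt_typein (α := l.ord.ToType) (· < ·), hzt, Cardinal.lt_ord,
        ← exist_mk_Iio]
      exact Order.lt_succ _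
    · intro d hd
      rw [← Ordinal.typein_lt_typein (α := l.ord.ToType) (· < ·), hzt, Cardinal.lt_ord,
        ← exist_mk_Iio] at hd
      exact Order.lt_succ_iff.1 hd
  · rw [Cardinal.mk_arrow, Cardinal.mk_nat, Cardinal.lift_aleph0, Cardinal.lift_uzero]
    calc #A ^ (ℵ₀ : Cardinal.{u}) ≤ (2 ^ ν : Cardinal.{u}) ^ (ℵ₀ : Cardinal.{u}) :=
          Cardinal.power_le_power_right (hmkA.trans (hνo.trans hνlt.le))
      _ = 2 ^ ν := hμℵ

end Pool.Agent.Lib.MP_f5d53e_lc
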