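import Pool.Agent.Lib.MP_f5d53e_lc.PDefs

/-! Row fd5-Pow: `2 ^ l = l ^ ℵ₀`. -/

namespace Pool.Agent.Lib.MP_f5d53e_lc

universe u

open Cardinal Set Filter

/-- `X ↦ (X ∩ l_n)_n` with `l_n` cofinal in `l`, `2 ^ l_n < l`. -/
theorem two_power_le_power_aleph0 {l : Cardinal.{u}} (hl : l.IsStrongLimit) (hcof : l.ord.cof = ℵ₀) :
    (2 : Cardinal.{u}) ^ l ≤ l ^ (ℵ₀ : Cardinal.{u}) := by
  obtain ⟨s, hs1, hs2⟩ := Order.exists_cof_eq l.ord.ToType
  rw [Ordinal.cof_toType, hcof] at hs2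
  have hW : #l.ord.ToType = l := by simp
  have h1 : (2 : Cardinal.{u}) ^ l = #(Set l.ord.ToType) := by rw [Cardinal.mk_set, hW]
  have h2 : #(Set l.ord.ToType) ≤ #(∀ i : s, Set (Iic (i : l.ord.ToType))) := by
    refine Cardinal.mk_le_of_injective
      (f := fun (X : Set l.ord.ToType) (i : s) => {x : Iic (i : l.ord.ToType) | (x : l.ord.ToType) ∈ X}) ?_
    intro X Y hXY
    have key : ∀ x : l.ord.ToType, x ∈ X ↔ x ∈ Y := by
      intro x
      obtain ⟨b, hb, hxb⟩ := hs1 x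
      have h3 := congrFun hXY ⟨b, hb⟩
      have h4 : ((⟨x, hxb⟩ : Iic b) ∈ {x : Iic b | (x : l.ord.ToType) ∈ X}) ↔
          ((⟨x, hxb⟩ : Iic b) ∈ {x : Iic b | (x : l.ord.ToType) ∈ Y}) := by
        have h5 : {x : Iic b | (x : l.ord.ToType) ∈ X} = {x : Iic b | (x : l.ord.ToType) ∈ Y} := h3
        rw [h5]
      exact h4
    exact Set.ext key
  have h3 : #(∀ i : s, Set (Iic (i : l.ord.ToType))) ≤ Cardinal.prod fun _ : s => l := by
    rw [Cardinal.mk_pi]
    refine Cardinal.prod_le_prod _ _ fun i => ?_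
    rw [Cardinal.mk_set]
    have h4 : #(Iic (i : l.ord.ToType)) < l := by
      have h5 := mk_Iic_lt (W := l.ord.ToType) (by rw [hW]; exact hl.aleph0_le)
        (by rw [hW]; exact (Ordinal.type_toType l.ord).symm) (i : l.ord.ToType)
      rwa [hW] at h5
    exact (hl.isStrongPrelimit h4).le
  have h6 : (Cardinal.prod fun _ : s => l) = l ^ (ℵ₀ : Cardinal.{u}) := by
    rw [Cardinal.prod_const, hs2]
    simp
  rw [h1, ← h6]
  exact h2.trans h3

end Pool.Agent.Lib.MP_f5d53e_lc
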