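import Pool.Agent.Lib.MP_f5d53e_lc.PCount
import Pool.Agent.Lib.MP_f5d53e_lc.PExist
import Pool.Agent.Lib.MP_f5d53e_lc.PPow

/-! Row fd5-Main: large cofinalities of ultraproducts. -/

namespace Pool.Agent.Lib.MP_f5d53e_lc

universe u

open Cardinal Set Filter

/-- `exists_PData` and `mk_fun_lt`, as `#(ℕ → l.ord.ToType) = l ^ ℵ₀ ≥ κ`. -/
theorem exists_le_cofProd {l μ0 κ : Cardinal.{u}} {o : Ordinal.{u}} (hl : l.IsStrongLimit) (h0 : ℵ₀ < l)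
    (ho : l = Cardinal.aleph o) (hoc : o.card < l) (hμ0 : μ0 < l) (hκ : κ.IsRegular) (hlκ : l < κ)
    (hκl : κ ≤ l ^ (ℵ₀ : Cardinal.{u})) :
    ∃ (D : Ultrafilter ℕ) (c : ℕ → Cardinal.{u}), (∀ n, (c n).IsRegular ∧ μ0 < c n ∧ c n < l) ∧
      κ ≤ cofProd D c := by
  by_contra hcon
  push Not at hcon
  obtain ⟨μ, hμl, hpow, T, hF⟩ := exists_PData (κ := κ) hl h0 ho hoc hμ0 hcon
  have h1 := T.mk_fun_lt hκ (hμl.trans hlκ) hpow hF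
  have h2 : #(ℕ → l.ord.ToType) = l ^ (ℵ₀ : Cardinal.{u}) := by
    rw [mk_arrow]
    simp
  rw [h2] at h1
  exact absurd hκl (not_le.mpr h1)

end Pool.Agent.Lib.MP_f5d53e_lc
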