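import Pool.Agent.Lib.MP_f5d53e_lc.PDefs

/-! Row fd5-Rank: well-ordered sets, numbers of predecessors. -/

namespace Pool.Agent.Lib.MP_f5d53e_lc

universe u

open Cardinal Set Filter

section

variable {L : Type u} [LinearOrder L] [WellFoundedLT L]

/-- For every `d` there is an injection of the elements below `d` into the elements with fewer predecessors than `d`:
`Iio d` is equinumerous with `Iio k` for the least `k` such that `#(Iio k) = #(Iio d)`, and `w < k` implies
`#(Iio w) < #(Iio d)`. -/
theorem exists_rank_map : ∃ e : L → L → L, (∀ d α, α < d → #(Iio (e d α)) < #(Iio d)) ∧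
    ∀ d, InjOn (e d) (Iio d) := by
  classical
  have key : ∀ d : L, ∃ f : L → L, (∀ α, α < d → #(Iio (f α)) < #(Iio d)) ∧ InjOn f (Iio d) := by
    intro d
    have hne : ({k : L | #(Iio k) = #(Iio d)} : Set L).Nonempty := ⟨d, rfl⟩
    let k := WellFounded.min (wellFounded_lt (α := L)) {k : L | #(Iio k) = #(Iio d)} hne
    have hk : #(Iio k) = #(Iio d) :=
      WellFounded.min_mem (wellFounded_lt (α := L)) {k : L | #(Iio k) = #(Iio d)} hne
    have hmin : ∀ w, w < k → #(Iio w) ≠ #(Iio d) := by
      intro w hw h
      exact WellFounded.not_lt_min (wellFounded_lt (α := L)) {k : L | #(Iio k) = #(Iio d)} h hw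
    obtain ⟨g⟩ := Cardinal.eq.1 hk.symm
    refine ⟨fun α => if h : α < d then ((g ⟨α, h⟩ : Iio k) : L) else α, ?_, ?_⟩
    · intro α hα
      have h1 : ((g ⟨α, hα⟩ : Iio k) : L) < k := (g ⟨α, hα⟩).2
      have h2 : #(Iio ((g ⟨α, hα⟩ : Iio k) : L)) ≤ #(Iio k) :=
        Cardinal.mk_le_mk_of_subset (Iio_subset_Iio h1.le)
      simp only [hα, dite_true]
      rw [← hk]
      exact lt_of_le_of_ne h2 (by rw [hk]; exact hmin _ h1)
    · intro a ha b hb hab
      have ha' : a < d := ha
      have hb' : b < d := hb
      simp only [ha', hb', dite_true] at hab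
      have h3 : g ⟨a, ha'⟩ = g ⟨b, hb'⟩ := Subtype.ext hab
      have h4 := g.injective h3
      exact congrArg Subtype.val h4
  choose e he using key
  exact ⟨e, fun d => (he d).1, fun d => (he d).2⟩

/-- The set of the elements with fewer than `μ` predecessors has at most `μ` elements (its order type is an initial
segment of `μ.ord`; use `Ordinal.typein`). -/
theorem mk_small_le (μ : Cardinal.{u}) : #{x : L | #(Iio x) < μ} ≤ μ := by
  classical
  have hin : ∀ x : {x : L | #(Iio x) < μ},
      Ordinal.typein ((· < ·) : L → L → Prop) x.1 ∈ Iio μ.ord := by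
    intro x
    have h1 : #(Iio x.1) < μ := x.2
    change Ordinal.typein ((· < ·) : L → L → Prop) x.1 < μ.ord
    rw [Cardinal.lt_ord, Ordinal.card_typein]
    exact h1
  let f : {x : L | #(Iio x) < μ} → μ.ord.ToType :=
    fun x => Ordinal.ToType.mk ⟨Ordinal.typein ((· < ·) : L → L → Prop) x.1, hin x⟩
  have hf : Function.Injective f := by
    intro a b hab
    have h1 := (Ordinal.ToType.mk (o := μ.ord)).injective hab
    have h2 : Ordinal.typein ((· < ·) : L → L → Prop) a.1 =
        Ordinal.typein ((· < ·) : L → L → Prop) b.1 := congrArg Subtype.val h1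
    exact Subtype.ext (Ordinal.typein_injective _ h2)
  have h3 := Cardinal.mk_le_of_injective hf
  rwa [Cardinal.mk_ord_toType] at h3

end

end Pool.Agent.Lib.MP_f5d53e_lc
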