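import Pool.Agent.Lib.MP_f5d53e_lc.PChi
import Pool.Agent.Lib.MP_f5d53e_lc.PChain

/-! Row fd5-Sup: the suprema `chi (chain i) z` of the stages below a point `z` of `A`. -/

namespace Pool.Agent.Lib.MP_f5d53e_lc

universe u

open Cardinal Set Filter

namespace PData

variable {L : Type u} [LinearOrder L] [WellFoundedLT L] {μ : Cardinal.{u}} (T : PData L μ)

theorem chi_chain_lt {S0 : Set L} (h0 : #S0 ≤ μ) (z : T.A) (i : WW.{u}) :
    chi (T.chain S0 i) z < z := by
  exact chi_lt (T.A_reg z z.2) (T.mk_chain_le h0 i)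

/-- `chi (chain i) z` is in the next stage. -/
theorem chi_mem_chain (S0 : Set L) (z : T.A) {i j : WW.{u}} (h : i < j) :
    chi (T.chain S0 i) z ∈ T.chain S0 j := by
  refine T.step_subset_chain S0 h ?_
  left
  right
  exact ⟨z, z.2, rfl⟩

theorem chi_chain_strict {S0 : Set L} (h0 : #S0 ≤ μ) (z : T.A) {i j : WW.{u}} (h : i < j) :
    chi (T.chain S0 i) z < chi (T.chain S0 j) z := by
  exact lt_chi (T.chi_mem_chain S0 z h) (T.chi_chain_lt h0 z i)

theorem chi_chain_lt_model {S0 : Set L} (h0 : #S0 ≤ μ) (z : T.A) (i : WW.{u}) :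
    chi (T.chain S0 i) z < chi (T.model S0) z := by
  obtain ⟨j, hj⟩ := WW_bound fun _ => i
  exact (T.chi_chain_strict h0 z (hj 0)).trans_le (chi_mono (T.chain_subset_model S0 j) z)

theorem exists_lt_chi_chain {S0 : Set L} (z : T.A) {y : L} (h : y < chi (T.model S0) z) :
    ∃ i, y < chi (T.chain S0 i) z := by
  obtain ⟨α, hα, hαz, hy⟩ := exists_of_lt_chi h
  obtain ⟨i, hi⟩ := Set.mem_iUnion.1 hα
  exact ⟨i, hy.trans_lt (lt_chi hi hαz)⟩

/-- The stages are continuous: if `i` is the supremum of the `s n`, then `chi (chain i) z` is the supremum of the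
`chi (chain (s n)) z`. -/
theorem chi_chain_le {S0 : Set L} (z : T.A) {i : WW.{u}} {s : ℕ → WW.{u}} (hs : ∀ j < i, ∃ n, j < s n)
    {y : L} (hy : ∀ n, chi (T.chain S0 (s n)) z ≤ y) : chi (T.chain S0 i) z ≤ y := by
  refine chi_le fun α hα hαz => ?_
  obtain ⟨n, hn⟩ := T.exists_mem_chain S0 hs hα
  exact (lt_chi hn hαz).trans_le (hy n)

/-- The values of `cfb` at `δ = chi (model) z` are cofinal below `δ`, since `i ↦ chi (chain i) z` is such a map. -/
theorem cfb_spec {S0 : Set L} (h0 : #S0 ≤ μ) (z : T.A) :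
    (∀ w, cfb (chi (T.model S0) z) w < chi (T.model S0) z) ∧
      ∀ y < chi (T.model S0) z, ∃ w, y < cfb (chi (T.model S0) z) w := by
  have h : ∃ φ : WW.{u} → L, (∀ w, φ w < chi (T.model S0) z) ∧ ∀ y < chi (T.model S0) z, ∃ w, y < φ w :=
    ⟨fun i => chi (T.chain S0 i) z, fun i => T.chi_chain_lt_model h0 z i, fun y hy => T.exists_lt_chi_chain z hy⟩
  unfold cfb
  rw [dif_pos h]
  exact h.choose_spec

/-- The key point. With `δ = chi (model) z`: choose `i 0` with `α < chi (chain (i 0)) z`, then `w k` with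
`chi (chain (i k)) z < cfb δ (w k)` and `i (k+1) > i k` with `cfb δ (w k) < chi (chain (i (k+1))) z`. With `i` the supremum of
the `i k` (`WW_sup`), `chi (chain i) z = cpt δ w` (both are the supremum of the interleaved sequences). -/
theorem exists_cpt {S0 : Set L} (h0 : #S0 ≤ μ) (z : T.A) {α : L} (hα : α ∈ T.model S0) (hz : α < z) :
    ∃ w : ℕ → WW.{u}, cpt (chi (T.model S0) z) w ∈ T.model S0 ∧ α < cpt (chi (T.model S0) z) w ∧
      cpt (chi (T.model S0) z) w < z := by
  set δ := chi (T.model S0) z with hδ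
  obtain ⟨hc1, hc2⟩ := T.cfb_spec h0 z
  have hnext : ∀ i : WW.{u}, ∃ p : WW.{u} × WW.{u}, chi (T.chain S0 i) z < cfb δ p.1 ∧
      cfb δ p.1 < chi (T.chain S0 p.2) z := by
    intro i
    obtain ⟨w, hw⟩ := hc2 _ (T.chi_chain_lt_model h0 z i)
    obtain ⟨j, hj⟩ := T.exists_lt_chi_chain z (hc1 w)
    exact ⟨(w, j), hw, hj⟩
  choose F hF1 hF2 using hnext
  obtain ⟨i₀, hi₀⟩ := Set.mem_iUnion.1 hα
  have hlt : ∀ i, i < (F i).2 := by
    intro i
    by_contra hcon
    exact absurd ((hF1 i).trans (hF2 i)) (not_lt.2 (chi_mono (T.chain_mono S0 (not_lt.1 hcon)) z))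
  let s : ℕ → WW.{u} := fun n => Nat.rec i₀ (fun _ i => (F i).2) n
  have hs0 : s 0 = i₀ := rfl
  have hs1 : ∀ n, s (n + 1) = (F (s n)).2 := fun n => rfl
  have hsm : StrictMono s := strictMono_nat_of_lt_succ fun n => by
    rw [hs1]
    exact hlt _
  obtain ⟨i, hi1, hi2⟩ := WW_sup s hsm
  have hne : ({y | ∀ k, cfb δ ((F (s k)).1) ≤ y} : Set L).Nonempty := ⟨δ, fun k => (hc1 _).le⟩
  have hcpt : cpt δ (fun k => (F (s k)).1) = chi (T.chain S0 i) z := by
    unfold cpt
    rw [dif_pos hne]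
    refine le_antisymm ?_ ?_
    · refine WellFounded.min_le (wellFounded_lt (α := L)) ?_
      intro k
      refine (hF2 (s k)).le.trans (chi_mono (T.chain_mono S0 ?_) z)
      rw [← hs1]
      exact (hi1 (k + 1)).le
    · refine T.chi_chain_le z hi2 fun n => ?_
      exact (hF1 (s n)).le.trans (WellFounded.min_mem (wellFounded_lt (α := L)) _ hne n)
  refine ⟨fun k => (F (s k)).1, ?_, ?_, ?_⟩
  · rw [hcpt]
    obtain ⟨j, hj⟩ := WW_bound fun _ => i
    exact T.chain_subset_model S0 j (T.chi_mem_chain S0 z (hj 0))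
  · rw [hcpt]
    exact (lt_chi hi₀ hz).trans_le (chi_mono (T.chain_mono S0 (hi1 0).le) z)
  · rw [hcpt]
    exact T.chi_chain_lt h0 z i

end PData

end Pool.Agent.Lib.MP_f5d53e_lc
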