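import Pool.Agent.Lib.MP_f5d53e_lc.Tensor

namespace Pool.Agent.Lib.MP_f5d53e_lc

universe u v

open Cardinal Set Filter

set_option maxHeartbeats 400000

theorem nonprincipal_large (D : Ultrafilter ℕ) (hD : ∀ n, {n} ∉ D) (N : ℕ) : {n | N ≤ n} ∈ D := by
  have h : ∀ m < N, {n | n ≠ m} ∈ (D : Filter ℕ) := by
    intro m _
    have h1 : ({m} : Set ℕ)ᶜ ∈ D := Ultrafilter.compl_mem_iff_notMem.2 (hD m)
    exact h1
  have h2 := (Filter.eventually_all_finite (finite_lt_nat N) (l := (D : Filter ℕ))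
      (p := fun m n => n ≠ m)).2 (fun m hm => h m hm)
  refine mem_of_superset h2 ?_
  intro n hn
  by_contra hcon
  exact hn n (by simpa using hcon) rfl

/-- The character of the tensor product of a nonprincipal ultrafilter on the natural numbers
with a uniform ultrafilter on a strong limit cardinal of countable cofinality. -/
theorem Ch_tensor_eq {X : Type u} (hl : (#X).IsStrongLimit) (h0 : ℵ₀ < #X)
    (hcof : (#X).ord.cof = ℵ₀) (U : Ultrafilter X) (hU : Uniform U) (D : Ultrafilter ℕ)
    (hD : ∀ n, {n} ∉ D) : Ch (tensor D U) = max (Ch U) (lcf U) := by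
  obtain ⟨q, hq⟩ := exists_tendsto U hU h0.le hcof
  have hX : #X ≤ Ch U := by
    obtain ⟨B, hB, hBc⟩ := exists_base U
    rw [← hBc]
    exact le_base_of_uniform U hl hU B hB
  have hc : Cardinal.lift.{u} Cardinal.continuum.{0} ≤ Ch U := by
    refine le_trans ?_ hX
    have := hl.isStrongPrelimit h0
    rw [two_power_aleph0] at this
    simpa using this.le
  apply le_antisymm
  · exact Ch_tensor_le D U q hq hc
  · refine max_le (Ch_le_tensor D U (h0.trans_le hX)) ?_
    exact lcf_le_tensor D (nonprincipal_large D hD) U q hq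

theorem max_mem_Sp {X : Type u} (hl : (#X).IsStrongLimit) (h0 : ℵ₀ < #X)
    (hcof : (#X).ord.cof = ℵ₀) (U : Ultrafilter X) (hU : Uniform U) :
    max (Ch U) (lcf U) ∈ Sp (#X) := by
  have hD : ∀ n : ℕ, {n} ∉ hyperfilter ℕ := fun n => by
    intro h
    exact (Set.finite_singleton n).notMem_hyperfilter h
  exact ⟨ℕ × X, tensor (hyperfilter ℕ) U, mk_nat_prod h0.le, uniform_tensor h0.le _ U hU,
    Ch_tensor_eq hl h0 hcof U hU _ hD⟩

end Pool.Agent.Lib.MP_f5d53e_lc
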