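import Pool.Agent.Lib.MP_f5d53e_lc.Count

namespace Pool.Agent.Lib.MP_f5d53e_lc

universe u v

open Cardinal Set Filter

set_option maxHeartbeats 400000

/-- The sum of the ultrafilters `V i` along `E`. -/
def sum {I : Type u} {X : I → Type u} (E : Ultrafilter I) (V : ∀ i, Ultrafilter (X i)) :
    Ultrafilter (Σ i, X i) :=
  E.bind fun i => (V i).map (Sigma.mk i)

theorem mem_sum {I : Type u} {X : I → Type u} (E : Ultrafilter I) (V : ∀ i, Ultrafilter (X i))
    (A : Set (Σ i, X i)) :
    A ∈ sum E V ↔ {i | {x | (⟨i, x⟩ : Σ i, X i) ∈ A} ∈ V i} ∈ E := by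
  change A ∈ Filter.bind (E : Filter I) (fun i =>
    (((V i).map (Sigma.mk i) : Ultrafilter (Σ i, X i)) : Filter (Σ i, X i))) ↔ _
  rw [Filter.mem_bind']
  rfl

theorem two_power_le_Ch_sum {I : Type u} {X : I → Type u} {l : Cardinal.{u}}
    (hl : l.IsStrongLimit) (hI : #I < l) (E : Ultrafilter I) (V : ∀ i, Ultrafilter (X i))
    (c : I → Cardinal.{u}) (hlim : ∀ μ < l, ∀ᶠ i in (E : Filter I), μ ≤ c i)
    (t : Cardinal.{u}) (ht : t < l)
    (hG : ∀ᶠ i in (E : Filter I), ¬ Gal (V i) t (2 ^ c i)) : 2 ^ l ≤ Ch (sum E V) := by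
  classical
  let W := l.ord.ToType
  let L : I → Set W := fun i => {a | Ordinal.typein (α := W) (· < ·) a < (c i).ord}
  have hL : ∀ i, #(L i) ≤ c i := by
    intro i
    have h1 : #(L i) ≤ #((c i).ord.ToType) := by
      refine mk_le_of_injective (f := fun a : L i =>
        Ordinal.enum (α := (c i).ord.ToType) (· < ·) ⟨Ordinal.typein (α := W) (· < ·) a.1, by
          rw [mem_Iio, Ordinal.type_toType]; exact a.2⟩) ?_
      intro a b h
      have h2 := (Ordinal.enum (α := (c i).ord.ToType) (· < ·)).injective h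
      have h3 : Ordinal.typein (α := W) (· < ·) a.1 = Ordinal.typein (α := W) (· < ·) b.1 := by
        simpa using h2
      exact Subtype.ext ((Ordinal.typein_injective (α := W) (· < ·)) h3)
    simpa using h1
  -- the families
  have hfam : ∀ i, ∃ A : Set (L i) → Set (X i), (∀ ξ, A ξ ∈ V i) ∧
      (¬ Gal (V i) t (2 ^ c i) → ∀ b ∈ V i, #{ξ | b ⊆ A ξ} ≤ t) := by
    intro i
    by_cases hi : Gal (V i) t (2 ^ c i)
    · exact ⟨fun _ => univ, fun _ => Filter.univ_mem, fun h => absurd hi h⟩
    · obtain ⟨K, A, hK, hA, hb⟩ := exists_of_not_gal hi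
      have hle : #(Set (L i)) ≤ #K := by
        rw [hK, mk_set]
        exact power_le_power_left two_ne_zero (hL i)
      obtain ⟨e⟩ := Cardinal.le_def _ _ |>.1 hle
      refine ⟨fun ξ => A (e ξ), fun ξ => hA _, fun _ b hbV => ?_⟩
      refine le_trans ?_ (hb b hbV).le
      refine mk_le_of_injective
        (f := fun ξ : {ξ | b ⊆ A (e ξ)} => (⟨e ξ.1, ξ.2⟩ : {i | b ⊆ A i})) ?_
      intro x y h
      apply Subtype.ext
      exact e.injective (congrArg Subtype.val h)
  choose A hA hb using hfam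
  obtain ⟨B, hB, hBc⟩ := exists_base (sum E V)
  rw [← hBc]
  let tr : Set W → ∀ i, Set (L i) := fun S i => {a | (a : W) ∈ S}
  let hat : Set W → Set (Σ i, X i) := fun S => {p | p.2 ∈ A p.1 (tr S p.1)}
  have hhat : ∀ S, hat S ∈ sum E V := by
    intro S
    rw [mem_sum]
    refine Filter.univ_mem' fun i => ?_
    exact hA i (tr S i)
  have hpow : t ^ #I < l := power_lt_of_strongLimit hl ht hI
  have hcov : #(univ : Set (Set W)) ≤ #B * t ^ #I := by
    refine mk_le_mul_of_cover univ (fun b : B => {S | (b : Set _) ⊆ hat S}) _ ?_ ?_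
    · intro S _
      obtain ⟨b, hb, hb'⟩ := hB.2 _ (hhat S)
      exact ⟨⟨b, hb⟩, hb'⟩
    · intro b
      have hbE := hB.1 _ b.2
      rw [mem_sum] at hbE
      let G : Set I := {i | {x | (⟨i, x⟩ : Σ i, X i) ∈ (b : Set (Σ i, X i))} ∈ V i ∧
        ¬ Gal (V i) t (2 ^ c i)}
      have hGE : G ∈ E := Filter.inter_mem hbE hG
      let R : G → Type u := fun i => {ξ : Set (L i) | {x | (⟨i, x⟩ : Σ i, X i) ∈
        (b : Set (Σ i, X i))} ⊆ A i ξ}
      have hR : ∀ i : G, #(R i) ≤ t := fun i => hb i.1 i.2.2 _ i.2.1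
      have hinj : #{S | (b : Set _) ⊆ hat S} ≤ #(∀ i : G, R i) := by
        refine mk_le_of_injective
          (f := fun (S : {S | (b : Set _) ⊆ hat S}) (i : G) =>
            (⟨tr S.1 i, fun x hx => S.2 hx⟩ : R i)) ?_
        intro S S' h
        apply Subtype.ext
        ext a
        -- a lies in some L i, i in G
        have h1 : (Order.succ (Ordinal.typein (α := W) (· < ·) a).card) < l := by
          refine hl.isSuccLimit.succ_lt ?_
          rw [← lt_ord]
          exact Ordinal.typein_lt_self a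
        obtain ⟨i, hi1, hi2⟩ := ((hlim _ h1).and hGE).exists
        have h2 : a ∈ L i := by
          change Ordinal.typein (α := W) (· < ·) a < (c i).ord
          rw [lt_ord]
          exact (Order.lt_succ _).trans_le hi1
        have h3 := congrArg Subtype.val (congrFun h ⟨i, hi2⟩)
        have h4 := Set.ext_iff.1 h3 ⟨a, h2⟩
        exact h4
      refine hinj.trans ?_
      rw [mk_pi]
      refine (prod_le_prod _ _ fun i => hR i).trans ?_
      rw [prod_const']
      by_cases ht0 : t = 0
      · -- then the family is empty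
        subst ht0
        obtain ⟨i, hi⟩ := Ultrafilter.nonempty_of_mem hGE
        have : #(↑G) ≠ 0 := by
          rw [mk_ne_zero_iff]
          exact ⟨⟨i, hi⟩⟩
        rw [zero_power this]
        exact zero_le
      · exact power_le_power_left ht0 (mk_set_le G)
  rw [mk_univ, mk_set] at hcov
  have hW : #W = l := by simp [W]
  rw [hW] at hcov
  by_contra hcon
  rw [not_le] at hcon
  refine absurd hcov (not_le.2 ?_)
  refine mul_lt_of_lt (hl.aleph0_le.trans (cantor l).le) hcon (hpow.trans (cantor l))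

end Pool.Agent.Lib.MP_f5d53e_lc
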