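import Pool.Agent.Lib.MP_f5d53e_lc.Lower

namespace Pool.Agent.Lib.MP_f5d53e_lc

universe u v

open Cardinal Set Filter

set_option maxHeartbeats 400000

/-- The tensor product of an ultrafilter on the natural numbers with `U`. -/
def tensor {X : Type u} (D : Ultrafilter ℕ) (U : Ultrafilter X) : Ultrafilter (ℕ × X) :=
  D.bind fun n => U.map (Prod.mk n)

theorem mem_tensor {X : Type u} (D : Ultrafilter ℕ) (U : Ultrafilter X) (A : Set (ℕ × X)) :
    A ∈ tensor D U ↔ {n | {x | (n, x) ∈ A} ∈ U} ∈ D := by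
  change A ∈ Filter.bind (D : Filter ℕ) (fun n => ((U.map (Prod.mk n) : Ultrafilter (ℕ × X)) :
    Filter (ℕ × X))) ↔ _
  rw [Filter.mem_bind']
  rfl

theorem mk_nat_prod {X : Type u} (hX : ℵ₀ ≤ #X) : #(ℕ × X) = #X := by
  rw [mk_prod]
  simp [hX]

theorem uniform_tensor {X : Type u} (hX : ℵ₀ ≤ #X) (D : Ultrafilter ℕ) (U : Ultrafilter X)
    (hU : Uniform U) : Uniform (tensor D U) := by
  intro A hA
  rw [mem_tensor] at hA
  obtain ⟨n, hn⟩ := Ultrafilter.nonempty_of_mem hA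
  apply le_antisymm (mk_set_le A)
  rw [mk_nat_prod hX, ← hU _ hn]
  refine mk_le_of_injective (f := fun x : {x | (n, x) ∈ A} => (⟨(n, x.1), x.2⟩ : A)) ?_
  intro x y h
  simpa [Subtype.ext_iff] using h

/-- A uniform ultrafilter over a strong limit has character at least that cardinal. -/
theorem le_base_of_uniform {X : Type u} (U : Ultrafilter X) (hl : (#X).IsStrongLimit)
    (hU : Uniform U) (B : Set (Set X)) (hB : IsBase U B) : #X ≤ #B := by
  by_contra hcon
  rw [not_le] at hcon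
  let q : X → Set B := fun x => {b | x ∈ (b : Set X)}
  have hr : ∀ y : range q, ∃ x, q x = y := fun y => y.2
  choose r hr using hr
  have hS : #(range r) < #X := by
    refine mk_range_le.trans_lt ((mk_set_le _).trans_lt ?_)
    rw [mk_set]
    exact hl.isStrongPrelimit hcon
  have hS' : range r ∉ U := fun h => hS.ne (hU _ h)
  obtain ⟨b, hb, hb'⟩ := hB.2 _ (Ultrafilter.compl_mem_iff_notMem.2 hS')
  obtain ⟨x, hx⟩ := Ultrafilter.nonempty_of_mem (hB.1 _ hb)
  have h1 : q (r ⟨q x, x, rfl⟩) = q x := hr ⟨q x, x, rfl⟩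
  have h2 : (⟨b, hb⟩ : B) ∈ q (r ⟨q x, x, rfl⟩) := by
    rw [h1]; exact hx
  exact hb' h2 ⟨_, rfl⟩

/-- The character of the tensor product is at most the maximum. -/
theorem Ch_tensor_le {X : Type u} (D : Ultrafilter ℕ) (U : Ultrafilter X)
    (q : X → ℕ) (hq : Tendsto q U atTop) (h0 : Cardinal.lift.{u} Cardinal.continuum.{0} ≤ Ch U) :
    Ch (tensor D U) ≤ max (Ch U) (lcf U) := by
  obtain ⟨B, hB, hBc⟩ := exists_base U
  obtain ⟨S, hS, hS1, hS2⟩ := exists_lcf U
  let Z : Set ℕ × B × S → Set (ℕ × X) := fun z =>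
    {a | a.1 ∈ z.1 ∧ a.2 ∈ (z.2.1 : Set X) ∧ a.1 < (z.2.2 : X → ℕ) a.2}
  have hbase : IsBase (tensor D U) (range Z ∩ {A | A ∈ tensor D U}) := by
    refine ⟨fun b hb => hb.2, fun A hA => ?_⟩
    rw [mem_tensor] at hA
    let E : Set ℕ := {n | {x | (n, x) ∈ A} ∈ U}
    let Q : ℕ → X → Prop := fun m x => m ∈ E → (m, x) ∈ A
    have hQ : ∀ m, ∀ᶠ x in (U : Filter X), Q m x := by
      intro m
      by_cases hm : m ∈ E
      · exact mem_of_superset hm fun x hx _ => hx
      · exact Eventually.of_forall fun x h => absurd h hm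
    obtain ⟨s, hs, hs'⟩ := hS2 _ (tendsto_rk U Q q hq hQ)
    obtain ⟨b, hb, hb'⟩ := hB.2 _ hs'
    refine ⟨Z (E, ⟨b, hb⟩, ⟨s, hs⟩), ⟨⟨_, rfl⟩, ?_⟩, ?_⟩
    · change _ ∈ tensor D U
      rw [mem_tensor]
      refine mem_of_superset hA ?_
      intro n hn
      have h1 : {x | n < s x} ∈ U := (tendsto_atTop.1 (hS1 s hs)) (n + 1)
      refine mem_of_superset (Filter.inter_mem (hB.1 _ hb) h1) ?_
      intro x hx
      exact ⟨hn, hx.1, hx.2⟩
    · rintro ⟨n, x⟩ ⟨hn, hx, hnx⟩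
      exact rk_spec Q q x n (lt_of_lt_of_le hnx (hb' hx)) hn
  refine (Ch_le hbase).trans ?_
  refine (mk_le_mk_of_subset inter_subset_left).trans (mk_range_le.trans ?_)
  have hc0 : ℵ₀ ≤ Ch U := by
    refine le_trans ?_ h0
    simpa using aleph0_le_continuum.{u}
  rw [mk_prod, mk_prod, hBc, hS]
  simp only [mk_set, mk_nat, two_power_aleph0, lift_id, lift_id']
  calc Cardinal.lift.{u} Cardinal.continuum.{0} * (Ch U * lcf U) ≤ Ch U * (Ch U * lcf U) := by
        gcongr
    _ = (Ch U * Ch U) * lcf U := by rw [mul_assoc]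
    _ = Ch U * lcf U := by rw [mul_eq_self hc0]
    _ ≤ max (Ch U) (lcf U) := mul_le_max_of_aleph0_le_left hc0

/-- The character of the tensor product is at least the character of `U`. -/
theorem Ch_le_tensor {X : Type u} (D : Ultrafilter ℕ) (U : Ultrafilter X)
    (h0 : ℵ₀ < Ch U) : Ch U ≤ Ch (tensor D U) := by
  obtain ⟨C, hC, hCc⟩ := exists_base (tensor D U)
  let Z : ℕ × C → Set X := fun z => {x | (z.1, x) ∈ (z.2 : Set (ℕ × X))}
  have hbase : IsBase U (range Z ∩ {A | A ∈ U}) := by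
    refine ⟨fun b hb => hb.2, fun A hA => ?_⟩
    have h1 : {a : ℕ × X | a.2 ∈ A} ∈ tensor D U := by
      rw [mem_tensor]
      exact Filter.univ_mem' fun n => hA
    obtain ⟨b, hb, hb'⟩ := hC.2 _ h1
    have h2 := hC.1 b hb
    rw [mem_tensor] at h2
    obtain ⟨n, hn⟩ := Ultrafilter.nonempty_of_mem h2
    exact ⟨Z (n, ⟨b, hb⟩), ⟨⟨_, rfl⟩, hn⟩, fun x hx => hb' hx⟩
  have h3 : Ch U ≤ ℵ₀ * Ch (tensor D U) := by
    refine (Ch_le hbase).trans ((mk_le_mk_of_subset inter_subset_left).trans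
      (mk_range_le.trans ?_))
    rw [mk_prod, hCc]
    simp
  by_contra hcon
  rw [not_le] at hcon
  refine absurd h3 (not_le.2 ?_)
  exact mul_lt_of_lt h0.le h0 hcon

/-- The character of the tensor product is at least `lcf(ω, U)`. -/
theorem lcf_le_tensor {X : Type u} (D : Ultrafilter ℕ) (hD : ∀ N, {n | N ≤ n} ∈ D)
    (U : Ultrafilter X) (q : X → ℕ) (hq : Tendsto q U atTop) : lcf U ≤ Ch (tensor D U) := by
  classical
  obtain ⟨C, hC, hCc⟩ := exists_base (tensor D U)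
  let g : C → X → ℕ := fun b x => Nat.findGreatest (fun n => (n, x) ∈ (b : Set (ℕ × X))) (q x)
  have hle : lcf U ≤ #(range g) := by
    refine csInf_le' ⟨_, rfl, ?_, ?_⟩
    · rintro _ ⟨b, rfl⟩
      rw [tendsto_atTop]
      intro N
      have h2 := hC.1 b b.2
      rw [mem_tensor] at h2
      obtain ⟨n, hn1, hn2⟩ := Ultrafilter.nonempty_of_mem (Filter.inter_mem h2 (hD N))
      filter_upwards [hn1, (tendsto_atTop.1 hq) n] with x hx hx'
      exact le_trans hn2 (Nat.le_findGreatest hx' hx)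
    · intro h hh
      have h1 : {a : ℕ × X | a.1 < h a.2} ∈ tensor D U := by
        rw [mem_tensor]
        exact Filter.univ_mem' fun n => (tendsto_atTop.1 hh) (n + 1)
      obtain ⟨b, hb, hb'⟩ := hC.2 _ h1
      refine ⟨_, ⟨⟨b, hb⟩, rfl⟩, Eventually.of_forall fun x => ?_⟩
      by_cases h0 : g ⟨b, hb⟩ x = 0
      · rw [h0]; exact Nat.zero_le _
      · have h3 : (g ⟨b, hb⟩ x, x) ∈ b := Nat.findGreatest_of_ne_zero rfl h0
        exact (hb' h3).le
  exact (hle.trans mk_range_le).trans hCc.le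

/-- Over a strong limit cardinal of countable cofinality every uniform ultrafilter has a
function into the natural numbers tending to infinity. -/
theorem exists_tendsto {X : Type u} (U : Ultrafilter X) (hU : Uniform U) (h0 : ℵ₀ ≤ #X)
    (hcof : (#X).ord.cof = ℵ₀) : ∃ q : X → ℕ, Tendsto q U atTop := by
  obtain ⟨s, hs1, hs2⟩ := Order.exists_cof_eq (#X).ord.ToType
  rw [Ordinal.cof_toType, hcof] at hs2
  have e : Nonempty (X ≃ (#X).ord.ToType) := Cardinal.eq.1 (by simp)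
  obtain ⟨e⟩ := e
  have e2 : Nonempty (ULift.{u} ℕ ≃ s) := Cardinal.eq.1 (by simp [hs2])
  obtain ⟨e2⟩ := e2
  let a : ℕ → (#X).ord.ToType := fun n => (e2 ⟨n⟩ : (#X).ord.ToType)
  have ha : ∀ x : X, ∃ n, e x ≤ a n := by
    intro x
    obtain ⟨b, hb, hxb⟩ := hs1 (e x)
    refine ⟨(e2.symm ⟨b, hb⟩).down, ?_⟩
    have h1 : a (e2.symm ⟨b, hb⟩).down = b := by
      change ((e2 (e2.symm ⟨b, hb⟩) : s) : (#X).ord.ToType) = b
      rw [Equiv.apply_symm_apply]
    rw [h1]
    exact hxb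
  classical
  refine ⟨fun x => Nat.find (ha x), ?_⟩
  have hone : ∀ n, ∀ᶠ x in (U : Filter X), ¬ e x ≤ a n := by
    intro n
    rw [Ultrafilter.eventually_not]
    intro hcon
    have h1 := hU _ hcon
    have h2 : #{x | e x ≤ a n} ≤ #(Iic (a n)) :=
      mk_le_of_injective (f := fun x : {x | e x ≤ a n} => (⟨e x.1, x.2⟩ : Iic (a n))) (by
        intro x y h
        simpa [Subtype.ext_iff] using h)
    have h3 := mk_Iic_lt (W := (#X).ord.ToType) (by simpa using h0) (by simp) (a n)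
    rw [h1] at h2
    refine absurd h2 (not_le.2 ?_)
    simpa using h3
  rw [tendsto_atTop]
  intro N
  have h1 : ∀ᶠ x in (U : Filter X), ∀ m < N, ¬ e x ≤ a m := by
    have := (Filter.eventually_all_finite (finite_lt_nat N) (l := (U : Filter X))
      (p := fun m x => ¬ e x ≤ a m)).2 (fun m _ => hone m)
    simpa using this
  filter_upwards [h1] with x hx
  exact (Nat.le_find_iff (ha x) N).2 hx

end Pool.Agent.Lib.MP_f5d53e_lc
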